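import Pool.Agent.U843.LR.Compl

set_option autoImplicit false

/-!
# Completion, the homomorphism
-/

namespace Pool.Agent.U843.LR

open SimpleGraph

section

variable {G H Q : Type} [Group G] [Group H] [Group Q] {θ : G →* Q} {t : GTree G θ.ker}
  {ι : H →* G} {TH : Set t.N} {hTH : ∀ (h : H) p, p ∈ TH → ι h • p ∈ TH}

/-- the point `(p, 1)` -/
def pt (p : t.N) (hp : p ∈ TH) : UU t TH (Q := Q) := ⟨(p, 1), hp⟩

theorem lam_free (hst : ∀ p : t.N, ∀ f ∈ θ.ker, f • p = p → f = 1) (hι : Function.Injective ι)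
    {h : H} {x : UU t TH (Q := Q)} (hx : lam t ι TH hTH h x = x) : h = 1 := by
  have h1 : ι h • x.1.1 = x.1.1 := congrArg (fun y : UU t TH (Q := Q) => y.1.1) hx
  have h2 : x.1.2 * (θ (ι h))⁻¹ = x.1.2 := congrArg (fun y : UU t TH (Q := Q) => y.1.2) hx
  have h3 : θ (ι h) = 1 := by
    have := mul_eq_left.1 h2
    simpa using this
  have h4 := hst x.1.1 (ι h) (MonoidHom.mem_ker.2 h3) h1
  exact hι (by rw [h4, map_one])

/-- the subgroup of finite index with a retraction -/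
def W0 (u : UU t TH (Q := Q)) : Subgroup (WW t ι TH hTH) where
  carrier := {w | ∃ h : H, w.1 u = lam t ι TH hTH h⁻¹ u}
  mul_mem' := by
    rintro a b ⟨h, ha⟩ ⟨k, hb⟩
    refine ⟨h * k, ?_⟩
    change a.1 (b.1 u) = _
    rw [hb, WW_comm, ha, mul_inv_rev, map_mul]
    rfl
  one_mem' := ⟨1, by simp⟩
  inv_mem' := by
    rintro a ⟨h, ha⟩
    refine ⟨h⁻¹, ?_⟩
    have h1 : a.1 (lam t ι TH hTH h u) = u := by
      rw [WW_comm, ha, ← Equiv.Perm.mul_apply, ← map_mul]
      simp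
    have h2 : (a⁻¹).1 u = lam t ι TH hTH h u := by
      change a.1⁻¹ u = _
      rw [Equiv.Perm.inv_eq_iff_eq]
      exact h1.symm
    rw [h2, inv_inv]

theorem mem_W0 {u : UU t TH (Q := Q)} {w : WW t ι TH hTH} :
    w ∈ W0 (ι := ι) (hTH := hTH) u ↔ ∃ h : H, w.1 u = lam t ι TH hTH h⁻¹ u := Iff.rfl

theorem W0_fi [Finite Q] {P0 : Set t.N} (hP0 : P0.Finite)
    (hcov : ∀ p ∈ TH, ∃ h : H, ∃ y ∈ P0, p = ι h • y) (u : UU t TH (Q := Q)) :
    (W0 (ι := ι) (hTH := hTH) u).FiniteIndex := by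
  obtain ⟨f, hf⟩ := pigeon (hTH := hTH) hcov (Q := Q)
  have : Finite P0 := hP0
  have hfin : Finite (WW t ι TH hTH ⧸ W0 (ι := ι) (hTH := hTH) u) := by
    apply Finite.of_injective (fun q : WW t ι TH hTH ⧸ W0 (ι := ι) (hTH := hTH) u =>
      f (q.out.1 u))
    intro a b hab
    obtain ⟨h, hh⟩ := hf _ _ hab
    have h1 : (b.out)⁻¹ * a.out ∈ W0 (ι := ι) (hTH := hTH) u := by
      refine ⟨h⁻¹, ?_⟩
      change (b.out.1)⁻¹ (a.out.1 u) = _
      rw [hh, Equiv.Perm.inv_eq_iff_eq, inv_inv, WW_comm]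
    have h2 := QuotientGroup.eq.2 h1
    rw [← Quotient.out_eq' a, ← Quotient.out_eq' b]
    exact h2.symm
  exact Subgroup.finiteIndex_of_finite_quotient

/-- the retraction -/
noncomputable def retr (hst : ∀ p : t.N, ∀ f ∈ θ.ker, f • p = p → f = 1)
    (hι : Function.Injective ι) (u : UU t TH (Q := Q)) :
    W0 (ι := ι) (hTH := hTH) u →* H :=
  MonoidHom.mk' (fun w => w.2.choose) (by
    intro a b
    have ha := a.2.choose_spec
    have hb := b.2.choose_spec
    have hab := (a * b).2.choose_spec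
    set x := a.2.choose with hx
    set y := b.2.choose with hy
    set z := (a * b).2.choose with hz
    have h1 : (a * b).1.1 u = lam t ι TH hTH (x * y)⁻¹ u := by
      change a.1.1 (b.1.1 u) = _
      rw [hb, WW_comm, ha, mul_inv_rev, map_mul]
      rfl
    rw [hab] at h1
    have h2 : lam t ι TH hTH (x * y * z⁻¹) u = u := by
      rw [map_mul, Equiv.Perm.mul_apply, h1, ← Equiv.Perm.mul_apply, ← map_mul]
      simp
    have h3 := lam_free hst hι h2
    exact (mul_inv_eq_one.1 h3).symm)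

theorem retr_eq (hst : ∀ p : t.N, ∀ f ∈ θ.ker, f • p = p → f = 1)
    (hι : Function.Injective ι) (u : UU t TH (Q := Q)) (w : W0 (ι := ι) (hTH := hTH) u) (h : H)
    (hw : w.1.1 u = lam t ι TH hTH h⁻¹ u) : retr hst hι u w = h := by
  have h1 := w.2.choose_spec
  change w.2.choose = h
  set z := w.2.choose with hz
  rw [h1] at hw
  have h2 : lam t ι TH hTH (h * z⁻¹) u = u := by
    rw [map_mul, Equiv.Perm.mul_apply, hw, ← Equiv.Perm.mul_apply, ← map_mul]
    simp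
  have h3 := lam_free hst hι h2
  exact (mul_inv_eq_one.1 h3).symm

end

theorem compl {G H Q α : Type} [Group G] [Group H] [Group Q] [Finite Q] [DecidableEq α]
    (hG : Group.FG G) (hH : Group.FG H) (θ : G →* Q) (j : θ.ker →* FreeGroup α)
    (hj : Function.Injective j) (ι : H →* G) (hι : Function.Injective ι) :
    ∃ (W : Type) (_ : Group W) (Ψ : Q →* W) (φ : G →* W) (W0 : Subgroup W) (_ : W0.FiniteIndex)
      (r : W0 →* H), (∀ h : H, ∃ hm : φ (ι h) ∈ W0, r ⟨_, hm⟩ = h) ∧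
      ∀ C : Subgroup G, C ⊓ θ.ker = ⊥ → ∃ w : W, ∀ c ∈ C, φ c = w * Ψ (θ c) * w⁻¹ := by
  classical
  have hfi : θ.ker.FiniteIndex := by
    have : Finite (G ⧸ θ.ker) := Finite.of_injective _ (QuotientGroup.kerLift_injective θ)
    exact Subgroup.finiteIndex_of_finite_quotient
  obtain ⟨t, hst⟩ := abs_tree hG θ.ker inferInstance hfi j hj
  obtain ⟨S, hS, hSf⟩ := Group.fg_iff.1 hH
  have hne : Nonempty t.N := t.tree.connected.nonempty
  obtain ⟨p0⟩ := hne
  choose w hw using fun s : H => (⟨(t.tree.connected p0 (ι s • p0)).some, rfl⟩ :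
    ∃ w : t.T.Walk p0 (ι s • p0), w = w)
  let P0 : Set t.N := (⋃ s ∈ S, {x | x ∈ (w s).support}) ∪ {p0}
  have hP0 : P0.Finite :=
    (hSf.biUnion (fun s _ => List.finite_toSet _)).union (Set.finite_singleton _)
  let TH : Set t.N := {x | ∃ h : H, ∃ y ∈ P0, x = ι h • y}
  have hcov : ∀ p ∈ TH, ∃ h : H, ∃ y ∈ P0, p = ι h • y := fun p hp => hp
  have hTH : ∀ (h : H) p, p ∈ TH → ι h • p ∈ TH := by
    rintro h p ⟨k, y, hy, rfl⟩
    exact ⟨h * k, y, hy, by rw [map_mul, mul_smul]⟩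
  have hp0 : p0 ∈ TH := ⟨1, p0, Or.inr rfl, by simp⟩
  let W := WW t ι TH hTH
  let Ψ : Q →* W := psi t ι TH hTH
  obtain ⟨τ, hτ1, hτ2, hτ3⟩ := edge_choice (G := G) (W := W) (N := t.N) (T := t.T)
    (fun g _ => Ψ (θ g)) (fun g h p => by rw [map_mul, map_mul]) t.inv t.typ t.typ_smul t.typ_adj
    (RR t ι TH hTH) (fun p q _ _ => exists_RR hst hP0 hcov p q)
    (fun g p q w hw => RR_smul g p q w hw) (fun p q w hw a ha1 ha2 => hw.1 a ha1 ha2)
  obtain ⟨φ, σ, hσ0, hσ1, hσ2⟩ := glue (G := G) (W := W) t.tree t.inv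
    (fun g _ => Ψ (θ g)) (fun g h p => by rw [map_mul, map_mul]) τ hτ1 hτ2 p0
  -- the section
  let v : ∀ p, p ∈ TH → UU t TH (Q := Q) := fun p hp => ((σ p)⁻¹).1 (pt p hp)
  have hpt : ∀ p q (hp : p ∈ TH) (hq : q ∈ TH), t.T.Adj p q → (τ p q).1 (pt p hp) = pt q hq := by
    have half : ∀ p q (hp : p ∈ TH) (hq : q ∈ TH), t.T.Adj p q → t.typ p →
        (τ p q).1 (pt p hp) = pt q hq := by
      intro p q hp hq hpq htp
      have h1 := (hτ3 p q hpq htp).2 1 (by rwa [one_smul]) (by rwa [one_smul])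
      have e1 : (⟨((1 : G) • p, (θ 1)⁻¹), by rwa [one_smul]⟩ : UU t TH (Q := Q)) = pt p hp :=
        UU.ext' (one_smul _ _) (by simp [pt])
      have e2 : (⟨((1 : G) • q, (θ 1)⁻¹), by rwa [one_smul]⟩ : UU t TH (Q := Q)) = pt q hq :=
        UU.ext' (one_smul _ _) (by simp [pt])
      rw [e1, e2] at h1
      exact h1
    intro p q hp hq hpq
    by_cases htp : t.typ p
    · exact half p q hp hq hpq htp
    · have htq : t.typ q := by
        by_contra htq
        exact htp ((t.typ_adj p q hpq).2 htq)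
      have h1 := half q p hq hp hpq.symm htq
      rw [hτ1 q p hpq.symm]
      change (τ q p).1⁻¹ _ = _
      rw [Equiv.Perm.inv_eq_iff_eq, h1]
  have hvadj : ∀ p q (hp : p ∈ TH) (hq : q ∈ TH), t.T.Adj p q → v p hp = v q hq := by
    intro p q hp hq hpq
    have h1 := hpt p q hp hq hpq
    simp only [v]
    rw [hσ1 p q hpq, mul_inv_rev]
    change (σ p).1⁻¹ _ = (σ p).1⁻¹ ((τ p q).1⁻¹ _)
    congr 1
    rw [eq_comm, Equiv.Perm.inv_eq_iff_eq, h1]
  have hvwalk : ∀ (h : H) {a b : t.N} (P : t.T.Walk a b), (∀ x ∈ P.support, ι h • x ∈ TH) →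
      ∀ (ha : ι h • a ∈ TH) (hb : ι h • b ∈ TH), v _ ha = v _ hb := by
    intro h a b P
    induction P with
    | nil => intro _ _ _; rfl
    | @cons a c b hac P ih =>
      intro hs ha hb
      have hc : ι h • c ∈ TH := hs c (by simp)
      rw [hvadj _ _ ha hc (t.inv _ _ _ hac)]
      exact ih (fun x hx => hs x (by simp [hx])) hc hb
  have hall : ∀ k ∈ Subgroup.closure S, ∀ (h : H) (h1 : ι h • p0 ∈ TH)
      (h2 : ι (h * k) • p0 ∈ TH), v _ h1 = v _ h2 := by
    have e : ∀ {a b : t.N} (hab : a = b) (ha : a ∈ TH) (hb : b ∈ TH), v a ha = v b hb := by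
      rintro a _ rfl _ _
      rfl
    intro k hk
    induction hk using Subgroup.closure_induction with
    | mem s hs =>
      intro h h1 h2
      have h3 : ι (h * s) • p0 = ι h • ι s • p0 := by rw [map_mul, mul_smul]
      rw [e h3 h2 (by rwa [← h3])]
      apply hvwalk h (w s)
      intro x hx
      refine ⟨h, x, Or.inl ?_, rfl⟩
      simp only [Set.mem_iUnion]
      exact ⟨s, hs, hx⟩
    | one =>
      intro h h1 h2
      exact e (by rw [mul_one]) _ _
    | mul a b _ _ ha hb =>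
      intro h h1 h2
      rw [ha h h1 (hTH _ _ hp0), hb (h * a) (hTH _ _ hp0) (hTH _ _ hp0)]
      exact e (by rw [mul_assoc]) _ _
    | inv a _ ha =>
      intro h h1 h2
      rw [ha (h * a⁻¹) h2 (hTH _ _ hp0)]
      exact e (by rw [inv_mul_cancel_right]) _ _
  have hv : ∀ h : H, v (ι h • p0) (hTH h _ hp0) = v p0 hp0 := by
    intro h
    have h1 := hall h (by rw [hS]; trivial) 1 (hTH _ _ hp0) (hTH _ _ hp0)
    have e : ∀ {a b : t.N} (hab : a = b) (ha : a ∈ TH) (hb : b ∈ TH), v a ha = v b hb := by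
      rintro a _ rfl _ _
      rfl
    rw [e (show p0 = ι (1 : H) • p0 by simp) hp0 (hTH _ _ hp0), h1]
    exact e (by simp) _ _
  let u0 := v p0 hp0
  have hφ : ∀ h : H, (φ (ι h)).1 u0 = lam t ι TH hTH h⁻¹ u0 := by
    intro h
    have h1 := hσ2 (ι h) p0
    have h2 : φ (ι h) = (σ (ι h • p0))⁻¹ * (Ψ (θ (ι h)) * σ p0) := by
      rw [← h1]; group
    have h3 : (Ψ (θ (ι h))).1 (pt p0 hp0) = lam t ι TH hTH h⁻¹ (pt (ι h • p0) (hTH h _ hp0)) := by
      apply UU.ext'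
      · change p0 = ι h⁻¹ • ι h • p0
        simp
      · change θ (ι h) * 1 = 1 * (θ (ι h⁻¹))⁻¹
        simp
    rw [h2]
    change ((σ (ι h • p0))⁻¹).1 ((Ψ (θ (ι h))).1 ((σ p0).1 ((σ p0).1⁻¹ (pt p0 hp0)))) = _
    have h4 : (σ p0).1 ((σ p0).1⁻¹ (pt p0 hp0)) = pt p0 hp0 := (σ p0).1.apply_symm_apply _
    rw [h4, h3, WW_comm]
    congr 1
    exact hv h
  refine ⟨W, inferInstance, Ψ, φ, W0 (ι := ι) (hTH := hTH) u0, W0_fi hP0 hcov u0,
    retr hst hι u0, ?_, ?_⟩
  · intro h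
    refine ⟨⟨h, hφ h⟩, ?_⟩
    exact retr_eq hst hι u0 _ h (hφ h)
  · intro C hC
    have hCf : Finite C := by
      apply Finite.of_injective (fun c : C => θ c)
      intro a b hab
      have h1 : (a : G)⁻¹ * b ∈ C ⊓ θ.ker := by
        refine ⟨C.mul_mem (C.inv_mem a.2) b.2, ?_⟩
        change θ _ = 1
        simp only at hab
        rw [map_mul, map_inv, hab, inv_mul_cancel]
      rw [hC, Subgroup.mem_bot] at h1
      exact Subtype.ext (inv_mul_eq_one.1 h1)
    obtain ⟨p, hp⟩ := t.fixed C hCf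
    refine ⟨(σ p)⁻¹, fun c hc => ?_⟩
    have h1 := hσ2 c p
    rw [hp c hc] at h1
    rw [inv_inv, mul_assoc, ← h1]
    group

end Pool.Agent.U843.LR
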