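import Pool.Agent.U843.LR.Chain2
import Pool.Agent.U843.LR.Compl2

set_option autoImplicit false
set_option linter.unusedSectionVars false

/-!
# Property (LR) for virtually free groups
-/

namespace Pool.Agent.U843.LR

open FreeGroup

/-- `H` is a virtual retract -/
def LRp (G : Type) [Group G] (H : Subgroup G) : Prop :=
  ∃ K : Subgroup G, K.FiniteIndex ∧ H ≤ K ∧
    ∃ ρ : K →* G, (∀ k : K, ρ k ∈ H) ∧
      ∀ h : G, ∀ hk : h ∈ K, h ∈ H → ρ ⟨h, hk⟩ = h

theorem LRp_of_fi {G : Type} [Group G] {H : Subgroup G} (G2 : Subgroup G) (hfi : G2.FiniteIndex)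
    (hH : H ≤ G2) (h : LRp G2 (H.subgroupOf G2)) : LRp G H := by
  obtain ⟨K, hK, hHK, ρ, h1, h2⟩ := h
  have hmem : ∀ k ∈ K.map G2.subtype, ∃ h : k ∈ G2, (⟨k, h⟩ : G2) ∈ K := by
    rintro _ ⟨x, hx, rfl⟩
    exact ⟨x.2, hx⟩
  let κ : K.map G2.subtype →* K := MonoidHom.mk'
    (fun k => ⟨⟨k, (hmem k k.2).1⟩, (hmem k k.2).2⟩) (fun a b => rfl)
  refine ⟨K.map G2.subtype, ?_, ?_, (G2.subtype.comp ρ).comp κ, ?_, ?_⟩
  · constructor
    rw [Subgroup.index_map_subtype]
    exact mul_ne_zero hK.index_ne_zero hfi.index_ne_zero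
  · intro h hh
    exact ⟨⟨h, hH hh⟩, hHK hh, rfl⟩
  · intro k
    exact h1 (κ k)
  · intro h hk hh
    have := h2 ⟨h, hH hh⟩ (hHK hh) hh
    exact congrArg Subtype.val this

theorem LRp_bot {G : Type} [Group G] {F H : Subgroup G} (hF : F.Normal)
    (gen : ∀ g : G, ∃ f ∈ F, ∃ h ∈ H, g = f * h) (hb : ∀ l ∈ H, l ∈ F → l = 1) : LRp G H := by
  have hbij : Function.Bijective ((QuotientGroup.mk' F).comp H.subtype) := by
    constructor
    · rw [injective_iff_map_eq_one]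
      rintro ⟨h, hh⟩ h1
      have h2 : h ∈ F := (QuotientGroup.eq_one_iff h).1 h1
      exact Subtype.ext (hb h hh h2)
    · intro q
      induction q using QuotientGroup.induction_on with
      | H g =>
        obtain ⟨f, hf, h, hh, rfl⟩ := gen g
        refine ⟨⟨h, hh⟩, ?_⟩
        change (QuotientGroup.mk h : G ⧸ F) = QuotientGroup.mk (f * h)
        rw [QuotientGroup.eq]
        have := hF.conj_mem f hf h⁻¹
        simpa [mul_assoc] using this
  let ee : H ≃* G ⧸ F := MulEquiv.ofBijective _ hbij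
  refine ⟨⊤, inferInstance, le_top,
    (H.subtype.comp (ee.symm.toMonoidHom.comp (QuotientGroup.mk' F))).comp (Subgroup.subtype ⊤),
    ?_, ?_⟩
  · intro k
    exact (ee.symm (QuotientGroup.mk' F k)).2
  · intro h hk hh
    change ((ee.symm (QuotientGroup.mk' F h) : H) : G) = h
    have : QuotientGroup.mk' F h = ee ⟨h, hh⟩ := rfl
    rw [this, MulEquiv.symm_apply_apply]

theorem LRp_main {G X : Type} [Group G] [DecidableEq X] {F H : Subgroup G} (hF : F.Normal)
    (hfi : F.FiniteIndex) (e : F ≃* FreeGroup X) (hH : H.FG)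
    (gen : ∀ g : G, ∃ f ∈ F, ∃ h ∈ H, g = f * h) : LRp G H := by
  classical
  by_cases hb : ∀ l ∈ H, l ∈ F → l = 1
  · exact LRp_bot hF gen hb
  push Not at hb
  obtain ⟨l0, hl1, hl2, hl3⟩ := hb
  -- finitely many letters
  have hHfg : Group.FG H := (Group.fg_iff_subgroup_fg H).2 hH
  have hLfg : (F.subgroupOf H).FG :=
    (Group.fg_iff_subgroup_fg _).1 (Subgroup.fg_of_index_ne_zero _)
  obtain ⟨s, hs⟩ := hLfg
  let X0 : Set X := ⋃ l ∈ s, lt e ((l : H) : G)
  have hX0 : X0.Finite := s.finite_toSet.biUnion (fun l _ => lt_finite e _)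
  have hsF : ∀ l ∈ s, ((l : H) : G) ∈ F := by
    intro l hl
    have : l ∈ F.subgroupOf H := by
      rw [← hs]
      exact Subgroup.subset_closure hl
    exact this
  have st : Setup F H e X0 := by
    refine ⟨hF, hfi, gen, ⟨l0, hl1, hl2, hl3⟩, ?_⟩
    intro l hlH hlF
    have h1 : (⟨l, hlH⟩ : H) ∈ Subgroup.closure (s : Set H) := by
      rw [hs]
      exact hlF
    have key : ∀ x ∈ Subgroup.closure (s : Set H), (x : G) ∈ AF F e.toMonoidHom X0 := by
      intro x hx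
      induction hx using Subgroup.closure_induction with
      | mem x hx =>
        rw [mem_AF_lt (hsF x hx)]
        exact Set.subset_biUnion_of_mem (u := fun l : H => lt e (l : G)) hx
      | one => exact Subgroup.one_mem _
      | mul a b _ _ ha hb => exact Subgroup.mul_mem _ ha hb
      | inv a _ ha => exact Subgroup.inv_mem _ ha
    exact key _ h1
  -- the finitely generated part
  obtain ⟨Gh, hGh⟩ : ∃ Gh, Gh = H ⊔ Subgroup.closure (gx e '' X0) := ⟨_, rfl⟩
  have hGhfg : Group.FG Gh := by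
    rw [Group.fg_iff_subgroup_fg, hGh]
    exact hH.sup ((Subgroup.fg_iff _).2 ⟨gx e '' X0, rfl, hX0.image _⟩)
  have hHGh : H ≤ Gh := hGh ▸ le_sup_left
  have hVGh : VF F H e.toMonoidHom X0 ≤ Gh := by
    rintro g ⟨h, hh, hb⟩
    have h1 : h⁻¹ * g ∈ Gh := by
      rw [hGh]
      exact (le_sup_right : _ ≤ H ⊔ Subgroup.closure (gx e '' X0))
        (AF_closure e X0 (BF_le hb))
    have := Gh.mul_mem (hHGh hh) h1
    rwa [mul_inv_cancel_left] at this
  have hfinQ : Finite (G ⧸ F) := Subgroup.finite_quotient_of_finiteIndex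
  let θ : Gh →* G ⧸ F := (QuotientGroup.mk' F).comp Gh.subtype
  have hker : ∀ x : θ.ker, (((x : Gh)) : G) ∈ F := by
    rintro ⟨x, hx⟩
    exact (QuotientGroup.eq_one_iff (x : G)).1 hx
  let j : θ.ker →* FreeGroup X := e.toMonoidHom.comp
    (MonoidHom.mk' (fun x => (⟨((x : Gh) : G), hker x⟩ : F)) (fun a b => rfl))
  have hj : Function.Injective j := by
    intro a b hab
    have h1 := e.injective hab
    have h2 : (((a : Gh)) : G) = ((b : Gh) : G) := congrArg (fun x : F => (x : G)) h1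
    exact Subtype.ext (Subtype.ext h2)
  obtain ⟨W, _, Ψ0, φ, W0, hW0, r, hr, htyp⟩ := compl (G := Gh) (H := H) hGhfg hHfg θ j hj
    (Subgroup.inclusion hHGh) (Subgroup.inclusion_injective hHGh)
  let Ψ : G →* W := Ψ0.comp (QuotientGroup.mk' F)
  let φ1 : VF F H e.toMonoidHom X0 →* W := φ.comp (Subgroup.inclusion hVGh)
  have hgood : Good F Ψ (graphOf φ1) := by
    apply good_graphOf
    intro C hC hCV
    obtain ⟨w, hw⟩ := htyp (C.subgroupOf Gh) (by
      rw [eq_bot_iff]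
      rintro x ⟨hx1, hx2⟩
      have : (x : G) ∈ C ⊓ F := ⟨hx1, hker ⟨x, hx2⟩⟩
      rw [hC, Subgroup.mem_bot] at this
      exact Subtype.ext this)
    exact ⟨w, fun c hc => hw ⟨c, hVGh (hCV hc)⟩ hc⟩
  obtain ⟨Φ, hΦ⟩ := st.ext_all hX0 hgood (dom_graphOf φ1)
  have hΦH : ∀ h : H, Φ h = φ (Subgroup.inclusion hHGh h) := by
    intro h
    have := hΦ ((h : G), φ1 ⟨h, H_le_VF h.2⟩) (mem_graphOf.2 ⟨H_le_VF h.2, rfl⟩)
    exact this
  have hcomap : (W0.comap Φ).FiniteIndex := by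
    constructor
    rw [Subgroup.index_comap]
    exact (inferInstance : (W0.subgroupOf Φ.range).FiniteIndex).index_ne_zero
  refine ⟨W0.comap Φ, hcomap, ?_, H.subtype.comp (r.comp (Φ.subgroupComap W0)), ?_, ?_⟩
  · intro h hh
    obtain ⟨hm, -⟩ := hr ⟨h, hh⟩
    rw [Subgroup.mem_comap]
    have := hΦH ⟨h, hh⟩
    rw [← this] at hm
    exact hm
  · intro k
    exact (r (Φ.subgroupComap W0 k)).2
  · intro h hk hh
    obtain ⟨hm, h3⟩ := hr ⟨h, hh⟩
    have h4 : Φ.subgroupComap W0 ⟨h, hk⟩ = ⟨_, hm⟩ := Subtype.ext (hΦH ⟨h, hh⟩)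
    change ((r (Φ.subgroupComap W0 ⟨h, hk⟩) : H) : G) = h
    rw [h4, h3]

theorem LRp_normal {G : Type} [Group G] {F H : Subgroup G} (hF : F.Normal)
    (hfi : F.FiniteIndex) (hfree : IsFreeGroup F) (hH : H.FG) : LRp G H := by
  classical
  have hG2 : (F ⊔ H).FiniteIndex := by
    exact Subgroup.finiteIndex_of_le (le_sup_left : F ≤ F ⊔ H)
  apply LRp_of_fi (F ⊔ H) hG2 le_sup_right
  have hnor : (F.subgroupOf (F ⊔ H)).Normal := inferInstance
  have hfi2 : (F.subgroupOf (F ⊔ H)).FiniteIndex := inferInstance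
  let e0 : F.subgroupOf (F ⊔ H) ≃* F := Subgroup.subgroupOfEquivOfLe le_sup_left
  let e : F.subgroupOf (F ⊔ H) ≃* FreeGroup (IsFreeGroup.Generators F) :=
    e0.trans (IsFreeGroup.toFreeGroup F)
  refine LRp_main (H := H.subgroupOf (F ⊔ H)) hnor hfi2 e ?_ ?_
  · have hHfg : Group.FG H := (Group.fg_iff_subgroup_fg H).2 hH
    rw [← Group.fg_iff_subgroup_fg]
    let e1 : H.subgroupOf (F ⊔ H) ≃* H := Subgroup.subgroupOfEquivOfLe le_sup_right
    exact Group.fg_of_surjective (f := e1.symm.toMonoidHom) e1.symm.surjective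
  · rintro ⟨g, hg⟩
    have hg' := hg
    rw [← SetLike.mem_coe, Subgroup.normal_mul] at hg'
    obtain ⟨f, hf, h, hh, hfh⟩ := hg'
    exact ⟨⟨f, (le_sup_left : F ≤ F ⊔ H) hf⟩, hf, ⟨h, (le_sup_right : H ≤ F ⊔ H) hh⟩, hh,
      Subtype.ext hfh.symm⟩

theorem LR_all (G : Type) [Group G] (hG : ∃ F : Subgroup G, F.FiniteIndex ∧ IsFreeGroup F)
    (H : Subgroup G) (hH : H.FG) : LRp G H := by
  obtain ⟨F, hfi, hfree⟩ := hG
  have hle : F.normalCore ≤ F := F.normalCore_le
  have h1 : IsFreeGroup (F.normalCore.subgroupOf F) := subgroupIsFreeOfIsFree _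
  have h2 : IsFreeGroup F.normalCore :=
    IsFreeGroup.ofMulEquiv (Subgroup.subgroupOfEquivOfLe hle)
  exact LRp_normal (F := F.normalCore) inferInstance inferInstance h2 hH

end Pool.Agent.U843.LR
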