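import Pool.Agent.U843.LR.Gs

set_option autoImplicit false

/-!
# Finitely generated virtually free groups act on trees with finite stabilisers
-/

namespace Pool.Agent.U843.LR

open SimpleGraph Pointwise

variable {G α : Type} [Group G] [DecidableEq α]

/-- the Cayley graph -/
def cayG (S : Set G) : SimpleGraph G where
  Adj x y := x ≠ y ∧ ∃ s ∈ S, y = x * s ∨ x = y * s
  symm := ⟨fun x y h => ⟨h.1.symm, by
    obtain ⟨s, hs, h2⟩ := h.2
    exact ⟨s, hs, h2.symm⟩⟩⟩
  loopless := ⟨fun x h => h.1 rfl⟩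

theorem cayG_conn {S : Set G} (hS : Subgroup.closure S = ⊤) : (cayG S).Preconnected := by
  have key : ∀ g ∈ Subgroup.closure S, ∀ x, (cayG S).Reachable x (x * g) := by
    intro g hg
    induction hg using Subgroup.closure_induction with
    | mem s hs =>
      intro x
      by_cases h : x = x * s
      · rw [← h]
      · exact Adj.reachable ⟨h, s, hs, Or.inl rfl⟩
    | one => intro x; rw [mul_one]
    | mul a b _ _ ha hb =>
      intro x
      rw [← mul_assoc]
      exact (ha x).trans (hb _)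
    | inv a _ ha =>
      intro x
      have := (ha (x * a⁻¹)).symm
      rwa [inv_mul_cancel_right] at this
  intro x y
  have := key (x⁻¹ * y) (by rw [hS]; trivial) x
  rwa [mul_inv_cancel_left] at this

theorem abs_tree (hG : Group.FG G) (F : Subgroup G) (hF : F.Normal)
    (hfi : F.FiniteIndex) (j : F →* FreeGroup α) (hj : Function.Injective j) :
    ∃ t : GTree G F, ∀ p : t.N, ∀ f ∈ F, f • p = p → f = 1 := by
  obtain ⟨S, hS, hSf⟩ := Group.fg_iff.1 hG
  let T : G → G := fun g => (QuotientGroup.mk g : G ⧸ F).out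
  have hT : ∀ g, g * (T g)⁻¹ ∈ F := by
    intro g
    have : (QuotientGroup.mk (T g) : G ⧸ F) = QuotientGroup.mk g := Quotient.out_eq' _
    rw [← div_eq_mul_inv]
    exact QuotientGroup.eq_iff_div_mem.1 this.symm
  have hT2 : ∀ (f : F) g, T ((f : G) * g) = T g := by
    intro f g
    have : (QuotientGroup.mk ((f : G) * g) : G ⧸ F) = QuotientGroup.mk g := by
      rw [QuotientGroup.eq_iff_div_mem]
      simp
    simp only [T, this]
  let κ : G → FreeGroup α := fun g => j ⟨g * (T g)⁻¹, hT g⟩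
  have hκ : ∀ (f : F) g, κ ((f : G) * g) = j f * κ g := by
    intro f g
    simp only [κ]
    rw [← _root_.map_mul]
    congr 1
    apply Subtype.ext
    simp only [hT2, Subgroup.coe_mul]
    rw [mul_assoc]
  have hcay : Cay (cayG S) F j (∅ : Set α) κ := by
    refine ⟨⟨cayG_conn hS, ?_, hF, tf_of_inj hj, ?_⟩, hj, ?_, ?_⟩
    · rintro g x y ⟨h1, s, hs, h2⟩
      refine ⟨fun h => h1 (mul_left_cancel h), s, hs, ?_⟩
      rcases h2 with h2 | h2
      · left
        rw [h2, smul_eq_mul, smul_eq_mul, mul_assoc]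
      · right
        rw [h2, smul_eq_mul, smul_eq_mul, mul_assoc]
    · intro f _ x _ _ h _
      exact mul_eq_right.1 h
    · intro f g
      rw [smul_eq_mul, hκ, inv_mul_cancel]
      exact (cl ∅).one_mem
    · have hfin : Finite (G ⧸ F) := Subgroup.finite_quotient_of_finiteIndex
      let R : Set G := Set.range (fun q : G ⧸ F => q.out)
      have hR : R.Finite := Set.finite_range _
      refine ⟨(Set.image2 (fun t s => (t, t * s)) R S) ∪ (Set.image2 (fun t s => (t * s, t)) R S),
        (hR.image2 _ hSf).union (hR.image2 _ hSf), ?_⟩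
      rintro x y ⟨-, s, hs, h⟩
      rcases h with rfl | rfl
      · refine ⟨⟨x * (T x)⁻¹, hT x⟩, (T x, T x * s), Or.inl ⟨T x, ⟨_, rfl⟩, s, hs, rfl⟩, ?_, ?_⟩
        · simp
        · simp
      · refine ⟨⟨y * (T y)⁻¹, hT y⟩, (T y * s, T y), Or.inr ⟨T y, ⟨_, rfl⟩, s, hs, rfl⟩, ?_, ?_⟩
        · simp
        · simp
  obtain ⟨K, hK⟩ := hcay.test
  have hE := EE_fam hcay.ctx K
  refine ⟨treeOf hE 1, ?_⟩
  intro p f hf hfp
  by_contra h1
  have h2 : j ⟨f, hf⟩ ≠ 1 := by
    intro h
    rw [← _root_.map_one j] at h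
    exact h1 (congrArg Subtype.val (hj h))
  obtain ⟨u, c, l, h3, h4⟩ := exists_CR h2
  have h5 := hK ⟨f, hf⟩ u c l (by simp) h3 h4
  obtain ⟨A, hA, hs⟩ := EE_spl h5
  exact fix_not_spl hE hf hfp hA hs

end Pool.Agent.U843.LR
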