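import Pool.Agent.U843.LR.Good

set_option autoImplicit false
set_option linter.unusedSectionVars false

/-!
# The chain of subgroups for infinite rank
-/

namespace Pool.Agent.U843.LR

open FreeGroup

variable {G W X : Type} [Group G] [Group W] [DecidableEq X]

/-- the elements of `F` which are words in `Y` -/
def AF (F : Subgroup G) (e : F →* FreeGroup X) (Y : Set X) : Subgroup G :=
  ((cl Y).comap e).map F.subtype

theorem mem_AF {F : Subgroup G} {e : F →* FreeGroup X} {Y : Set X} {g : G} :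
    g ∈ AF F e Y ↔ ∃ hg : g ∈ F, e ⟨g, hg⟩ ∈ cl Y := by
  constructor
  · rintro ⟨x, hx, rfl⟩
    exact ⟨x.2, hx⟩
  · rintro ⟨hg, h⟩
    exact ⟨⟨g, hg⟩, h, rfl⟩

theorem AF_le {F : Subgroup G} {e : F →* FreeGroup X} {Y : Set X} : AF F e Y ≤ F :=
  fun _ h => (mem_AF.1 h).1

theorem cl_mono {Y Y' : Set X} (h : Y ⊆ Y') : cl Y ≤ cl Y' :=
  Subgroup.closure_mono (Set.image_mono h)

theorem AF_mono {F : Subgroup G} {e : F →* FreeGroup X} {Y Y' : Set X} (h : Y ⊆ Y') :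
    AF F e Y ≤ AF F e Y' := by
  intro g hg
  obtain ⟨h1, h2⟩ := mem_AF.1 hg
  exact mem_AF.2 ⟨h1, cl_mono h h2⟩

/-- the part normalised by `H` -/
def BF (F H : Subgroup G) (e : F →* FreeGroup X) (Y : Set X) : Subgroup G where
  carrier := {g | ∀ h ∈ H, h⁻¹ * g * h ∈ AF F e Y}
  mul_mem' := by
    intro a b ha hb h hh
    have := (AF F e Y).mul_mem (ha h hh) (hb h hh)
    have e1 : h⁻¹ * (a * b) * h = h⁻¹ * a * h * (h⁻¹ * b * h) := by group
    rwa [e1]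
  one_mem' := by
    intro h _
    simp [(AF F e Y).one_mem]
  inv_mem' := by
    intro a ha h hh
    have := (AF F e Y).inv_mem (ha h hh)
    have e1 : h⁻¹ * a⁻¹ * h = (h⁻¹ * a * h)⁻¹ := by group
    rwa [e1]

theorem mem_BF {F H : Subgroup G} {e : F →* FreeGroup X} {Y : Set X} {g : G} :
    g ∈ BF F H e Y ↔ ∀ h ∈ H, h⁻¹ * g * h ∈ AF F e Y := Iff.rfl

theorem BF_le {F H : Subgroup G} {e : F →* FreeGroup X} {Y : Set X} :
    BF F H e Y ≤ AF F e Y := by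
  intro g hg
  have := mem_BF.1 hg 1 H.one_mem
  simpa using this

theorem BF_mono {F H : Subgroup G} {e : F →* FreeGroup X} {Y Y' : Set X} (h : Y ⊆ Y') :
    BF F H e Y ≤ BF F H e Y' := fun _ hg k hk => AF_mono h (hg k hk)

theorem BF_conj {F H : Subgroup G} {e : F →* FreeGroup X} {Y : Set X} {g k : G}
    (hg : g ∈ BF F H e Y) (hk : k ∈ H) : k⁻¹ * g * k ∈ BF F H e Y := by
  intro h hh
  have := hg (k * h) (H.mul_mem hk hh)
  have e1 : h⁻¹ * (k⁻¹ * g * k) * h = (k * h)⁻¹ * g * (k * h) := by group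
  rwa [e1]

theorem BF_conj' {F H : Subgroup G} {e : F →* FreeGroup X} {Y : Set X} {g k : G}
    (hg : g ∈ BF F H e Y) (hk : k ∈ H) : k * g * k⁻¹ ∈ BF F H e Y := by
  have := BF_conj hg (H.inv_mem hk)
  simpa using this

/-- `H` times its normalised part -/
def VF (F H : Subgroup G) (e : F →* FreeGroup X) (Y : Set X) : Subgroup G where
  carrier := {g | ∃ h ∈ H, h⁻¹ * g ∈ BF F H e Y}
  mul_mem' := by
    rintro a b ⟨h, hh, ha⟩ ⟨k, hk, hb⟩
    refine ⟨h * k, H.mul_mem hh hk, ?_⟩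
    have := (BF F H e Y).mul_mem (BF_conj ha hk) hb
    have e1 : (h * k)⁻¹ * (a * b) = k⁻¹ * (h⁻¹ * a) * k * (k⁻¹ * b) := by group
    rwa [e1]
  one_mem' := ⟨1, H.one_mem, by simp [(BF F H e Y).one_mem]⟩
  inv_mem' := by
    rintro a ⟨h, hh, ha⟩
    refine ⟨h⁻¹, H.inv_mem hh, ?_⟩
    have := BF_conj' ((BF F H e Y).inv_mem ha) hh
    have e1 : h⁻¹⁻¹ * a⁻¹ = h * (h⁻¹ * a)⁻¹ * h⁻¹ := by group
    rwa [e1]

theorem mem_VF {F H : Subgroup G} {e : F →* FreeGroup X} {Y : Set X} {g : G} :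
    g ∈ VF F H e Y ↔ ∃ h ∈ H, h⁻¹ * g ∈ BF F H e Y := Iff.rfl

theorem VF_mono {F H : Subgroup G} {e : F →* FreeGroup X} {Y Y' : Set X} (h : Y ⊆ Y') :
    VF F H e Y ≤ VF F H e Y' := by
  rintro g ⟨k, hk, hg⟩
  exact ⟨k, hk, BF_mono h hg⟩

theorem H_le_VF {F H : Subgroup G} {e : F →* FreeGroup X} {Y : Set X} : H ≤ VF F H e Y :=
  fun h hh => ⟨h, hh, by simp [(BF F H e Y).one_mem]⟩

theorem BF_le_VF {F H : Subgroup G} {e : F →* FreeGroup X} {Y : Set X} :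
    BF F H e Y ≤ VF F H e Y :=
  fun b hb => ⟨1, H.one_mem, by simpa using hb⟩

/-- the standing assumptions -/
structure Setup (F H : Subgroup G) (e : F ≃* FreeGroup X) (X0 : Set X) : Prop where
  nor : F.Normal
  fi : F.FiniteIndex
  gen : ∀ g : G, ∃ f ∈ F, ∃ h ∈ H, g = f * h
  ne : ∃ l ∈ H, l ∈ F ∧ l ≠ 1
  low : ∀ l ∈ H, l ∈ F → l ∈ AF F e.toMonoidHom X0

theorem exists_reps {F : Subgroup G} (H : Subgroup G) (hF : F.FiniteIndex) :
    ∃ T : Set G, T.Finite ∧ T ⊆ H ∧ ∀ h ∈ H, ∃ t ∈ T, t⁻¹ * h ∈ F := by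
  classical
  have : Finite (G ⧸ F) := Subgroup.finite_quotient_of_finiteIndex
  have : ∀ c : G ⧸ F, ∃ t ∈ H, (∃ h ∈ H, (QuotientGroup.mk h : G ⧸ F) = c) →
      (QuotientGroup.mk t : G ⧸ F) = c := by
    intro c
    by_cases h : ∃ h ∈ H, (QuotientGroup.mk h : G ⧸ F) = c
    · obtain ⟨t, ht, h2⟩ := h
      exact ⟨t, ht, fun _ => h2⟩
    · exact ⟨1, H.one_mem, fun h' => absurd h' h⟩
  choose t ht1 ht2 using this
  refine ⟨Set.range t, Set.finite_range t, ?_, ?_⟩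
  · rintro _ ⟨c, rfl⟩
    exact ht1 c
  · intro h hh
    refine ⟨_, ⟨QuotientGroup.mk h, rfl⟩, ?_⟩
    exact QuotientGroup.eq.1 (ht2 (QuotientGroup.mk h) ⟨h, hh, rfl⟩)

section

variable {F H : Subgroup G} {e : F ≃* FreeGroup X} {X0 : Set X}

theorem Setup.low' (st : Setup F H e X0) {Y : Set X} (hY : X0 ⊆ Y) {l : G} (h1 : l ∈ H)
    (h2 : l ∈ F) : l ∈ BF F H e.toMonoidHom Y := by
  intro h hh
  apply AF_mono hY
  apply st.low _ (H.mul_mem (H.mul_mem (H.inv_mem hh) h1) hh)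
  have := st.nor.conj_mem l h2 h⁻¹
  simpa using this

theorem Setup.VF_F (st : Setup F H e X0) {Y : Set X} (hY : X0 ⊆ Y) {g : G}
    (h1 : g ∈ VF F H e.toMonoidHom Y) (h2 : g ∈ F) : g ∈ BF F H e.toMonoidHom Y := by
  obtain ⟨h, hh, hb⟩ := h1
  have h3 : h⁻¹ * g ∈ F := AF_le (BF_le hb)
  have h4 : h ∈ F := by
    have := F.mul_mem h2 (F.inv_mem h3)
    have e1 : g * (h⁻¹ * g)⁻¹ = h := by group
    rwa [e1] at this
  have := (BF F H e.toMonoidHom Y).mul_mem (st.low' hY hh h4) hb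
  rwa [mul_inv_cancel_left] at this

/-- the tree for one step -/
theorem Setup.tree (st : Setup F H e X0) {Y : Set X} (hY : X0 ⊆ Y) {S : Set G} (hSf : S.Finite)
    (hSF : S ⊆ F) (Gh : Subgroup G)
    (hGh : Gh = Subgroup.closure ((VF F H e.toMonoidHom Y : Set G) ∪ S)) :
    ∃ (t : GTree Gh (F.subgroupOf Gh)) (p0 : t.N),
      ∀ g : Gh, g • p0 = p0 ↔ (g : G) ∈ VF F H e.toMonoidHom Y := by
  have hV : VF F H e.toMonoidHom Y ≤ Gh := by
    rw [hGh]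
    exact fun x hx => Subgroup.subset_closure (Or.inl hx)
  have hH : H ≤ Gh := H_le_VF.trans hV
  let j : F.subgroupOf Gh →* FreeGroup X := e.toMonoidHom.comp
    (MonoidHom.mk' (fun x => (⟨((x : Gh) : G), x.2⟩ : F)) (fun a b => rfl))
  have hj : Function.Injective j := by
    intro a b hab
    have h1 := e.injective hab
    have h2 : (((a : Gh)) : G) = ((b : Gh) : G) := congrArg (fun x : F => (x : G)) h1
    exact Subtype.ext (Subtype.ext h2)
  obtain ⟨T, hTf, hTH, hT⟩ := exists_reps H st.fi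
  have hnor : (F.subgroupOf Gh).Normal := by
    have := st.nor
    infer_instance
  have := rel_tree (G := Gh) (F.subgroupOf Gh) hnor j hj Y
    ((VF F H e.toMonoidHom Y).subgroupOf Gh) (((↑) : Gh → G) ⁻¹' S)
    (hSf.preimage Subtype.val_injective.injOn)
    (fun x hx => hSF hx)
    (by
      have h1 := Subgroup.closure_closure_coe_preimage
        (k := (VF F H e.toMonoidHom Y : Set G) ∪ S)
      subst hGh
      convert h1 using 1
      rw [Set.preimage_union]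
      rfl)
    (by
      intro g
      obtain ⟨f, hf, h, hh, hg⟩ := st.gen g
      have hhG : h ∈ Gh := hH hh
      have hfG : f ∈ Gh := by
        have : f = g * h⁻¹ := by rw [hg]; group
        rw [this]
        exact Gh.mul_mem g.2 (Gh.inv_mem hhG)
      exact ⟨⟨f, hfG⟩, hf, ⟨h, hhG⟩, H_le_VF hh, Subtype.ext hg⟩)
    (by
      rintro ⟨⟨f, hfG⟩, hf⟩
      have hf' : f ∈ F := hf
      constructor
      · intro hfV v hv
        have h1 : v⁻¹ * ⟨f, hfG⟩ * v ∈ (VF F H e.toMonoidHom Y).subgroupOf Gh :=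
          Subgroup.mul_mem _ (Subgroup.mul_mem _ (Subgroup.inv_mem _ hv) hfV) hv
        have h2 : v⁻¹ * ⟨f, hfG⟩ * v ∈ F.subgroupOf Gh := by
          simpa using hnor.conj_mem ⟨f, hfG⟩ hf v⁻¹
        have h3 := BF_le (st.VF_F hY h1 h2)
        exact (mem_AF.1 h3).2
      · intro h
        apply BF_le_VF
        intro k hk
        have := h ⟨k, hH hk⟩ (H_le_VF hk)
        exact mem_AF.2 ⟨_, this⟩)
    (by
      obtain ⟨l, h1, h2, h3⟩ := st.ne
      refine ⟨⟨⟨l, hH h1⟩, h2⟩, H_le_VF h1, ?_⟩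
      intro h4
      apply h3
      exact congrArg (fun x : F.subgroupOf Gh => ((x : Gh) : G)) h4)
    (by
      refine ⟨((↑) : Gh → G) ⁻¹' T, hTf.preimage Subtype.val_injective.injOn,
        fun x hx => H_le_VF (hTH hx), ?_⟩
      rintro ⟨v, hvG⟩ ⟨h, hh, hb⟩
      obtain ⟨t, ht, h5⟩ := hT h hh
      refine ⟨⟨t, hH (hTH ht)⟩, ht, ?_⟩
      change v * t⁻¹ ∈ F
      have h6 : t⁻¹ * v ∈ F := by
        have := F.mul_mem h5 (AF_le (BF_le hb))
        have e1 : t⁻¹ * h * (h⁻¹ * v) = t⁻¹ * v := by group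
        exact e1 ▸ this
      have h7 := st.nor.conj_mem _ h6 t
      have e2 : t * (t⁻¹ * v) * t⁻¹ = v * t⁻¹ := by group
      rwa [e2] at h7)
  obtain ⟨t, p0, h⟩ := this
  exact ⟨t, p0, h⟩

/-- one step -/
theorem Setup.step (st : Setup F H e X0) {Y : Set X} (hY : X0 ⊆ Y) {S : Set G} (hSf : S.Finite)
    (hSF : S ⊆ F) {V' : Subgroup G} (h1 : VF F H e.toMonoidHom Y ≤ V')
    (h2 : V' ≤ Subgroup.closure ((VF F H e.toMonoidHom Y : Set G) ∪ S))
    {Ψ : G →* W} {Γ : Subgroup (G × W)} (hΓ : Good F Ψ Γ)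
    (hd : Dom Γ (VF F H e.toMonoidHom Y)) :
    ∃ Γ' : Subgroup (G × W), Γ ≤ Γ' ∧ Good F Ψ Γ' ∧ Dom Γ' V' := by
  obtain ⟨Gh, hGh⟩ : ∃ Gh, Gh = Subgroup.closure ((VF F H e.toMonoidHom Y : Set G) ∪ S) :=
    ⟨_, rfl⟩
  rw [← hGh] at h2
  obtain ⟨t, p0, ht⟩ := st.tree hY hSf hSF Gh hGh
  obtain ⟨φ, hφ⟩ := hΓ.hom hd
  have hnor : (F.subgroupOf Gh).Normal := by
    have := st.nor
    infer_instance
  have hfi : (F.subgroupOf Gh).FiniteIndex := by
    have := st.fi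
    infer_instance
  have hVGh : VF F H e.toMonoidHom Y ≤ Gh := h1.trans h2
  let φ1 : (VF F H e.toMonoidHom Y).subgroupOf Gh →* W := φ.comp
    (MonoidHom.mk' (fun x => (⟨((x : Gh) : G), x.2⟩ : VF F H e.toMonoidHom Y)) (fun a b => rfl))
  have key : ∀ C : Subgroup Gh, C ⊓ F.subgroupOf Gh = ⊥ → (C.map Gh.subtype) ⊓ F = ⊥ := by
    intro C hC
    rw [eq_bot_iff]
    rintro _ ⟨⟨x, hx, rfl⟩, hf⟩
    have : x ∈ C ⊓ F.subgroupOf Gh := ⟨hx, hf⟩
    rw [hC, Subgroup.mem_bot] at this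
    rw [this]
    simp
  obtain ⟨φ', h3, h4⟩ := ext_hom (G := Gh) (W := W) (F.subgroupOf Gh) hnor hfi t p0
    ((VF F H e.toMonoidHom Y).subgroupOf Gh) ht (Ψ.comp Gh.subtype) φ1 (by
      intro C hC hCV
      obtain ⟨w, hw⟩ := hΓ.2 (C.map Gh.subtype) (key C hC) (by
        rintro _ ⟨x, hx, rfl⟩
        exact (hd _).2 (hCV hx))
      refine ⟨w, fun c hc => ?_⟩
      exact hΓ.uniq (hφ ⟨(c : G), hCV hc⟩) (hw c ⟨c, hc, rfl⟩))
  refine ⟨graphOf (φ'.comp (Subgroup.inclusion h2)), ?_, good_graphOf ?_, dom_graphOf _⟩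
  · rintro ⟨g, w⟩ hg
    rw [mem_graphOf]
    have hgV : g ∈ VF F H e.toMonoidHom Y := (hd g).1 ⟨w, hg⟩
    refine ⟨h1 hgV, ?_⟩
    have h5 := h3 ⟨⟨g, hVGh hgV⟩, hgV⟩
    exact h5.trans (hΓ.uniq (hφ ⟨g, hgV⟩) hg)
  · intro C hC hCV
    have h6 : (C.subgroupOf Gh) ⊓ F.subgroupOf Gh = ⊥ := by
      rw [eq_bot_iff]
      rintro x ⟨hx1, hx2⟩
      have : (x : G) ∈ C ⊓ F := ⟨hx1, hx2⟩
      rw [hC, Subgroup.mem_bot] at this
      exact Subtype.ext this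
    obtain ⟨w, hw⟩ := h4 _ h6
    exact ⟨w, fun c hc => hw ⟨c, h2 (hCV hc)⟩ hc⟩

end

end Pool.Agent.U843.LR
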