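import Pool.Agent.U843.LR.Chain

set_option autoImplicit false
set_option linter.unusedSectionVars false

/-!
# The chain of subgroups for infinite rank, II
-/

namespace Pool.Agent.U843.LR

open FreeGroup

variable {G W X : Type} [Group G] [Group W] [DecidableEq X]

/-- the letters of a word -/
def ltr (z : FreeGroup X) : Set X := {x | ∃ p ∈ z.toWord, p.1 = x}

theorem ltr_finite (z : FreeGroup X) : (ltr z).Finite := by
  apply ((z.toWord.map Prod.fst).toFinset.finite_toSet).subset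
  rintro x ⟨p, hp, rfl⟩
  simp only [List.coe_toFinset, Set.mem_ofPred_eq, List.mem_map]
  exact ⟨p, hp, rfl⟩

theorem mem_cl_ltr {Y : Set X} {z : FreeGroup X} : z ∈ cl Y ↔ ltr z ⊆ Y := by
  rw [mem_cl_iff]
  constructor
  · rintro h _ ⟨p, hp, rfl⟩
    exact h p hp
  · intro h p hp
    exact h ⟨p, hp, rfl⟩

section

variable {F H : Subgroup G} {X0 : Set X}

/-- the letters of an element of `F` -/
def lt (e : F ≃* FreeGroup X) (g : G) : Set X := {x | ∃ hg : g ∈ F, x ∈ ltr (e ⟨g, hg⟩)}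

theorem lt_finite (e : F ≃* FreeGroup X) (g : G) : (lt e g).Finite := by
  by_cases hg : g ∈ F
  · apply (ltr_finite (e ⟨g, hg⟩)).subset
    rintro x ⟨h, hx⟩
    exact hx
  · convert Set.finite_empty
    ext x
    simp [lt, hg]

theorem mem_AF_lt {e : F ≃* FreeGroup X} {Y : Set X} {g : G} (hg : g ∈ F) :
    g ∈ AF F e.toMonoidHom Y ↔ lt e g ⊆ Y := by
  rw [mem_AF]
  constructor
  · rintro ⟨h1, h2⟩ x ⟨h3, h4⟩
    exact mem_cl_ltr.1 h2 h4
  · intro h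
    refine ⟨hg, mem_cl_ltr.2 (fun x hx => h ⟨hg, hx⟩)⟩

/-- the basis elements -/
def gx (e : F ≃* FreeGroup X) (x : X) : G := (e.symm (of x) : G)

theorem gx_mem_F (e : F ≃* FreeGroup X) (x : X) : gx e x ∈ F := (e.symm (of x)).2

theorem gx_mem (e : F ≃* FreeGroup X) {Y : Set X} {x : X} (hx : x ∈ Y) :
    gx e x ∈ AF F e.toMonoidHom Y := by
  rw [mem_AF]
  refine ⟨gx_mem_F e x, ?_⟩
  have : (⟨gx e x, gx_mem_F e x⟩ : F) = e.symm (of x) := rfl
  rw [this]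
  simp only [MulEquiv.toMonoidHom_eq_coe, MonoidHom.coe_coe, MulEquiv.apply_symm_apply]
  exact Subgroup.subset_closure ⟨x, hx, rfl⟩

theorem AF_closure (e : F ≃* FreeGroup X) (Y : Set X) :
    AF F e.toMonoidHom Y ≤ Subgroup.closure (gx e '' Y) := by
  intro g hg
  obtain ⟨h1, h2⟩ := mem_AF.1 hg
  have key : ∀ z ∈ cl Y, (e.symm z : G) ∈ Subgroup.closure (gx e '' Y) := by
    intro z hz
    induction hz using Subgroup.closure_induction with
    | mem z hz =>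
      obtain ⟨x, hx, rfl⟩ := hz
      exact Subgroup.subset_closure ⟨x, hx, rfl⟩
    | one => simp [Subgroup.one_mem]
    | mul a b _ _ ha hb =>
      rw [_root_.map_mul]
      exact Subgroup.mul_mem _ ha hb
    | inv a _ ha =>
      rw [_root_.map_inv]
      exact Subgroup.inv_mem _ ha
  have := key _ h2
  simpa using this

theorem AF_univ (e : F ≃* FreeGroup X) : AF F e.toMonoidHom Set.univ = F := by
  apply le_antisymm AF_le
  intro g hg
  rw [mem_AF_lt hg]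
  exact Set.subset_univ _

/-- one finite extension -/
theorem Setup.fin {e : F ≃* FreeGroup X} (st : Setup F H e X0) {Y : Set X} (hY : X0 ⊆ Y)
    {P : Set X} (hP : P.Finite)
    (hS : ∃ S : Set G, S.Finite ∧ S ⊆ F ∧ AF F e.toMonoidHom Y ≤
      Subgroup.closure ((VF F H e.toMonoidHom Y : Set G) ∪ S))
    {Ψ : G →* W} {Γ : Subgroup (G × W)} (hΓ : Good F Ψ Γ)
    (hd : Dom Γ (VF F H e.toMonoidHom Y)) :
    ∃ Γ' : Subgroup (G × W), Γ ≤ Γ' ∧ Good F Ψ Γ' ∧ Dom Γ' (VF F H e.toMonoidHom (Y ∪ P)) ∧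
      ∃ S : Set G, S.Finite ∧ S ⊆ F ∧ AF F e.toMonoidHom (Y ∪ P) ≤
        Subgroup.closure ((VF F H e.toMonoidHom (Y ∪ P) : Set G) ∪ S) := by
  obtain ⟨S, hSf, hSF, hS⟩ := hS
  have hS'f : (S ∪ gx e '' P).Finite := hSf.union (hP.image _)
  have hS'F : S ∪ gx e '' P ⊆ F := by
    rintro x (hx | ⟨y, -, rfl⟩)
    · exact hSF hx
    · exact gx_mem_F e y
  have h1 : AF F e.toMonoidHom (Y ∪ P) ≤
      Subgroup.closure ((VF F H e.toMonoidHom Y : Set G) ∪ (S ∪ gx e '' P)) := by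
    refine (AF_closure e _).trans ?_
    rw [Subgroup.closure_le]
    rintro _ ⟨y, hy | hy, rfl⟩
    · apply (Subgroup.closure_mono ?_ : _ ≤ Subgroup.closure _) (hS (gx_mem e hy))
      exact Set.union_subset_union_right _ Set.subset_union_left
    · exact Subgroup.subset_closure (Or.inr (Or.inr ⟨y, hy, rfl⟩))
  have h2 : VF F H e.toMonoidHom (Y ∪ P) ≤
      Subgroup.closure ((VF F H e.toMonoidHom Y : Set G) ∪ (S ∪ gx e '' P)) := by
    rintro g ⟨h, hh, hb⟩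
    have h3 : h ∈ Subgroup.closure ((VF F H e.toMonoidHom Y : Set G) ∪ (S ∪ gx e '' P)) :=
      Subgroup.subset_closure (Or.inl (H_le_VF hh))
    have := Subgroup.mul_mem _ h3 (h1 (BF_le hb))
    rwa [mul_inv_cancel_left] at this
  obtain ⟨Γ', h3, h4, h5⟩ := st.step hY hS'f hS'F (VF_mono Set.subset_union_left) h2 hΓ hd
  refine ⟨Γ', h3, h4, h5, S ∪ gx e '' P, hS'f, hS'F, h1.trans ?_⟩
  apply Subgroup.closure_mono
  exact Set.union_subset_union_left _ (VF_mono Set.subset_union_left)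

theorem dir_fin {β : Type} {K : Set (Set β)} (hne : K.Nonempty) (hd : DirectedOn (· ⊆ ·) K)
    {s : Set β} (hs : s.Finite) (h : s ⊆ ⋃₀ K) : ∃ k ∈ K, s ⊆ k := by
  have h2 : ((hs.toFinset : Finset β) : Set β) ⊆ ⋃ i ∈ K, i := by
    rw [Set.Finite.coe_toFinset, ← Set.sUnion_eq_biUnion]
    exact h
  obtain ⟨k, hk, h3⟩ := DirectedOn.exists_mem_subset_of_finset_subset_biUnion
    (f := fun i : Set β => i) hne hd h2
  rw [Set.Finite.coe_toFinset] at h3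
  exact ⟨k, hk, h3⟩

theorem Setup.VF_sUnion {e : F ≃* FreeGroup X} (st : Setup F H e X0) {K : Set (Set X)}
    (hne : K.Nonempty) (hd : DirectedOn (· ⊆ ·) K) (hK : ∀ Y ∈ K, X0 ⊆ Y) {g : G} :
    g ∈ VF F H e.toMonoidHom (⋃₀ K) ↔ ∃ Y ∈ K, g ∈ VF F H e.toMonoidHom Y := by
  constructor
  · rintro ⟨h, hh, hb⟩
    obtain ⟨T, hTf, hTH, hT⟩ := exists_reps H st.fi
    obtain ⟨b, hbe⟩ : ∃ b, b = h⁻¹ * g := ⟨_, rfl⟩
    rw [← hbe] at hb
    have hbF : b ∈ F := AF_le (BF_le hb)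
    have hfin : (⋃ t ∈ T, lt e (t⁻¹ * b * t)).Finite :=
      hTf.biUnion (fun t _ => lt_finite e _)
    have hconj : ∀ k : G, k⁻¹ * b * k ∈ F := by
      intro k
      have := st.nor.conj_mem b hbF k⁻¹
      simpa using this
    have hsub : (⋃ t ∈ T, lt e (t⁻¹ * b * t)) ⊆ ⋃₀ K := by
      intro x hx
      simp only [Set.mem_iUnion] at hx
      obtain ⟨t, ht, hx⟩ := hx
      exact (mem_AF_lt (hconj t)).1 (hb t (hTH ht)) hx
    obtain ⟨Y, hY, h1⟩ := dir_fin hne hd hfin hsub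
    refine ⟨Y, hY, h, hh, ?_⟩
    rw [← hbe]
    intro k hk
    obtain ⟨t, ht, h2⟩ := hT k hk
    have h3 : t⁻¹ * k ∈ AF F e.toMonoidHom Y :=
      AF_mono (hK Y hY) (st.low _ (H.mul_mem (H.inv_mem (hTH ht)) hk) h2)
    have h4 : t⁻¹ * b * t ∈ AF F e.toMonoidHom Y := by
      rw [mem_AF_lt (hconj t)]
      intro x hx
      exact h1 (Set.mem_biUnion ht hx)
    have h5 := (AF F e.toMonoidHom Y).mul_mem
      ((AF F e.toMonoidHom Y).mul_mem ((AF F e.toMonoidHom Y).inv_mem h3) h4) h3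
    have e1 : (t⁻¹ * k)⁻¹ * (t⁻¹ * b * t) * (t⁻¹ * k) = k⁻¹ * b * k := by group
    rwa [e1] at h5
  · rintro ⟨Y, hY, h⟩
    exact VF_mono (Set.subset_sUnion_of_mem hY) h

/-- the neighbours of a letter -/
def NN (e : F ≃* FreeGroup X) (T : Set G) (x : X) : Set X := ⋃ t ∈ T, lt e (t⁻¹ * gx e x * t)

theorem NN_finite (e : F ≃* FreeGroup X) {T : Set G} (hT : T.Finite) (x : X) :
    (NN e T x).Finite := hT.biUnion (fun _ _ => lt_finite e _)

/-- iterated neighbours -/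
def RRn (e : F ≃* FreeGroup X) (T : Set G) (P : Set X) : ℕ → Set X
  | 0 => P
  | n + 1 => RRn e T P n ∪ ⋃ y ∈ RRn e T P n, NN e T y

theorem RRn_finite (e : F ≃* FreeGroup X) {T : Set G} (hT : T.Finite) {P : Set X}
    (hP : P.Finite) (n : ℕ) : (RRn e T P n).Finite := by
  induction n with
  | zero => exact hP
  | succ n ih => exact ih.union (ih.biUnion (fun _ _ => NN_finite e hT _))

theorem RRn_mono (e : F ≃* FreeGroup X) (T : Set G) (P : Set X) : Monotone (RRn e T P) :=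
  monotone_nat_of_le_succ (fun _ => Set.subset_union_left)

/-- closed under conjugation by `H` -/
def HC (F H : Subgroup G) (e : F ≃* FreeGroup X) (Y : Set X) : Prop :=
  AF F e.toMonoidHom Y ≤ BF F H e.toMonoidHom Y

theorem Setup.hc {e : F ≃* FreeGroup X} (st : Setup F H e X0) {T : Set G} (hTH : T ⊆ H)
    (hT : ∀ h ∈ H, ∃ t ∈ T, t⁻¹ * h ∈ F) {Y : Set X} (hY : X0 ⊆ Y)
    (h : ∀ y ∈ Y, NN e T y ⊆ Y) : HC F H e Y := by
  intro f hf k hk
  have key : ∀ f ∈ Subgroup.closure (gx e '' Y), k⁻¹ * f * k ∈ AF F e.toMonoidHom Y := by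
    intro f hf
    induction hf using Subgroup.closure_induction with
    | mem z hz =>
      obtain ⟨x, hx, rfl⟩ := hz
      obtain ⟨t, ht, h2⟩ := hT k hk
      have h3 : t⁻¹ * k ∈ AF F e.toMonoidHom Y :=
        AF_mono hY (st.low _ (H.mul_mem (H.inv_mem (hTH ht)) hk) h2)
      have h4 : t⁻¹ * gx e x * t ∈ AF F e.toMonoidHom Y := by
        have hm : t⁻¹ * gx e x * t ∈ F := by
          have := st.nor.conj_mem _ (gx_mem_F e x) t⁻¹
          simpa using this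
        rw [mem_AF_lt hm]
        intro y hy
        exact h x hx (Set.mem_biUnion ht hy)
      have h5 := (AF F e.toMonoidHom Y).mul_mem
        ((AF F e.toMonoidHom Y).mul_mem ((AF F e.toMonoidHom Y).inv_mem h3) h4) h3
      have e1 : (t⁻¹ * k)⁻¹ * (t⁻¹ * gx e x * t) * (t⁻¹ * k) = k⁻¹ * gx e x * k := by group
      rwa [e1] at h5
    | one => simp [Subgroup.one_mem]
    | mul a b _ _ ha hb =>
      have := Subgroup.mul_mem _ ha hb
      have e1 : k⁻¹ * a * k * (k⁻¹ * b * k) = k⁻¹ * (a * b) * k := by group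
      rwa [e1] at this
    | inv a _ ha =>
      have := Subgroup.inv_mem _ ha
      have e1 : (k⁻¹ * a * k)⁻¹ = k⁻¹ * a⁻¹ * k := by group
      rwa [e1] at this
  exact key f (AF_closure e Y hf)

/-- the countable step -/
theorem Setup.omega {e : F ≃* FreeGroup X} (st : Setup F H e X0) {T : Set G} (hTf : T.Finite)
    (hTH : T ⊆ H) (hT : ∀ h ∈ H, ∃ t ∈ T, t⁻¹ * h ∈ F) {Y : Set X} (hY : X0 ⊆ Y) {P : Set X}
    (hP : P.Finite) (hYP : ∀ y ∈ Y, y ∉ P → NN e T y ⊆ Y)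
    (hS : ∃ S : Set G, S.Finite ∧ S ⊆ F ∧ AF F e.toMonoidHom Y ≤
      Subgroup.closure ((VF F H e.toMonoidHom Y : Set G) ∪ S))
    {Ψ : G →* W} {Γ : Subgroup (G × W)} (hΓ : Good F Ψ Γ)
    (hd : Dom Γ (VF F H e.toMonoidHom Y)) :
    ∃ (Y' : Set X) (Γ' : Subgroup (G × W)), Y ⊆ Y' ∧ P ⊆ Y' ∧ HC F H e Y' ∧ Γ ≤ Γ' ∧
      Good F Ψ Γ' ∧ Dom Γ' (VF F H e.toMonoidHom Y') := by
  let PP : ℕ → Subgroup (G × W) → Prop := fun n Γ' => Good F Ψ Γ' ∧
    Dom Γ' (VF F H e.toMonoidHom (Y ∪ RRn e T P n)) ∧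
      ∃ S : Set G, S.Finite ∧ S ⊆ F ∧ AF F e.toMonoidHom (Y ∪ RRn e T P n) ≤
        Subgroup.closure ((VF F H e.toMonoidHom (Y ∪ RRn e T P n) : Set G) ∪ S)
  obtain ⟨Γ0, h0, h1, h2, h3⟩ := st.fin hY hP hS hΓ hd
  have hbase : PP 0 Γ0 := ⟨h1, h2, h3⟩
  have hstep : ∀ (n : ℕ) (x : {Γ' // PP n Γ'}), ∃ y : {Γ' // PP (n + 1) Γ'}, x.1 ≤ y.1 := by
    rintro n ⟨Γ', h4, h5, h6⟩
    have hfin : (⋃ y ∈ RRn e T P n, NN e T y).Finite :=
      (RRn_finite e hTf hP n).biUnion (fun _ _ => NN_finite e hTf _)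
    obtain ⟨Γ2, h7, h8, h9, h10⟩ := st.fin (hY.trans Set.subset_union_left) hfin h6 h4 h5
    rw [Set.union_assoc] at h9 h10
    exact ⟨⟨Γ2, h8, h9, h10⟩, h7⟩
  choose f hf using hstep
  let s : ∀ n, {Γ' // PP n Γ'} := fun n => Nat.rec ⟨Γ0, hbase⟩ (fun n ih => f n ih) n
  have hs : ∀ n, (s n).1 ≤ (s (n + 1)).1 := fun n => hf n (s n)
  have hmono : Monotone (fun n => (s n).1) := monotone_nat_of_le_succ hs
  have hYeq : Y ∪ ⋃ n, RRn e T P n = ⋃₀ Set.range (fun n => Y ∪ RRn e T P n) := by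
    rw [Set.sUnion_range, Set.union_iUnion]
  have hdirY : DirectedOn (· ⊆ ·) (Set.range (fun n => Y ∪ RRn e T P n)) := by
    rintro _ ⟨n, rfl⟩ _ ⟨m, rfl⟩
    exact ⟨_, ⟨max n m, rfl⟩,
      Set.union_subset_union_right _ (RRn_mono e T P (le_max_left n m)),
      Set.union_subset_union_right _ (RRn_mono e T P (le_max_right n m))⟩
  have hdirΓ : DirectedOn (· ≤ ·) (Set.range (fun n => (s n).1)) := by
    rintro _ ⟨n, rfl⟩ _ ⟨m, rfl⟩
    exact ⟨_, ⟨max n m, rfl⟩, hmono (le_max_left n m), hmono (le_max_right n m)⟩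
  have hneΓ : (Set.range (fun n => (s n).1)).Nonempty := ⟨_, ⟨0, rfl⟩⟩
  refine ⟨Y ∪ ⋃ n, RRn e T P n, sSup (Set.range (fun n => (s n).1)), Set.subset_union_left,
    ?_, ?_, ?_, ?_, ?_⟩
  · exact fun x hx => Or.inr (Set.mem_iUnion.2 ⟨0, hx⟩)
  · apply st.hc hTH hT (hY.trans Set.subset_union_left)
    have hR : ∀ n, ∀ y ∈ RRn e T P n, NN e T y ⊆ Y ∪ ⋃ n, RRn e T P n := by
      intro n y hy x hx
      exact Or.inr (Set.mem_iUnion.2 ⟨n + 1, Or.inr (Set.mem_biUnion hy hx)⟩)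
    rintro y (hy | hy)
    · by_cases hyP : y ∈ P
      · exact hR 0 y hyP
      · exact (hYP y hy hyP).trans Set.subset_union_left
    · obtain ⟨n, hn⟩ := Set.mem_iUnion.1 hy
      exact hR n y hn
  · exact h0.trans (le_sSup (Set.mem_range_self 0))
  · apply good_sSup st.fi hneΓ hdirΓ
    rintro _ ⟨n, rfl⟩
    exact (s n).2.1
  · intro g
    rw [hYeq, st.VF_sUnion (Set.range_nonempty _) hdirY (by
      rintro _ ⟨n, rfl⟩
      exact hY.trans Set.subset_union_left)]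
    constructor
    · rintro ⟨w, hw⟩
      rw [Subgroup.mem_sSup_of_directedOn hneΓ hdirΓ] at hw
      obtain ⟨_, ⟨n, rfl⟩, hw⟩ := hw
      exact ⟨_, ⟨n, rfl⟩, ((s n).2.2.1 g).1 ⟨w, hw⟩⟩
    · rintro ⟨_, ⟨n, rfl⟩, hg⟩
      obtain ⟨w, hw⟩ := ((s n).2.2.1 g).2 hg
      exact ⟨w, Subgroup.mem_sSup_of_mem (Set.mem_range_self n) hw⟩

/-- the extension to the whole group -/
theorem Setup.ext_all {e : F ≃* FreeGroup X} (st : Setup F H e X0) (hX0 : X0.Finite)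
    {Ψ : G →* W} {Γ : Subgroup (G × W)} (hΓ : Good F Ψ Γ)
    (hd : Dom Γ (VF F H e.toMonoidHom X0)) :
    ∃ φ : G →* W, ∀ p ∈ Γ, φ p.1 = p.2 := by
  obtain ⟨T, hTf, hTH, hT⟩ := exists_reps H st.fi
  -- start
  obtain ⟨Y1, Γ1, h1, -, h3, h4, h5, h6⟩ := st.omega hTf hTH hT (Set.Subset.refl X0) hX0
    (fun y hy hy' => absurd hy hy')
    ⟨gx e '' X0, hX0.image _, by
      rintro _ ⟨y, -, rfl⟩
      exact gx_mem_F e y, (AF_closure e X0).trans (Subgroup.closure_mono Set.subset_union_right)⟩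
    hΓ hd
  let ss : Set (Set X × Subgroup (G × W)) := {p | X0 ⊆ p.1 ∧ HC F H e p.1 ∧ Γ ≤ p.2 ∧
    Good F Ψ p.2 ∧ Dom p.2 (VF F H e.toMonoidHom p.1)}
  obtain ⟨⟨Y, Γm⟩, hle, hmax⟩ := zorn_le_nonempty₀ ss (by
    intro c hc hchain y hy
    have hdir1 : DirectedOn (· ⊆ ·) (Prod.fst '' c) := by
      rintro _ ⟨p, hp, rfl⟩ _ ⟨q, hq, rfl⟩
      rcases hchain.total hp hq with h | h
      · exact ⟨_, ⟨q, hq, rfl⟩, h.1, le_rfl⟩
      · exact ⟨_, ⟨p, hp, rfl⟩, le_rfl, h.1⟩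
    have hdir2 : DirectedOn (· ≤ ·) (Prod.snd '' c) := by
      rintro _ ⟨p, hp, rfl⟩ _ ⟨q, hq, rfl⟩
      rcases hchain.total hp hq with h | h
      · exact ⟨_, ⟨q, hq, rfl⟩, h.2, le_rfl⟩
      · exact ⟨_, ⟨p, hp, rfl⟩, le_rfl, h.2⟩
    have hne1 : (Prod.fst '' c).Nonempty := ⟨_, ⟨y, hy, rfl⟩⟩
    have hne2 : (Prod.snd '' c).Nonempty := ⟨_, ⟨y, hy, rfl⟩⟩
    refine ⟨(⋃₀ (Prod.fst '' c), sSup (Prod.snd '' c)), ⟨?_, ?_, ?_, ?_, ?_⟩, ?_⟩
    · exact (hc hy).1.trans (Set.subset_sUnion_of_mem ⟨y, hy, rfl⟩)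
    · intro f hf
      have hfF : f ∈ F := AF_le hf
      obtain ⟨_, ⟨p, hp, rfl⟩, h7⟩ := dir_fin hne1 hdir1 (lt_finite e f) ((mem_AF_lt hfF).1 hf)
      have h8 := (hc hp).2.1 ((mem_AF_lt hfF).2 h7)
      exact BF_mono (Set.subset_sUnion_of_mem (Set.mem_image_of_mem _ hp)) h8
    · exact (hc hy).2.2.1.trans (le_sSup (Set.mem_image_of_mem _ hy))
    · apply good_sSup st.fi hne2 hdir2
      rintro _ ⟨p, hp, rfl⟩
      exact (hc hp).2.2.2.1
    · intro g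
      rw [st.VF_sUnion hne1 hdir1 (by
        rintro _ ⟨p, hp, rfl⟩
        exact (hc hp).1)]
      constructor
      · rintro ⟨w, hw⟩
        rw [Subgroup.mem_sSup_of_directedOn hne2 hdir2] at hw
        obtain ⟨_, ⟨p, hp, rfl⟩, hw⟩ := hw
        exact ⟨_, ⟨p, hp, rfl⟩, ((hc hp).2.2.2.2 g).1 ⟨w, hw⟩⟩
      · rintro ⟨_, ⟨p, hp, rfl⟩, hg⟩
        obtain ⟨w, hw⟩ := ((hc hp).2.2.2.2 g).2 hg
        exact ⟨w, Subgroup.mem_sSup_of_mem (Set.mem_image_of_mem _ hp) hw⟩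
    · intro z hz
      exact ⟨Set.subset_sUnion_of_mem (Set.mem_image_of_mem _ hz),
        le_sSup (Set.mem_image_of_mem _ hz)⟩)
    (Y1, Γ1) ⟨h1, h3, h4, h5, h6⟩
  obtain ⟨⟨m1, m2, m3, m4, m5⟩, hmax⟩ := hmax
  simp only at m1 m2 m3 m4 m5
  have huniv : Y = Set.univ := by
    by_contra hne
    obtain ⟨x, hx⟩ := (Set.ne_univ_iff_exists_notMem Y).1 hne
    obtain ⟨Y2, Γ2, k1, k2, k3, k4, k5, k6⟩ := st.omega hTf hTH hT m1 (Set.finite_singleton x)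
      (by
        intro y hy _ z hz
        simp only [NN, Set.mem_iUnion] at hz
        obtain ⟨t, ht, hz⟩ := hz
        have h9 := m2 (gx_mem e hy) t (hTH ht)
        exact (mem_AF_lt (AF_le h9)).1 h9 hz)
      ⟨∅, Set.finite_empty, Set.empty_subset _, by
        intro f hf
        exact Subgroup.subset_closure (Or.inl (BF_le_VF (m2 hf)))⟩
      m4 m5
    have h10 := hmax (y := (Y2, Γ2)) ⟨m1.trans k1, k3, m3.trans k4, k5, k6⟩ ⟨k1, k4⟩
    exact hx (h10.1 (k2 rfl))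
  subst huniv
  have hV : ∀ g : G, g ∈ VF F H e.toMonoidHom Set.univ := by
    intro g
    obtain ⟨f, hf, h, hh, rfl⟩ := st.gen g
    apply Subgroup.mul_mem _ _ (H_le_VF hh)
    apply BF_le_VF
    apply m2
    rw [AF_univ]
    exact hf
  obtain ⟨φ, hφ⟩ := m4.hom (V := ⊤) (fun g => by rw [m5]; exact ⟨fun _ => trivial, fun _ => hV g⟩)
  refine ⟨φ.comp Subgroup.topEquiv.symm.toMonoidHom, ?_⟩
  rintro ⟨g, w⟩ hp
  exact m4.uniq (hφ ⟨g, trivial⟩) (m3 hp)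

end

end Pool.Agent.U843.LR
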