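import Mathlib

set_option autoImplicit false

/-!
# Extension of equivariant partial bijections of a set with finitely many orbits
-/

namespace Pool.Agent.U843.LR

variable {U : Type}

theorem perm_inv_self (a : Equiv.Perm U) (x : U) : a⁻¹ (a x) = x := a.symm_apply_apply x

/-- equivariant partial bijections -/
structure PB (A : Subgroup (Equiv.Perm U)) (R : Set (U × U)) : Prop where
  inv : ∀ a ∈ A, ∀ u v, (u, v) ∈ R → (a u, a v) ∈ R
  fn : ∀ u v v', (u, v) ∈ R → (u, v') ∈ R → v = v'
  inj : ∀ u u' v, (u, v) ∈ R → (u', v) ∈ R → u = u'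

theorem PB.stab {A : Subgroup (Equiv.Perm U)} {R : Set (U × U)} (h : PB A R) {u v : U}
    (huv : (u, v) ∈ R) {a : Equiv.Perm U} (ha : a ∈ A) : a u = u ↔ a v = v := by
  have h1 := h.inv a ha u v huv
  constructor
  · intro h2
    rw [h2] at h1
    exact (h.fn _ _ _ huv h1).symm
  · intro h2
    rw [h2] at h1
    exact (h.inj _ _ _ huv h1).symm

theorem exists_max {A : Subgroup (Equiv.Perm U)} {R0 : Set (U × U)} (h0 : PB A R0) :
    ∃ R, R0 ⊆ R ∧ Maximal (PB A) R := by
  apply zorn_subset_nonempty {R | PB A R} _ R0 h0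
  intro c hc hchain hne
  refine ⟨⋃₀ c, ⟨?_, ?_, ?_⟩, fun s hs => Set.subset_sUnion_of_mem hs⟩
  · rintro a ha u v ⟨R, hR, h⟩
    exact ⟨R, hR, (hc hR).inv a ha u v h⟩
  · rintro u v v' ⟨R, hR, h⟩ ⟨R', hR', h'⟩
    rcases hchain.total hR hR' with h2 | h2
    · exact (hc hR').fn _ _ _ (h2 h) h'
    · exact (hc hR).fn _ _ _ h (h2 h')
  · rintro u v v' ⟨R, hR, h⟩ ⟨R', hR', h'⟩
    rcases hchain.total hR hR' with h2 | h2
    · exact (hc hR').inj _ _ _ (h2 h) h'
    · exact (hc hR).inj _ _ _ h (h2 h')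

theorem total_of_max {A : Subgroup (Equiv.Perm U)}
    (PH : ∀ s : ℕ → U, ∃ i j, i < j ∧ ∃ a ∈ A, s i = a (s j)) {R : Set (U × U)}
    (hR : Maximal (PB A) R) (u : U) : ∃ v, (u, v) ∈ R := by
  by_contra hu
  push Not at hu
  have h := hR.prop
  let st : U → U → Prop := fun v v' => (v', v) ∈ R
  have hstab : ∀ v, Relation.ReflTransGen st u v → ∀ a ∈ A, (a u = u ↔ a v = v) := by
    intro v hv a ha
    induction hv with
    | refl => exact Iff.rfl
    | tail _ h2 ih => exact ih.trans (h.stab h2 ha).symm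
  have hex : ∃ v, Relation.ReflTransGen st u v ∧ ∀ x, (x, v) ∉ R := by
    by_contra hc
    push Not at hc
    choose! pre hpre using hc
    let s : ℕ → U := fun n => Nat.rec u (fun _ v => pre v) n
    have hs : ∀ n, Relation.ReflTransGen st u (s n) := by
      intro n
      induction n with
      | zero => exact Relation.ReflTransGen.refl
      | succ n ih => exact ih.tail (hpre _ ih)
    have hs2 : ∀ n, (s (n + 1), s n) ∈ R := fun n => hpre _ (hs n)
    obtain ⟨i, j, hij, a, ha, hsa⟩ := PH s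
    have key : ∀ i j, i < j → s i = a (s j) → u = a (s (j - i)) := by
      intro i
      induction i with
      | zero => intro j _ h2; exact h2
      | succ i ih =>
        intro j hj h2
        obtain ⟨j', rfl⟩ : ∃ j', j = j' + 1 := ⟨j - 1, by omega⟩
        have h3 := h.inv a ha _ _ (hs2 j')
        rw [← h2] at h3
        have h4 := h.fn _ _ _ (hs2 i) h3
        have h5 := ih j' (by omega) h4
        rwa [Nat.add_sub_add_right]
    have h2 := key i j hij hsa
    obtain ⟨k, hk⟩ : ∃ k, j - i = k + 1 := ⟨j - i - 1, by omega⟩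
    rw [hk] at h2
    have h3 := h.inv a ha _ _ (hs2 k)
    rw [← h2] at h3
    exact hu _ h3
  obtain ⟨v, hv, hv2⟩ := hex
  have hst := hstab v hv
  let R' : Set (U × U) := R ∪ {p | ∃ a ∈ A, p = (a u, a v)}
  have hR' : PB A R' := by
    refine ⟨?_, ?_, ?_⟩
    · rintro a ha x y (h1 | ⟨b, hb, h1⟩)
      · exact Or.inl (h.inv a ha x y h1)
      · right
        simp only [Prod.mk.injEq] at h1
        exact ⟨a * b, A.mul_mem ha hb, by rw [h1.1, h1.2]; rfl⟩
    · rintro x y y' (h1 | ⟨b, hb, h1⟩) (h2 | ⟨c, hc, h2⟩)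
      · exact h.fn _ _ _ h1 h2
      · exfalso
        simp only [Prod.mk.injEq] at h2
        rw [h2.1] at h1
        have := h.inv c⁻¹ (A.inv_mem hc) _ _ h1
        rw [perm_inv_self] at this
        exact hu _ this
      · exfalso
        simp only [Prod.mk.injEq] at h1
        rw [h1.1] at h2
        have := h.inv b⁻¹ (A.inv_mem hb) _ _ h2
        rw [perm_inv_self] at this
        exact hu _ this
      · simp only [Prod.mk.injEq] at h1 h2
        have h3 : (b⁻¹ * c) u = u := by
          rw [Equiv.Perm.mul_apply, ← h2.1, h1.1, perm_inv_self]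
        have h4 := (hst _ (A.mul_mem (A.inv_mem hb) hc)).1 h3
        rw [Equiv.Perm.mul_apply, Equiv.Perm.inv_eq_iff_eq] at h4
        rw [h1.2, h2.2, h4]
    · rintro x y z (h1 | ⟨b, hb, h1⟩) (h2 | ⟨c, hc, h2⟩)
      · exact h.inj _ _ _ h1 h2
      · exfalso
        simp only [Prod.mk.injEq] at h2
        rw [h2.2] at h1
        have := h.inv c⁻¹ (A.inv_mem hc) _ _ h1
        rw [perm_inv_self] at this
        exact hv2 _ this
      · exfalso
        simp only [Prod.mk.injEq] at h1
        rw [h1.2] at h2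
        have := h.inv b⁻¹ (A.inv_mem hb) _ _ h2
        rw [perm_inv_self] at this
        exact hv2 _ this
      · simp only [Prod.mk.injEq] at h1 h2
        have h3 : (b⁻¹ * c) v = v := by
          rw [Equiv.Perm.mul_apply, ← h2.2, h1.2, perm_inv_self]
        have h4 := (hst _ (A.mul_mem (A.inv_mem hb) hc)).2 h3
        rw [Equiv.Perm.mul_apply, Equiv.Perm.inv_eq_iff_eq] at h4
        rw [h1.1, h2.1, h4]
  have h1 : R' ⊆ R := hR.2 hR' Set.subset_union_left
  exact hu v (h1 (Or.inr ⟨1, A.one_mem, rfl⟩))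

theorem extb (A : Subgroup (Equiv.Perm U))
    (PH : ∀ s : ℕ → U, ∃ i j, i < j ∧ ∃ a ∈ A, s i = a (s j)) {R0 : Set (U × U)} (h0 : PB A R0) :
    ∃ w : Equiv.Perm U, (∀ a ∈ A, a * w = w * a) ∧ ∀ u v, (u, v) ∈ R0 → w u = v := by
  obtain ⟨R, hsub, hR⟩ := exists_max h0
  choose f hf using total_of_max PH hR
  have h := hR.prop
  have hinj : Function.Injective f := by
    intro x y hxy
    have h1 := hf x
    rw [hxy] at h1
    exact h.inj _ _ _ h1 (hf y)
  have heq : ∀ a ∈ A, ∀ x, f (a x) = a (f x) := by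
    intro a ha x
    exact h.fn _ _ _ (hf _) (h.inv a ha _ _ (hf x))
  have hsurj : Function.Surjective f := by
    intro v
    obtain ⟨i, j, hij, a, ha, hs⟩ := PH (fun n => f^[n] v)
    have hcomm : ∀ n x, f^[n] (a x) = a (f^[n] x) := by
      intro n
      induction n with
      | zero => intro x; rfl
      | succ n ih =>
        intro x
        rw [Function.iterate_succ_apply, heq a ha, ih, Function.iterate_succ_apply]
    have h1 : f^[j] v = f^[i] (f^[j - i] v) := by
      rw [← Function.iterate_add_apply]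
      congr 1
      congr 1
      omega
    rw [h1, ← hcomm] at hs
    have h2 := hinj.iterate i hs
    obtain ⟨k, hk⟩ : ∃ k, j - i = k + 1 := ⟨j - i - 1, by omega⟩
    rw [hk, Function.iterate_succ_apply', ← heq a ha] at h2
    exact ⟨_, h2.symm⟩
  refine ⟨Equiv.ofBijective f ⟨hinj, hsurj⟩, ?_, ?_⟩
  · intro a ha
    ext x
    simp only [Equiv.Perm.mul_apply]
    exact (heq a ha x).symm
  · intro u v huv
    exact h.fn _ _ _ (hf u) (hsub huv)

end Pool.Agent.U843.LR
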