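import Mathlib

set_option autoImplicit false

/-!
# Homomorphisms from actions on trees
-/

namespace Pool.Agent.U843.LR

open SimpleGraph

section potential

variable {N W : Type} [Group W] {T : SimpleGraph N}

/-- transport along a walk -/
def tr (τ : N → N → W) : ∀ {p q : N}, T.Walk p q → W
  | _, _, .nil => 1
  | _, _, .cons (u := p) (v := r) _ w => tr τ w * τ p r

theorem tr_append (τ : N → N → W) {p q r : N} (w : T.Walk p q) (w' : T.Walk q r) :
    tr τ (w.append w') = tr τ w' * tr τ w := by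
  induction w with
  | nil => simp [tr]
  | cons h w ih => simp only [Walk.cons_append, tr, ih, mul_assoc]

theorem exists_potential (hT : T.IsTree) (τ : N → N → W)
    (hτ : ∀ p q, T.Adj p q → τ q p = (τ p q)⁻¹) (p0 : N) :
    ∃ σ : N → W, σ p0 = 1 ∧ ∀ p q, T.Adj p q → σ q = τ p q * σ p := by
  classical
  choose P hP hPu using fun p => hT.existsUnique_path p p0
  have hPu' : ∀ p (w : T.Walk p p0), w.IsPath → w = P p := fun p w hw => hPu p w hw
  have key : ∀ p r, T.Adj p r → tr τ (P r) * τ p r = tr τ (P p) := by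
    intro p r hpr
    by_cases hp : p ∈ (P r).support
    · have h1 : (P r).takeUntil p hp = Walk.cons hpr.symm Walk.nil := by
        apply (hT.existsUnique_path r p).unique
        · exact (hP r).takeUntil hp
        · simp [hpr.ne']
      have h2 : (P r).dropUntil p hp = P p := hPu' p _ ((hP r).dropUntil hp)
      have h3 := (P r).take_spec hp
      rw [h1, h2] at h3
      have h4 : tr τ (P r) = tr τ (P p) * τ r p := by
        rw [← h3, tr_append]
        simp [tr]
      rw [h4, hτ p r hpr]
      simp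
    · have h1 : Walk.cons hpr (P r) = P p := by
        apply hPu'
        rw [Walk.cons_isPath_iff]
        exact ⟨hP r, hp⟩
      rw [← h1]
      rfl
  refine ⟨fun p => (tr τ (P p))⁻¹ * tr τ (P p0), by simp, ?_⟩
  intro p q hpq
  change (tr τ (P q))⁻¹ * tr τ (P p0) = τ p q * ((tr τ (P p))⁻¹ * tr τ (P p0))
  rw [← key p q hpq]
  group

end potential

section hom

variable {G W N : Type} [Group G] [Group W] [MulAction G N] {T : SimpleGraph N}

theorem glue (hT : T.IsTree) (hinv : ∀ (g : G) p q, T.Adj p q → T.Adj (g • p) (g • q))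
    (c : G → N → W) (hc : ∀ g h p, c (g * h) p = c g (h • p) * c h p) (τ : N → N → W)
    (hτ : ∀ p q, T.Adj p q → τ q p = (τ p q)⁻¹)
    (hcτ : ∀ g p q, T.Adj p q → c g q * τ p q = τ (g • p) (g • q) * c g p) (p0 : N) :
    ∃ (φ : G →* W) (σ : N → W), σ p0 = 1 ∧ (∀ p q, T.Adj p q → σ q = τ p q * σ p) ∧
      ∀ g p, σ (g • p) * φ g = c g p * σ p := by
  obtain ⟨σ, h0, hσ⟩ := exists_potential hT τ hτ p0
  have hadj : ∀ g p q, T.Adj p q →
      (σ (g • q))⁻¹ * c g q * σ q = (σ (g • p))⁻¹ * c g p * σ p := by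
    intro g p q hpq
    rw [hσ p q hpq, hσ _ _ (hinv g p q hpq), mul_inv_rev, mul_assoc _ (c g q), ← mul_assoc (c g q),
      hcτ g p q hpq]
    group
  have hall : ∀ g p q, (σ (g • q))⁻¹ * c g q * σ q = (σ (g • p))⁻¹ * c g p * σ p := by
    intro g p q
    obtain ⟨P⟩ := hT.connected p q
    induction P with
    | nil => rfl
    | cons h _ ih => rw [ih, hadj g _ _ h]
  refine ⟨{ toFun := fun g => (σ (g • p0))⁻¹ * c g p0 * σ p0, map_one' := ?_, map_mul' := ?_ }, σ,
    h0, hσ, ?_⟩
  · have h1 : c 1 p0 = 1 := by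
      have := hc 1 1 p0
      rw [mul_one, one_smul] at this
      exact (mul_eq_left.1 this.symm)
    rw [one_smul, h1]
    group
  · intro g h
    rw [hall g (h • p0) p0, hc, mul_smul]
    group
  · intro g p
    simp only [MonoidHom.coe_mk, OneHom.coe_mk]
    rw [hall g p p0]
    group

theorem edge_choice (c : G → N → W) (hc : ∀ g h p, c (g * h) p = c g (h • p) * c h p)
    (hinv : ∀ (g : G) p q, T.Adj p q → T.Adj (g • p) (g • q))
    (typ : N → Prop) (htyp : ∀ (g : G) p, typ (g • p) ↔ typ p)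
    (htyp2 : ∀ p q, T.Adj p q → (typ p ↔ ¬ typ q)) (R : N → N → W → Prop)
    (hR1 : ∀ p q, T.Adj p q → typ p → ∃ w, R p q w)
    (hR2 : ∀ g p q w, R p q w → R (g • p) (g • q) (c g q * w * (c g p)⁻¹))
    (hR3 : ∀ p q w, R p q w → ∀ a : G, a • p = p → a • q = q → c a q * w = w * c a p) :
    ∃ τ : N → N → W, (∀ p q, T.Adj p q → τ q p = (τ p q)⁻¹) ∧
      (∀ g p q, T.Adj p q → c g q * τ p q = τ (g • p) (g • q) * c g p) ∧
      ∀ p q, T.Adj p q → typ p → R p q (τ p q) := by
  classical
  -- representatives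
  let rep : N × N → N × N := fun o => (Quotient.mk (MulAction.orbitRel G (N × N)) o).out
  have hrep : ∀ o, ∃ g : G, g • rep o = o := by
    intro o
    have h1 : (MulAction.orbitRel G (N × N)).r (rep o) o :=
      @Quotient.mk_out _ (MulAction.orbitRel G (N × N)) o
    have h2 : (MulAction.orbitRel G (N × N)).r o (rep o) :=
      (MulAction.orbitRel G (N × N)).iseqv.symm h1
    exact MulAction.orbitRel_apply.1 h2
  have hrep2 : ∀ (g : G) o, rep (g • o) = rep o := by
    intro g o
    have : Quotient.mk (MulAction.orbitRel G (N × N)) (g • o) =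
        Quotient.mk (MulAction.orbitRel G (N × N)) o := by
      apply Quotient.sound
      exact MulAction.orbitRel_apply.2 ⟨g, rfl⟩
    simp only [rep, this]
  choose s hs using hrep
  have hw : ∀ o : N × N, ∃ w : W, (T.Adj o.1 o.2 ∧ typ o.1) → R o.1 o.2 w := by
    intro o
    by_cases h : T.Adj o.1 o.2 ∧ typ o.1
    · obtain ⟨w, hw⟩ := hR1 o.1 o.2 h.1 h.2
      exact ⟨w, fun _ => hw⟩
    · exact ⟨1, fun h' => absurd h' h⟩
  choose w hw using hw
  let τ1 : N × N → W := fun o => c (s o) (rep o).2 * w (rep o) * (c (s o) (rep o).1)⁻¹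
  have hgood : ∀ o : N × N, T.Adj o.1 o.2 → typ o.1 → T.Adj (rep o).1 (rep o).2 ∧ typ (rep o).1 := by
    intro o h1 h2
    have h3 : rep o = (s o)⁻¹ • o := by rw [eq_inv_smul_iff, hs]
    rw [h3]
    exact ⟨hinv _ _ _ h1, (htyp _ _).2 h2⟩
  have e1 : ∀ o : N × N, T.Adj o.1 o.2 → typ o.1 → R o.1 o.2 (τ1 o) := by
    intro o h1 h2
    have h3 := hw (rep o) (hgood o h1 h2)
    have h4 := hR2 (s o) _ _ _ h3
    have h5 : s o • (rep o).1 = o.1 := congrArg Prod.fst (hs o)
    have h6 : s o • (rep o).2 = o.2 := congrArg Prod.snd (hs o)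
    rw [h5, h6] at h4
    exact h4
  have e2 : ∀ (g : G) (o : N × N), T.Adj o.1 o.2 → typ o.1 →
      c g o.2 * τ1 o = τ1 (g • o) * c g o.1 := by
    intro g o h1 h2
    have h3 := hw (rep o) (hgood o h1 h2)
    have hso1 : s o • (rep o).1 = o.1 := congrArg Prod.fst (hs o)
    have hso2 : s o • (rep o).2 = o.2 := congrArg Prod.snd (hs o)
    let a : G := (s (g • o))⁻¹ * (g * s o)
    have ha : a • rep o = rep o := by
      have h7 := hs (g • o)
      rw [hrep2] at h7
      simp only [a]
      rw [mul_smul, mul_smul, hs o, inv_smul_eq_iff, h7]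
    have ha1 : a • (rep o).1 = (rep o).1 := congrArg Prod.fst ha
    have ha2 : a • (rep o).2 = (rep o).2 := congrArg Prod.snd ha
    have h8 := hR3 _ _ _ h3 a ha1 ha2
    have h9 : g * s o = s (g • o) * a := by simp [a]
    have k1 : c g o.2 * c (s o) (rep o).2 = c (s (g • o)) (rep o).2 * c a (rep o).2 := by
      have := hc g (s o) (rep o).2
      rw [hso2] at this
      rw [← this, h9, hc, ha2]
    have k2 : c g o.1 * c (s o) (rep o).1 = c (s (g • o)) (rep o).1 * c a (rep o).1 := by
      have := hc g (s o) (rep o).1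
      rw [hso1] at this
      rw [← this, h9, hc, ha1]
    have k3 : c g o.1 = c (s (g • o)) (rep o).1 * c a (rep o).1 * (c (s o) (rep o).1)⁻¹ := by
      rw [← k2]; group
    simp only [τ1, hrep2]
    rw [k3, ← mul_assoc, ← mul_assoc, k1, mul_assoc _ (c a (rep o).2), h8]
    group
  refine ⟨fun p q => if typ p then τ1 (p, q) else (τ1 (q, p))⁻¹, ?_, ?_, ?_⟩
  · intro p q hpq
    have h1 := htyp2 p q hpq
    by_cases hp : typ p
    · have hq : ¬ typ q := h1.1 hp
      simp [hp, hq]
    · have hq : typ q := by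
        by_contra hq
        exact hp (h1.2 hq)
      simp [hp, hq]
  · intro g p q hpq
    have h1 := htyp2 p q hpq
    by_cases hp : typ p
    · simp only [hp, htyp, if_true]
      exact e2 g (p, q) hpq hp
    · have hq : typ q := by
        by_contra hq
        exact hp (h1.2 hq)
      simp only [hp, htyp, if_false]
      have := e2 g (q, p) hpq.symm hq
      simp only at this
      have e : g • (q, p) = (g • q, g • p) := rfl
      rw [e] at this
      rw [mul_inv_eq_iff_eq_mul, mul_assoc, this]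
      group
  · intro p q hpq hp
    simp only [hp, if_true]
    exact e1 (p, q) hpq hp

end hom

end Pool.Agent.U843.LR
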