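import Pool.Agent.U843.LR.Abs
import Pool.Agent.U843.LR.Extb
import Pool.Agent.U843.LR.Glue

set_option autoImplicit false

/-!
# Completion: a finitely generated subgroup of a finitely generated virtually free group
-/

namespace Pool.Agent.U843.LR

open SimpleGraph

section

variable {G H Q : Type} [Group G] [Group H] [Group Q] {θ : G →* Q} (t : GTree G θ.ker)
  (ι : H →* G) (TH : Set t.N)

/-- the set on which everything acts -/
def UU : Type := {x : t.N × Q // x.1 ∈ TH}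

variable {t TH}

theorem UU.ext' {x y : UU t TH (Q := Q)} (h1 : x.1.1 = y.1.1) (h2 : x.1.2 = y.1.2) : x = y :=
  Subtype.ext (Prod.ext h1 h2)

variable (t TH)

/-- the action of the subgroup (a right action, written as a left action) -/
def lam (hTH : ∀ (h : H) p, p ∈ TH → ι h • p ∈ TH) : H →* Equiv.Perm (UU t TH (Q := Q)) where
  toFun h :=
    { toFun := fun x => ⟨(ι h • x.1.1, x.1.2 * (θ (ι h))⁻¹), hTH h _ x.2⟩
      invFun := fun x => ⟨(ι h⁻¹ • x.1.1, x.1.2 * θ (ι h)), hTH h⁻¹ _ x.2⟩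
      left_inv := fun x => UU.ext' (by simp) (by simp)
      right_inv := fun x => UU.ext' (by simp) (by simp) }
  map_one' := by
    apply Equiv.ext
    intro x
    apply UU.ext'
    · change ι 1 • x.1.1 = x.1.1
      simp
    · change x.1.2 * (θ (ι 1))⁻¹ = x.1.2
      simp
  map_mul' h k := by
    apply Equiv.ext
    intro x
    apply UU.ext'
    · change ι (h * k) • x.1.1 = ι h • ι k • x.1.1
      rw [map_mul, mul_smul]
    · change x.1.2 * (θ (ι (h * k)))⁻¹ = x.1.2 * (θ (ι k))⁻¹ * (θ (ι h))⁻¹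
      simp [mul_assoc]

/-- the left action of the finite quotient -/
def psi0 : Q →* Equiv.Perm (UU t TH (Q := Q)) where
  toFun c :=
    { toFun := fun x => ⟨(x.1.1, c * x.1.2), x.2⟩
      invFun := fun x => ⟨(x.1.1, c⁻¹ * x.1.2), x.2⟩
      left_inv := fun x => UU.ext' rfl (by simp)
      right_inv := fun x => UU.ext' rfl (by simp) }
  map_one' := by
    apply Equiv.ext
    intro x
    apply UU.ext'
    · rfl
    · change 1 * x.1.2 = x.1.2
      simp
  map_mul' h k := by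
    apply Equiv.ext
    intro x
    apply UU.ext'
    · rfl
    · change h * k * x.1.2 = h * (k * x.1.2)
      rw [mul_assoc]

variable (hTH : ∀ (h : H) p, p ∈ TH → ι h • p ∈ TH)

theorem comm_lam_psi (h : H) (c : Q) :
    Commute (lam t ι TH hTH h) (psi0 t TH c) := by
  apply Equiv.ext
  intro x
  apply UU.ext'
  · rfl
  · change c * x.1.2 * (θ (ι h))⁻¹ = c * (x.1.2 * (θ (ι h))⁻¹)
    rw [mul_assoc]

/-- automorphisms of the right `H`-set -/
def WW : Subgroup (Equiv.Perm (UU t TH (Q := Q))) :=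
  Subgroup.centralizer (Set.range (lam t ι TH hTH))

theorem WW_comm (w : WW t ι TH hTH) (h : H) (x : UU t TH (Q := Q)) :
    w.1 (lam t ι TH hTH h x) = lam t ι TH hTH h (w.1 x) := by
  have := w.2 (lam t ι TH hTH h) ⟨h, rfl⟩
  exact (congrArg (fun e : Equiv.Perm (UU t TH (Q := Q)) => e x) this).symm

theorem psi_mem (c : Q) : psi0 t TH c ∈ WW t ι TH hTH := by
  rintro _ ⟨h, rfl⟩
  exact comm_lam_psi t ι TH hTH h c

/-- the left action of the finite quotient, by automorphisms of the right `H`-set -/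
def psi : Q →* WW t ι TH hTH := (psi0 t TH).codRestrict _ (psi_mem t ι TH hTH)

/-- the requirement on the gluing map of an edge -/
def RR (p r : t.N) (w : WW t ι TH hTH) : Prop :=
  (∀ a : G, a • p = p → a • r = r → psi t ι TH hTH (θ a) * w = w * psi t ι TH hTH (θ a)) ∧
  ∀ (g : G) (h1 : g • p ∈ TH) (h2 : g • r ∈ TH),
    w.1 ⟨(g • p, (θ g)⁻¹), h1⟩ = ⟨(g • r, (θ g)⁻¹), h2⟩

variable {t ι TH hTH}

theorem pigeon {P0 : Set t.N}
    (hcov : ∀ p ∈ TH, ∃ h : H, ∃ y ∈ P0, p = ι h • y) :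
    ∃ (f : UU t TH (Q := Q) → P0 × Q), ∀ x y, f x = f y → ∃ h : H, x = lam t ι TH hTH h y := by
  choose! h y hy hp using hcov
  refine ⟨fun x => (⟨y x.1.1, hy _ x.2⟩, x.1.2 * θ (ι (h x.1.1))), ?_⟩
  intro a b hab
  simp only [Prod.mk.injEq, Subtype.mk.injEq] at hab
  refine ⟨h a.1.1 * (h b.1.1)⁻¹, UU.ext' ?_ ?_⟩
  · change a.1.1 = ι (h a.1.1 * (h b.1.1)⁻¹) • b.1.1
    have e1 := hp a.1.1 a.2
    have e2 := hp b.1.1 b.2
    have e3 : (ι (h b.1.1))⁻¹ • b.1.1 = y b.1.1 := by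
      rw [inv_smul_eq_iff]
      exact e2
    rw [map_mul, map_inv, mul_smul, e3, ← hab.1]
    exact e1
  · change a.1.2 = b.1.2 * (θ (ι _))⁻¹
    rw [map_mul, map_mul, mul_inv_rev, map_inv, map_inv, inv_inv, ← mul_assoc, ← hab.2]
    simp

theorem exists_RR [Finite Q] (hst : ∀ p : t.N, ∀ f ∈ θ.ker, f • p = p → f = 1)
    {P0 : Set t.N} (hP0 : P0.Finite) (hcov : ∀ p ∈ TH, ∃ h : H, ∃ y ∈ P0, p = ι h • y)
    (p r : t.N) : ∃ w, RR t ι TH hTH p r w := by
  let Ke : Subgroup G := MulAction.stabilizer G p ⊓ MulAction.stabilizer G r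
  have hKe : ∀ a : G, a ∈ Ke ↔ a • p = p ∧ a • r = r := fun a => by
    simp [Ke, Subgroup.mem_inf, MulAction.mem_stabilizer_iff]
  let f2 : Ke →* Equiv.Perm (UU t TH (Q := Q)) := ((psi0 t TH).comp θ).comp Ke.subtype
  have hcomm : ∀ (h : H) (k : Ke), Commute (lam t ι TH hTH h) (f2 k) := fun h k =>
    comm_lam_psi t ι TH hTH h _
  let A : Subgroup (Equiv.Perm (UU t TH (Q := Q))) :=
    (MonoidHom.noncommCoprod (lam t ι TH hTH) f2 hcomm).range
  have hA : ∀ a ∈ A, ∃ (h : H) (k : Ke), a = lam t ι TH hTH h * f2 k := by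
    rintro _ ⟨⟨h, k⟩, rfl⟩
    exact ⟨h, k, by simp⟩
  have hlamA : ∀ h : H, lam t ι TH hTH h ∈ A := fun h => ⟨(h, 1), by simp⟩
  have hpsiA : ∀ k : Ke, f2 k ∈ A := fun k => ⟨(1, k), by simp⟩
  have PH : ∀ s : ℕ → UU t TH (Q := Q), ∃ i j, i < j ∧ ∃ a ∈ A, s i = a (s j) := by
    intro s
    obtain ⟨f, hf⟩ := pigeon (hTH := hTH) hcov (Q := Q)
    have : Finite P0 := hP0
    obtain ⟨i, j, hij, hfe⟩ := Finite.exists_ne_map_eq_of_infinite (fun n => f (s n))
    rcases lt_or_gt_of_ne hij with h1 | h1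
    · obtain ⟨h, hh⟩ := hf _ _ hfe
      exact ⟨i, j, h1, _, hlamA h, hh⟩
    · obtain ⟨h, hh⟩ := hf _ _ hfe.symm
      exact ⟨j, i, h1, _, hlamA h, hh⟩
  let R0 : Set (UU t TH (Q := Q) × UU t TH (Q := Q)) := {x | ∃ (g : G) (h1 : g • p ∈ TH)
    (h2 : g • r ∈ TH), x = (⟨(g • p, (θ g)⁻¹), h1⟩, ⟨(g • r, (θ g)⁻¹), h2⟩)}
  have hinj : ∀ (q : t.N) (g g' : G), g • q = g' • q → (θ g)⁻¹ = (θ g')⁻¹ → g = g' := by
    intro q g g' h1 h2
    have h3 : g'⁻¹ * g = 1 := by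
      apply hst q
      · rw [MonoidHom.mem_ker, map_mul, map_inv, inv_injective h2, inv_mul_cancel]
      · rw [mul_smul, h1, inv_smul_smul]
    exact (inv_mul_eq_one.1 h3).symm
  have hR0 : PB A R0 := by
    refine ⟨?_, ?_, ?_⟩
    · intro a ha u v huv
      obtain ⟨h, ⟨k, hk⟩, rfl⟩ := hA a ha
      obtain ⟨g, h1, h2, he⟩ := huv
      obtain ⟨rfl, rfl⟩ := Prod.mk.inj he
      rw [hKe] at hk
      have e1 : (ι h * g * k⁻¹) • p = ι h • g • p := by
        rw [mul_smul, mul_smul, inv_smul_eq_iff.2 hk.1.symm]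
      have e2 : (ι h * g * k⁻¹) • r = ι h • g • r := by
        rw [mul_smul, mul_smul, inv_smul_eq_iff.2 hk.2.symm]
      refine ⟨ι h * g * k⁻¹, by rw [e1]; exact hTH _ _ h1, by rw [e2]; exact hTH _ _ h2, ?_⟩
      apply Prod.ext
      · apply UU.ext'
        · exact e1.symm
        · change θ k * (θ g)⁻¹ * (θ (ι h))⁻¹ = (θ (ι h * g * k⁻¹))⁻¹
          simp [mul_assoc]
      · apply UU.ext'
        · exact e2.symm
        · change θ k * (θ g)⁻¹ * (θ (ι h))⁻¹ = (θ (ι h * g * k⁻¹))⁻¹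
          simp [mul_assoc]
    · rintro u v v' ⟨g, h1, h2, he⟩ ⟨g', h1', h2', he'⟩
      replace he := Prod.mk.inj he
      replace he' := Prod.mk.inj he'
      have h3 : (⟨(g • p, (θ g)⁻¹), h1⟩ : UU t TH (Q := Q)) = ⟨(g' • p, (θ g')⁻¹), h1'⟩ := by
        rw [← he.1, ← he'.1]
      have h4 := congrArg (fun x : UU t TH (Q := Q) => x.1) h3
      replace h4 := Prod.mk.inj h4
      have h5 := hinj p g g' h4.1 h4.2
      subst h5
      rw [he.2, he'.2]
    · rintro u v v' ⟨g, h1, h2, he⟩ ⟨g', h1', h2', he'⟩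
      replace he := Prod.mk.inj he
      replace he' := Prod.mk.inj he'
      have h3 : (⟨(g • r, (θ g)⁻¹), h2⟩ : UU t TH (Q := Q)) = ⟨(g' • r, (θ g')⁻¹), h2'⟩ := by
        rw [← he.2, ← he'.2]
      have h4 := congrArg (fun x : UU t TH (Q := Q) => x.1) h3
      replace h4 := Prod.mk.inj h4
      have h5 := hinj r g g' h4.1 h4.2
      subst h5
      rw [he.1, he'.1]
  obtain ⟨w, hw1, hw2⟩ := extb A PH hR0
  refine ⟨⟨w, ?_⟩, ?_, ?_⟩
  · rintro _ ⟨h, rfl⟩
    exact hw1 _ (hlamA h)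
  · intro a ha1 ha2
    apply Subtype.ext
    exact hw1 _ (hpsiA ⟨a, (hKe a).2 ⟨ha1, ha2⟩⟩)
  · intro g h1 h2
    exact hw2 _ _ ⟨g, h1, h2, rfl⟩

theorem RR_smul (g : G) (p r : t.N) (w : WW t ι TH hTH) (h : RR t ι TH hTH p r w) :
    RR t ι TH hTH (g • p) (g • r) (psi t ι TH hTH (θ g) * w * (psi t ι TH hTH (θ g))⁻¹) := by
  refine ⟨?_, ?_⟩
  · intro a ha1 ha2
    have h1 := h.1 (g⁻¹ * a * g) (by rw [mul_smul, mul_smul, ha1, inv_smul_smul])
      (by rw [mul_smul, mul_smul, ha2, inv_smul_smul])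
    simp only [map_mul, map_inv] at h1
    have h2 : psi t ι TH hTH (θ a) * (psi t ι TH hTH (θ g) * w * (psi t ι TH hTH (θ g))⁻¹) =
        psi t ι TH hTH (θ g) * ((psi t ι TH hTH (θ g))⁻¹ * psi t ι TH hTH (θ a) *
          psi t ι TH hTH (θ g) * w) * (psi t ι TH hTH (θ g))⁻¹ := by group
    rw [h2, h1]
    group
  · intro g' h1 h2
    have h3 := h.2 (g' * g) (by rwa [mul_smul]) (by rwa [mul_smul])
    have e1 : ((psi t ι TH hTH (θ g))⁻¹).1 (⟨(g' • g • p, (θ g')⁻¹), h1⟩ : UU t TH (Q := Q)) =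
        ⟨((g' * g) • p, (θ (g' * g))⁻¹), by rwa [mul_smul]⟩ := by
      apply UU.ext'
      · exact (mul_smul _ _ _).symm
      · change (θ g)⁻¹ * (θ g')⁻¹ = _
        simp
    change (psi t ι TH hTH (θ g)).1 (w.1 (((psi t ι TH hTH (θ g))⁻¹).1 _)) = _
    rw [e1, h3]
    apply UU.ext'
    · exact mul_smul _ _ _
    · change θ g * (θ (g' * g))⁻¹ = (θ g')⁻¹
      simp

end

end Pool.Agent.U843.LR
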