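import Mathlib

set_option autoImplicit false

/-!
# Edge cuts in connected graphs: submodularity, finiteness of tight cuts, crossing
-/

namespace Pool.Agent.U843.LR

open SimpleGraph

variable {Ω : Type}

/-- directed coboundary of a set of vertices -/
def D (X : SimpleGraph Ω) (A : Set Ω) : Set (Ω × Ω) := {e | X.Adj e.1 e.2 ∧ e.1 ∈ A ∧ e.2 ∉ A}

/-- both sides are connected -/
def Tight (X : SimpleGraph Ω) (A : Set Ω) : Prop :=
  (X.induce A).Preconnected ∧ (X.induce Aᶜ).Preconnected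

/-- one of the four corners is empty -/
def Nested (A B : Set Ω) : Prop :=
  A ∩ B = ∅ ∨ A ∩ Bᶜ = ∅ ∨ Aᶜ ∩ B = ∅ ∨ Aᶜ ∩ Bᶜ = ∅

theorem Nested.symm {A B : Set Ω} (h : Nested A B) : Nested B A := by
  unfold Nested at *
  rw [Set.inter_comm B A, Set.inter_comm B Aᶜ, Set.inter_comm Bᶜ A, Set.inter_comm Bᶜ Aᶜ]
  tauto

theorem nested_comm {A B : Set Ω} : Nested A B ↔ Nested B A := ⟨Nested.symm, Nested.symm⟩

theorem nested_compl_left {A B : Set Ω} : Nested Aᶜ B ↔ Nested A B := by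
  unfold Nested
  rw [compl_compl]
  tauto

theorem nested_compl_right {A B : Set Ω} : Nested A Bᶜ ↔ Nested A B := by
  rw [nested_comm, nested_compl_left, nested_comm]

theorem D_compl (X : SimpleGraph Ω) (A : Set Ω) : D X Aᶜ = Prod.swap '' D X A := by
  ext ⟨x, y⟩
  simp only [D, Set.mem_ofPred_eq, Set.mem_compl_iff, not_not, Set.mem_image, Prod.exists,
    Prod.swap_prod_mk, Prod.mk.injEq]
  constructor
  · rintro ⟨h1, h2, h3⟩
    exact ⟨y, x, ⟨h1.symm, h3, h2⟩, rfl, rfl⟩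
  · rintro ⟨a, b, ⟨h1, h2, h3⟩, rfl, rfl⟩
    exact ⟨h1.symm, h3, h2⟩

theorem D_compl_finite {X : SimpleGraph Ω} {A : Set Ω} (h : (D X A).Finite) : (D X Aᶜ).Finite := by
  rw [D_compl]
  exact h.image _

theorem D_compl_ncard (X : SimpleGraph Ω) (A : Set Ω) : (D X Aᶜ).ncard = (D X A).ncard := by
  rw [D_compl]
  exact Set.ncard_image_of_injective _ Prod.swap_injective

theorem D_inter_subset (X : SimpleGraph Ω) (A B : Set Ω) : D X (A ∩ B) ⊆ D X A ∪ D X B := by
  rintro ⟨x, y⟩ ⟨h1, h2, h3⟩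
  simp only [Set.mem_inter_iff] at h2 h3
  by_cases hy : y ∈ A
  · right
    exact ⟨h1, h2.2, fun h => h3 ⟨hy, h⟩⟩
  · left
    exact ⟨h1, h2.1, hy⟩

theorem D_union_subset (X : SimpleGraph Ω) (A B : Set Ω) : D X (A ∪ B) ⊆ D X A ∪ D X B := by
  rintro ⟨x, y⟩ ⟨h1, h2, h3⟩
  simp only [Set.mem_union, not_or] at h2 h3
  rcases h2 with h2 | h2
  · left; exact ⟨h1, h2, h3.1⟩
  · right; exact ⟨h1, h2, h3.2⟩

theorem D_inter_finite {X : SimpleGraph Ω} {A B : Set Ω} (hA : (D X A).Finite)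
    (hB : (D X B).Finite) : (D X (A ∩ B)).Finite :=
  (hA.union hB).subset (D_inter_subset X A B)

theorem D_union_finite {X : SimpleGraph Ω} {A B : Set Ω} (hA : (D X A).Finite)
    (hB : (D X B).Finite) : (D X (A ∪ B)).Finite :=
  (hA.union hB).subset (D_union_subset X A B)

theorem D_submod {X : SimpleGraph Ω} {A B : Set Ω} (hA : (D X A).Finite) (hB : (D X B).Finite) :
    (D X (A ∩ B)).ncard + (D X (A ∪ B)).ncard ≤ (D X A).ncard + (D X B).ncard := by
  rw [← Set.ncard_union_add_ncard_inter _ _ (D_inter_finite hA hB) (D_union_finite hA hB),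
    ← Set.ncard_union_add_ncard_inter _ _ hA hB]
  apply Nat.add_le_add
  · apply Set.ncard_le_ncard _ (hA.union hB)
    exact Set.union_subset (D_inter_subset X A B) (D_union_subset X A B)
  · apply Set.ncard_le_ncard _ (hA.inter_of_left _)
    rintro ⟨x, y⟩ ⟨⟨h1, h2, h3⟩, ⟨-, h5, h6⟩⟩
    simp only [Set.mem_union, not_or] at h6
    exact ⟨⟨h1, h2.1, h6.1⟩, ⟨h1, h2.2, h6.2⟩⟩

/-- Finiteness of the number of tight cuts of given size through an edge (Dunwoody). -/
theorem tcf (k : ℕ) : ∀ (X : SimpleGraph Ω) (x y : Ω), X.Adj x y →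
    {A : Set Ω | x ∈ A ∧ y ∉ A ∧ Tight X A ∧ (D X A).Finite ∧ (D X A).ncard = k}.Finite := by
  induction k with
  | zero =>
    intro X x y hxy
    convert Set.finite_empty
    ext A
    simp only [Set.mem_ofPred_eq, Set.mem_empty_iff_false, iff_false]
    rintro ⟨h1, h2, -, h4, h5⟩
    rw [Set.ncard_eq_zero h4] at h5
    have : (x, y) ∈ D X A := ⟨hxy, h1, h2⟩
    rw [h5] at this
    exact this
  | succ k ih =>
    intro X x y hxy
    let X' := X.deleteEdges {s(x, y)}
    have hadj' : ∀ a b, X'.Adj a b ↔ X.Adj a b ∧ s(a, b) ≠ s(x, y) := by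
      intro a b
      simp only [X', deleteEdges_adj, Set.mem_singleton_iff, ne_eq]
    have hind : ∀ A : Set Ω, (x ∉ A ∨ y ∉ A) → X'.induce A = X.induce A := by
      intro A hA
      ext ⟨a, ha⟩ ⟨b, hb⟩
      simp only [comap_adj, Function.Embedding.subtype_apply]
      rw [hadj']
      constructor
      · exact fun h => h.1
      · intro h
        refine ⟨h, fun h2 => ?_⟩
        rw [Sym2.eq_iff] at h2
        rcases h2 with ⟨rfl, rfl⟩ | ⟨rfl, rfl⟩
        · rcases hA with hA | hA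
          · exact hA ha
          · exact hA hb
        · rcases hA with hA | hA
          · exact hA hb
          · exact hA ha
    have htight : ∀ A : Set Ω, x ∈ A → y ∉ A → Tight X A → Tight X' A := by
      intro A hx hy h
      refine ⟨?_, ?_⟩
      · rw [hind A (Or.inr hy)]; exact h.1
      · rw [hind Aᶜ (Or.inl (fun h => h hx))]; exact h.2
    by_cases hr : X'.Reachable x y
    · obtain ⟨P⟩ := hr
      have hfin : (⋃ d ∈ {d : X'.Dart | d ∈ P.darts},
          {A : Set Ω | d.fst ∈ A ∧ d.snd ∉ A ∧ Tight X' A ∧ (D X' A).Finite ∧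
            (D X' A).ncard = k}).Finite := by
        apply Set.Finite.biUnion
        · exact List.finite_toSet P.darts
        · intro d _
          exact ih X' d.fst d.snd d.adj
      apply hfin.subset
      rintro A ⟨h1, h2, h3, h4, h5⟩
      obtain ⟨d, hd, hd1, hd2⟩ := P.exists_boundary_dart A h1 h2
      have hD : D X' A = D X A \ {(x, y)} := by
        ext ⟨a, b⟩
        simp only [D, Set.mem_ofPred_eq, Set.mem_sdiff, Set.mem_singleton_iff, Prod.mk.injEq]
        rw [hadj']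
        constructor
        · rintro ⟨⟨q1, q2⟩, q3, q4⟩
          refine ⟨⟨q1, q3, q4⟩, ?_⟩
          rintro ⟨rfl, rfl⟩
          exact q2 rfl
        · rintro ⟨⟨q1, q3, q4⟩, q5⟩
          refine ⟨⟨q1, ?_⟩, q3, q4⟩
          intro h
          rw [Sym2.eq_iff] at h
          rcases h with h | ⟨rfl, rfl⟩
          · exact q5 h
          · exact q4 h1
      simp only [Set.mem_iUnion, Set.mem_ofPred_eq]
      refine ⟨d, hd, hd1, hd2, htight A h1 h2 h3, ?_, ?_⟩
      · rw [hD]; exact h4.sdiff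
      · rw [hD, Set.ncard_sdiff_singleton_of_mem (show (x, y) ∈ D X A from ⟨hxy, h1, h2⟩), h5]
        rfl
    · apply (Set.finite_singleton {z | X'.Reachable x z}).subset
      rintro A ⟨h1, h2, h3, h4, h5⟩
      rw [Set.mem_singleton_iff]
      have ht := htight A h1 h2 h3
      ext z
      simp only [Set.mem_ofPred_eq]
      constructor
      · intro hz
        have := ht.1 ⟨x, h1⟩ ⟨z, hz⟩
        exact this.map (Embedding.induce A).toHom
      · intro hz
        by_contra hzA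
        have h6 := ht.2 ⟨y, h2⟩ ⟨z, hzA⟩
        have h7 : X'.Reachable y z := h6.map (Embedding.induce Aᶜ).toHom
        exact hr (hz.trans h7.symm)

/-- tight cuts of size at most `K` -/
def TK (X : SimpleGraph Ω) (K : ℕ) (B : Set Ω) : Prop :=
  Tight X B ∧ (D X B).Finite ∧ (D X B).ncard ≤ K

theorem TK.compl {X : SimpleGraph Ω} {K : ℕ} {B : Set Ω} (h : TK X K B) : TK X K Bᶜ := by
  refine ⟨⟨h.1.2, ?_⟩, D_compl_finite h.2.1, ?_⟩
  · rw [compl_compl]; exact h.1.1
  · rw [D_compl_ncard]; exact h.2.2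

theorem tk_edge (X : SimpleGraph Ω) (K : ℕ) {x y : Ω} (h : X.Adj x y) :
    {B : Set Ω | TK X K B ∧ x ∈ B ∧ y ∉ B}.Finite := by
  have : (⋃ k ∈ {k : ℕ | k ≤ K}, {A : Set Ω | x ∈ A ∧ y ∉ A ∧ Tight X A ∧ (D X A).Finite ∧
      (D X A).ncard = k}).Finite := by
    apply Set.Finite.biUnion (Set.finite_le_nat K)
    intro k _
    exact tcf k X x y h
  apply this.subset
  rintro B ⟨⟨h1, h2, h3⟩, h4, h5⟩
  simp only [Set.mem_iUnion]
  exact ⟨_, h3, h4, h5, h1, h2, rfl⟩

theorem tk_sep (X : SimpleGraph Ω) (hX : X.Preconnected) (K : ℕ) (x y : Ω) :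
    {B : Set Ω | TK X K B ∧ x ∈ B ∧ y ∉ B}.Finite := by
  obtain ⟨P⟩ := hX x y
  have : (⋃ d ∈ {d : X.Dart | d ∈ P.darts}, {B : Set Ω | TK X K B ∧ d.fst ∈ B ∧ d.snd ∉ B}).Finite := by
    apply Set.Finite.biUnion (List.finite_toSet P.darts)
    intro d _
    exact tk_edge X K d.adj
  apply this.subset
  rintro B ⟨h1, h2, h3⟩
  obtain ⟨d, hd, hd1, hd2⟩ := P.exists_boundary_dart B h2 h3
  simp only [Set.mem_iUnion]
  exact ⟨d, hd, h1, hd1, hd2⟩

theorem nested_of_disjoint_ends {X : SimpleGraph Ω} {A B : Set Ω} (hB : (X.induce B).Preconnected)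
    (h : ∀ e ∈ D X A, ¬ (e.1 ∈ B ∧ e.2 ∈ B)) : Nested B A := by
  by_contra hn
  unfold Nested at hn
  push Not at hn
  obtain ⟨⟨a, ha1, ha2⟩, ⟨b, hb1, hb2⟩, -, -⟩ := hn
  obtain ⟨P⟩ := hB ⟨a, ha1⟩ ⟨b, hb1⟩
  obtain ⟨d, hd, hd1, hd2⟩ := P.exists_boundary_dart {z | (z : Ω) ∈ A} ha2 hb2
  apply h (d.fst.1, d.snd.1)
  · exact ⟨d.adj, hd1, hd2⟩
  · exact ⟨d.fst.2, d.snd.2⟩

/-- Only finitely many tight cuts of bounded size cross a given cut. -/
theorem cross_finite (X : SimpleGraph Ω) (hX : X.Preconnected) (K : ℕ) {A : Set Ω}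
    (hA : (D X A).Finite) : {B : Set Ω | TK X K B ∧ ¬ Nested B A}.Finite := by
  rcases (D X A).eq_empty_or_nonempty with h0 | ⟨e0, he0⟩
  · convert Set.finite_empty
    ext B
    simp only [Set.mem_ofPred_eq, Set.mem_empty_iff_false, iff_false, not_and, not_not]
    intro hB
    apply nested_of_disjoint_ends hB.1.1
    intro e he
    rw [h0] at he
    exact absurd he (by simp)
  · let P : Set Ω := Prod.fst '' (D X A) ∪ Prod.snd '' (D X A)
    have hP : P.Finite := (hA.image _).union (hA.image _)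
    have hfin : (⋃ z ∈ P, ({B : Set Ω | TK X K B ∧ e0.1 ∈ B ∧ z ∉ B} ∪
        {B : Set Ω | TK X K B ∧ z ∈ B ∧ e0.1 ∉ B})).Finite := by
      apply Set.Finite.biUnion hP
      intro z _
      exact (tk_sep X hX K _ _).union (tk_sep X hX K _ _)
    apply hfin.subset
    rintro B ⟨hB, hn⟩
    by_contra hc
    simp only [Set.mem_iUnion, Set.mem_union, Set.mem_ofPred_eq, not_exists, not_or, not_and,
      not_not] at hc
    have hc1 : ∀ z ∈ P, (e0.1 ∈ B ↔ z ∈ B) := by
      intro z hz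
      obtain ⟨h1, h2⟩ := hc z hz
      exact ⟨fun h => h1 hB h, fun h => h2 hB h⟩
    apply hn
    by_cases he : e0.1 ∈ B
    · rw [← nested_compl_left]
      apply nested_of_disjoint_ends hB.1.2
      intro e hee h
      exact h.1 ((hc1 e.1 (Or.inl ⟨e, hee, rfl⟩)).1 he)
    · apply nested_of_disjoint_ends hB.1.1
      intro e hee h
      exact he ((hc1 e.1 (Or.inl ⟨e, hee, rfl⟩)).2 h.1)

/-! ### crossing and corners -/

theorem nested_iff {A B : Set Ω} : Nested A B ↔
    (∀ x ∈ A, x ∉ B) ∨ (∀ x ∈ A, x ∈ B) ∨ (∀ x, x ∉ A → x ∉ B) ∨ (∀ x, x ∉ A → x ∈ B) := by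
  unfold Nested
  simp only [Set.eq_empty_iff_forall_notMem, Set.mem_inter_iff, Set.mem_compl_iff, not_and, not_not]

theorem nested_inter_union {A B C : Set Ω} (hAB : ¬ Nested A B) (hA : Nested C A)
    (hB : Nested C B) : Nested C (A ∩ B) ∧ Nested C (A ∪ B) := by
  rw [nested_iff] at *
  push Not at hAB
  obtain ⟨⟨p, p1, p2⟩, ⟨q, q1, q2⟩, ⟨r, r1, r2⟩, ⟨s, s1, s2⟩⟩ := hAB
  simp only [nested_iff, Set.mem_inter_iff, Set.mem_union, not_and, not_or]
  rcases hA with hA | hA | hA | hA <;> rcases hB with hB | hB | hB | hB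
  · exact ⟨Or.inl fun x hx h => absurd h (hA x hx), Or.inl fun x hx => ⟨hA x hx, hB x hx⟩⟩
  · exact ⟨Or.inl fun x hx h => absurd h (hA x hx), Or.inr (Or.inl fun x hx => Or.inr (hB x hx))⟩
  · exfalso
    by_cases hp : p ∈ C
    · exact hA p hp p1
    · exact hB p hp p2
  · exact ⟨Or.inl fun x hx h => absurd h (hA x hx),
      Or.inr (Or.inr (Or.inr fun x hx => Or.inr (hB x hx)))⟩
  · exact ⟨Or.inl fun x hx h => hB x hx, Or.inr (Or.inl fun x hx => Or.inl (hA x hx))⟩
  · exact ⟨Or.inr (Or.inl fun x hx => ⟨hA x hx, hB x hx⟩),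
      Or.inr (Or.inl fun x hx => Or.inl (hA x hx))⟩
  · exact ⟨Or.inr (Or.inr (Or.inl fun x hx _ => hB x hx)),
      Or.inr (Or.inl fun x hx => Or.inl (hA x hx))⟩
  · exfalso
    by_cases hp : s ∈ C
    · exact s1 (hA s hp)
    · exact s2 (hB s hp)
  · exfalso
    by_cases hp : p ∈ C
    · exact hB p hp p2
    · exact hA p hp p1
  · exact ⟨Or.inr (Or.inr (Or.inl fun x hx h => absurd h (hA x hx))),
      Or.inr (Or.inl fun x hx => Or.inr (hB x hx))⟩
  · exact ⟨Or.inr (Or.inr (Or.inl fun x hx h => absurd h (hA x hx))),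
      Or.inr (Or.inr (Or.inl fun x hx => ⟨hA x hx, hB x hx⟩))⟩
  · exact ⟨Or.inr (Or.inr (Or.inl fun x hx h => absurd h (hA x hx))),
      Or.inr (Or.inr (Or.inr fun x hx => Or.inr (hB x hx)))⟩
  · exact ⟨Or.inl fun x hx h => hB x hx, Or.inr (Or.inr (Or.inr fun x hx => Or.inl (hA x hx)))⟩
  · exfalso
    by_cases hp : s ∈ C
    · exact s2 (hB s hp)
    · exact s1 (hA s hp)
  · exact ⟨Or.inr (Or.inr (Or.inl fun x hx _ => hB x hx)),
      Or.inr (Or.inr (Or.inr fun x hx => Or.inl (hA x hx)))⟩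
  · exact ⟨Or.inr (Or.inr (Or.inr fun x hx => ⟨hA x hx, hB x hx⟩)),
      Or.inr (Or.inr (Or.inr fun x hx => Or.inl (hA x hx)))⟩

theorem nested_inter_or_union {A B C : Set Ω} (hA : Nested C A) :
    Nested C (A ∩ B) ∨ Nested C (A ∪ B) := by
  rw [nested_iff] at hA
  simp only [nested_iff, Set.mem_inter_iff, Set.mem_union, not_and, not_or]
  rcases hA with hA | hA | hA | hA
  · exact Or.inl (Or.inl fun x hx h => absurd h (hA x hx))
  · exact Or.inr (Or.inr (Or.inl fun x hx => Or.inl (hA x hx)))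
  · exact Or.inl (Or.inr (Or.inr (Or.inl fun x hx h => absurd h (hA x hx))))
  · exact Or.inr (Or.inr (Or.inr (Or.inr fun x hx => Or.inl (hA x hx))))

theorem nested_inter_or_union' {A B C : Set Ω} (hB : Nested C B) :
    Nested C (A ∩ B) ∨ Nested C (A ∪ B) := by
  rw [Set.inter_comm, Set.union_comm]
  exact nested_inter_or_union hB

theorem nested_self_inter (A B : Set Ω) : Nested A (A ∩ B) := by
  rw [nested_iff]
  exact Or.inr (Or.inr (Or.inl fun x hx h => hx h.1))

theorem nested_self_union (A B : Set Ω) : Nested A (A ∪ B) := by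
  rw [nested_iff]
  exact Or.inr (Or.inl fun x hx => Or.inl hx)

/-- the members of `T` that cross `A` -/
def cr (T : Set (Set Ω)) (A : Set Ω) : Set (Set Ω) := {C | C ∈ T ∧ ¬ Nested C A}

theorem cr_compl (T : Set (Set Ω)) (A : Set Ω) : cr T Aᶜ = cr T A := by
  ext C
  simp only [cr, Set.mem_ofPred_eq, nested_compl_right]

theorem cr_lt {T : Set (Set Ω)} {A B : Set Ω} (hAB : ¬ Nested A B) (hAT : A ∈ T)
    (hA : (cr T A).Finite) (hB : (cr T B).Finite) :
    (cr T (A ∩ B)).ncard + (cr T (A ∪ B)).ncard < (cr T A).ncard + (cr T B).ncard := by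
  have h1 : cr T (A ∩ B) ∪ cr T (A ∪ B) ⊆ (cr T A ∪ cr T B) \ {A} := by
    intro C hC
    constructor
    · by_contra hc
      simp only [cr, Set.mem_union, Set.mem_ofPred_eq, not_or, not_and, not_not] at hc hC
      rcases hC with hC | hC
      · exact hC.2 (nested_inter_union hAB (hc.1 hC.1) (hc.2 hC.1)).1
      · exact hC.2 (nested_inter_union hAB (hc.1 hC.1) (hc.2 hC.1)).2
    · rintro rfl
      rcases hC with hC | hC
      · exact hC.2 (nested_self_inter _ _)
      · exact hC.2 (nested_self_union _ _)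
  have h2 : cr T (A ∩ B) ∩ cr T (A ∪ B) ⊆ cr T A ∩ cr T B := by
    rintro C ⟨⟨h3, h4⟩, ⟨-, h5⟩⟩
    refine ⟨⟨h3, fun h => ?_⟩, ⟨h3, fun h => ?_⟩⟩
    · rcases nested_inter_or_union (B := B) h with h | h
      · exact h4 h
      · exact h5 h
    · rcases nested_inter_or_union' (A := A) h with h | h
      · exact h4 h
      · exact h5 h
  have hf : (cr T (A ∩ B) ∪ cr T (A ∪ B)).Finite := ((hA.union hB).sdiff).subset h1
  have hmem : A ∈ cr T A ∪ cr T B := Or.inr ⟨hAT, hAB⟩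
  rw [← Set.ncard_union_add_ncard_inter _ _ (hf.subset Set.subset_union_left)
      (hf.subset Set.subset_union_right), ← Set.ncard_union_add_ncard_inter _ _ hA hB]
  apply Nat.add_lt_add_of_lt_of_le
  · calc _ ≤ ((cr T A ∪ cr T B) \ {A}).ncard := Set.ncard_le_ncard h1 (hA.union hB).sdiff
      _ < _ := Set.ncard_sdiff_singleton_lt_of_mem hmem (hA.union hB)
  · exact Set.ncard_le_ncard h2 (hA.inter_of_left _)

end Pool.Agent.U843.LR
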