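import Pool.Agent.U843.LR.Rel
import Pool.Agent.U843.LR.Glue

set_option autoImplicit false

/-!
# Extension of homomorphisms from a vertex stabiliser
-/

namespace Pool.Agent.U843.LR

open SimpleGraph

variable {G W : Type} [Group G] [Group W]

theorem finite_of_inf_bot {F : Subgroup G} (hF : F.FiniteIndex) {C : Subgroup G}
    (hC : C ⊓ F = ⊥) : Finite C := by
  have : Finite (G ⧸ F) := Subgroup.finite_quotient_of_finiteIndex
  apply Finite.of_injective (fun c : C => (QuotientGroup.mk (c : G) : G ⧸ F))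
  intro a b hab
  have h1 : (a : G)⁻¹ * b ∈ C ⊓ F :=
    ⟨C.mul_mem (C.inv_mem a.2) b.2, QuotientGroup.eq.1 hab⟩
  rw [hC, Subgroup.mem_bot] at h1
  exact Subtype.ext (inv_mul_eq_one.1 h1)

theorem ext_hom (F : Subgroup G) (hF : F.Normal) (hfi : F.FiniteIndex) (t : GTree G F)
    (p0 : t.N) (V : Subgroup G) (hV : ∀ g : G, g • p0 = p0 ↔ g ∈ V) (Ψ : G →* W) (φ : V →* W)
    (hφ : ∀ C : Subgroup G, C ⊓ F = ⊥ → ∀ h : C ≤ V, ∃ w : W, ∀ (c : G) (hc : c ∈ C),
      φ ⟨c, h hc⟩ = w * Ψ c * w⁻¹) :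
    ∃ φ' : G →* W, (∀ v : V, φ' v = φ v) ∧
      ∀ C : Subgroup G, C ⊓ F = ⊥ → ∃ w : W, ∀ c ∈ C, φ' c = w * Ψ c * w⁻¹ := by
  classical
  let orb : t.N → Prop := fun p => ∃ g : G, g • p0 = p
  have horb : ∀ (g : G) p, orb (g • p) ↔ orb p := by
    intro g p
    constructor
    · rintro ⟨a, ha⟩
      exact ⟨g⁻¹ * a, by rw [mul_smul, ha, inv_smul_smul]⟩
    · rintro ⟨a, ha⟩
      exact ⟨g * a, by rw [mul_smul, ha]⟩
  have hs : ∃ s : t.N → G, s p0 = 1 ∧ ∀ p, orb p → s p • p0 = p := by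
    have : ∀ p, ∃ g : G, orb p → g • p0 = p := by
      intro p
      by_cases h : orb p
      · obtain ⟨g, hg⟩ := h
        exact ⟨g, fun _ => hg⟩
      · exact ⟨1, fun h' => absurd h' h⟩
    choose s hs using this
    refine ⟨fun p => if p = p0 then 1 else s p, by simp, ?_⟩
    intro p hp
    by_cases h : p = p0
    · simp [h]
    · simp only [h, if_false]
      exact hs p hp
  obtain ⟨s, hs0, hs⟩ := hs
  let φt : G → W := fun g => if h : g ∈ V then φ ⟨g, h⟩ else 1
  have hφt : ∀ a b, a ∈ V → b ∈ V → φt (a * b) = φt a * φt b := by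
    intro a b ha hb
    simp only [φt, dif_pos ha, dif_pos hb, dif_pos (V.mul_mem ha hb)]
    rw [← map_mul]
    rfl
  let c : G → t.N → W := fun g p => if orb p then φt ((s (g • p))⁻¹ * g * s p) else Ψ g
  have hmem : ∀ (g : G) p, orb p → (s (g • p))⁻¹ * g * s p ∈ V := by
    intro g p hp
    rw [← hV, mul_smul, mul_smul, hs p hp, inv_smul_eq_iff, hs _ ((horb g p).2 hp)]
  have hc : ∀ g h p, c (g * h) p = c g (h • p) * c h p := by
    intro g h p
    by_cases hp : orb p
    · have hp' : orb (h • p) := (horb h p).2 hp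
      simp only [c, if_pos hp, if_pos hp']
      rw [← hφt _ _ (hmem g _ hp') (hmem h _ hp)]
      congr 1
      rw [mul_smul]
      group
    · have hp' : ¬ orb (h • p) := fun h' => hp ((horb h p).1 h')
      simp only [c, if_neg hp, if_neg hp', map_mul]
  -- the local comparison with `Ψ`
  have loc : ∀ (K : Subgroup G) (p : t.N), (∀ a ∈ K, a • p = p) → K ⊓ F = ⊥ →
      ∃ w : W, ∀ a ∈ K, c a p = w * Ψ a * w⁻¹ := by
    intro K p hK hKF
    by_cases hp : orb p
    · let C : Subgroup G := K.map (MulAut.conj (s p)⁻¹).toMonoidHom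
      have hCmem : ∀ a ∈ K, (s p)⁻¹ * a * s p ∈ C := by
        intro a ha
        refine ⟨a, ha, ?_⟩
        simp
      have hCV : C ≤ V := by
        rintro _ ⟨a, ha, rfl⟩
        simp only [MulEquiv.coe_toMonoidHom, MulAut.conj_apply, inv_inv]
        rw [← hV, mul_smul, mul_smul, hs p hp, hK a ha, inv_smul_eq_iff, hs p hp]
      have hCF : C ⊓ F = ⊥ := by
        rw [eq_bot_iff]
        rintro _ ⟨⟨a, ha, rfl⟩, hx⟩
        simp only [MulEquiv.coe_toMonoidHom, MulAut.conj_apply, inv_inv] at hx ⊢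
        have h1 : a ∈ K ⊓ F := by
          refine ⟨ha, ?_⟩
          have := hF.conj_mem _ hx (s p)
          have e : s p * ((s p)⁻¹ * a * s p) * (s p)⁻¹ = a := by group
          rwa [e] at this
        rw [hKF, Subgroup.mem_bot] at h1
        rw [h1]
        simp
      obtain ⟨w, hw⟩ := hφ C hCF hCV
      refine ⟨w * (Ψ (s p))⁻¹, fun a ha => ?_⟩
      have h2 := hw _ (hCmem a ha)
      simp only [c, if_pos hp, hK a ha, φt]
      rw [dif_pos (hCV (hCmem a ha)), h2]
      simp only [map_mul, map_inv]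
      group
    · exact ⟨1, fun a _ => by simp [c, if_neg hp]⟩
  obtain ⟨τ, hτ1, hτ2, -⟩ := edge_choice (G := G) (W := W) (N := t.N) (T := t.T) c hc t.inv
    t.typ t.typ_smul t.typ_adj
    (fun p q w => ∀ a : G, a • p = p → a • q = q → c a q * w = w * c a p)
    (by
      intro p q hpq _
      let K : Subgroup G := MulAction.stabilizer G p ⊓ MulAction.stabilizer G q
      have hK : ∀ a : G, a ∈ K ↔ a • p = p ∧ a • q = q := fun a => by
        simp [K, Subgroup.mem_inf, MulAction.mem_stabilizer_iff]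
      have hKF : K ⊓ F = ⊥ := by
        rw [eq_bot_iff]
        rintro a ⟨ha, hf⟩
        obtain ⟨h1, h2⟩ := (hK a).1 ha
        exact t.edge p q hpq a hf h1 h2
      obtain ⟨w1, hw1⟩ := loc K p (fun a ha => ((hK a).1 ha).1) hKF
      obtain ⟨w2, hw2⟩ := loc K q (fun a ha => ((hK a).1 ha).2) hKF
      refine ⟨w2 * w1⁻¹, fun a h1 h2 => ?_⟩
      rw [hw1 a ((hK a).2 ⟨h1, h2⟩), hw2 a ((hK a).2 ⟨h1, h2⟩)]
      group)
    (by
      intro g p q w h a h1 h2
      have h3 := h (g⁻¹ * a * g) (by rw [mul_smul, mul_smul, h1, inv_smul_smul])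
        (by rw [mul_smul, mul_smul, h2, inv_smul_smul])
      have key : ∀ p, a • g • p = g • p → c a (g • p) * c g p = c g p * c (g⁻¹ * a * g) p := by
        intro p hp
        have e1 : (g⁻¹ * a * g) • p = p := by rw [mul_smul, mul_smul, hp, inv_smul_smul]
        have e2 := hc g (g⁻¹ * a * g) p
        rw [e1] at e2
        rw [← hc, ← e2]
        congr 1
        group
      have k1 := key p h1
      have k2 := key q h2
      have k3 : c a (g • p) = c g p * c (g⁻¹ * a * g) p * (c g p)⁻¹ := by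
        rw [← k1]; group
      rw [k3, ← mul_assoc, ← mul_assoc, k2, mul_assoc _ (c (g⁻¹ * a * g) q), h3]
      group)
    (fun p q w h => h)
  obtain ⟨φ', σ, hσ0, -, hσ2⟩ := glue (G := G) (W := W) t.tree t.inv c hc τ hτ1 hτ2 p0
  refine ⟨φ', ?_, ?_⟩
  · intro v
    have h1 := hσ2 (v : G) p0
    have h2 : (v : G) • p0 = p0 := (hV v).2 v.2
    rw [h2, hσ0, one_mul, mul_one] at h1
    rw [h1]
    have hp0 : orb p0 := ⟨1, one_smul _ _⟩
    simp only [c, if_pos hp0, h2, hs0, inv_one, one_mul, mul_one, φt, dif_pos v.2]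
  · intro C hC
    have := finite_of_inf_bot hfi hC
    obtain ⟨p, hp⟩ := t.fixed C this
    obtain ⟨w, hw⟩ := loc C p hp hC
    refine ⟨(σ p)⁻¹ * w, fun a ha => ?_⟩
    have h1 := hσ2 a p
    rw [hp a ha, hw a ha] at h1
    have h2 : φ' a = (σ p)⁻¹ * (σ p * φ' a) := by group
    rw [h2, h1]
    group

end Pool.Agent.U843.LR
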