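import Pool.Agent.U843.LR.Tree

set_option autoImplicit false

/-!
# A finite group acting on the structure tree fixes a node
-/

namespace Pool.Agent.U843.LR

open SimpleGraph Pointwise

variable {G Ω : Type} [Group G] [MulAction G Ω]

/-- elements of `C` mapping `ω` into `B` -/
def hh (C : Subgroup G) (ω : Ω) (B : Set Ω) : Set C := {a | (a : G) • ω ∈ B}

/-- number of elements -/
noncomputable def wt (C : Subgroup G) (ω : Ω) (B : Set Ω) : ℕ := (hh C ω B).ncard

theorem wt_mono {C : Subgroup G} [Finite C] {ω : Ω} {A B : Set Ω} (h : A ⊆ B) :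
    wt C ω A ≤ wt C ω B :=
  Set.ncard_le_ncard (fun _ ha => h ha) (Set.toFinite _)

theorem wt_compl {C : Subgroup G} [Finite C] {ω : Ω} (A : Set Ω) :
    wt C ω A + wt C ω Aᶜ = Nat.card C := by
  have : hh C ω Aᶜ = (hh C ω A)ᶜ := by
    ext a
    simp [hh]
  unfold wt
  rw [this]
  exact Set.ncard_add_ncard_compl _ (Set.toFinite _) (Set.toFinite _)

theorem wt_smul {C : Subgroup G} {ω : Ω} (A : Set Ω) (c : G) (hc : c ∈ C) :
    wt C ω (c • A) = wt C ω A := by
  have : hh C ω (c • A) = (fun a : C => (⟨c, hc⟩ : C) * a) '' hh C ω A := by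
    ext a
    simp only [hh, Set.mem_ofPred_eq, Set.mem_image]
    constructor
    · intro h
      refine ⟨(⟨c, hc⟩ : C)⁻¹ * a, ?_, by simp⟩
      rw [Set.mem_smul_set_iff_inv_smul_mem] at h
      simp only [Subgroup.coe_mul, Subgroup.coe_inv]
      rw [mul_smul]
      exact h
    · rintro ⟨b, hb, rfl⟩
      rw [Set.mem_smul_set_iff_inv_smul_mem]
      simp only [Subgroup.coe_mul]
      rw [mul_smul, inv_smul_smul]
      exact hb
  unfold wt
  rw [this]
  exact Set.ncard_image_of_injective _ (mul_right_injective _)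

variable {F : Subgroup G} {E : Set (Set Ω)}

/-- undecided members -/
def ties (E : Set (Set Ω)) (C : Subgroup G) (ω : Ω) : Set (Set Ω) :=
  {B | B ∈ E ∧ 2 * wt C ω B = Nat.card C}

theorem wt_pos_mem {C : Subgroup G} {ω : Ω} {B : Set Ω} (h : 0 < wt C ω B) :
    ∃ a : C, (a : G) • ω ∈ B := by
  by_contra hc
  push Not at hc
  have : hh C ω B = ∅ := by
    ext a
    simp [hh, hc a]
  unfold wt at h
  rw [this] at h
  simp at h

theorem ties_finite (hE : Fam F E) (C : Subgroup G) [Finite C] (ω : Ω) :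
    (ties E C ω).Finite := by
  have hfin : (⋃ a : C, ⋃ b : C, {A | A ∈ E ∧ (a : G) • ω ∈ A ∧ (b : G) • ω ∉ A}).Finite :=
    Set.finite_iUnion (fun a => Set.finite_iUnion (fun b => hE.sep _ _))
  apply hfin.subset
  rintro B ⟨h1, h2⟩
  have hpos : 0 < Nat.card C := Nat.card_pos
  have h3 := wt_compl (C := C) (ω := ω) B
  obtain ⟨a, ha⟩ := wt_pos_mem (show 0 < wt C ω B by omega)
  obtain ⟨b, hb⟩ := wt_pos_mem (show 0 < wt C ω Bᶜ by omega)
  simp only [Set.mem_iUnion]
  exact ⟨a, b, h1, ha, hb⟩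

theorem ties_compl (hE : Fam F E) {C : Subgroup G} [Finite C] {ω : Ω} {B : Set Ω}
    (h : B ∈ ties E C ω) : Bᶜ ∈ ties E C ω := by
  have h3 := wt_compl (C := C) (ω := ω) B
  exact ⟨hE.compl B h.1, by have := h.2; omega⟩

theorem ties_smul (hE : Fam F E) {C : Subgroup G} {ω : Ω} {B : Set Ω}
    (h : B ∈ ties E C ω) {c : G} (hc : c ∈ C) : c • B ∈ ties E C ω :=
  ⟨hE.smul B h.1 c, by rw [wt_smul _ _ hc]; exact h.2⟩

/-- number of smaller ties -/
noncomputable def lo (E : Set (Set Ω)) (C : Subgroup G) (ω : Ω) (B : Set Ω) : ℕ :=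
  {A | A ∈ ties E C ω ∧ A ⊆ B ∧ A ≠ B}.ncard

/-- number of larger ties -/
noncomputable def hi (E : Set (Set Ω)) (C : Subgroup G) (ω : Ω) (B : Set Ω) : ℕ :=
  {A | A ∈ ties E C ω ∧ B ⊆ A ∧ B ≠ A}.ncard

theorem lo_compl (hE : Fam F E) (C : Subgroup G) [Finite C] (ω : Ω) (B : Set Ω) :
    lo E C ω Bᶜ = hi E C ω B := by
  have : {A | A ∈ ties E C ω ∧ A ⊆ Bᶜ ∧ A ≠ Bᶜ} =
      (fun A => Aᶜ) '' {A | A ∈ ties E C ω ∧ B ⊆ A ∧ B ≠ A} := by
    ext A
    simp only [Set.mem_ofPred_eq, Set.mem_image]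
    constructor
    · rintro ⟨h1, h2, h3⟩
      refine ⟨Aᶜ, ⟨ties_compl hE h1, Set.subset_compl_comm.1 h2, fun h => h3 ?_⟩, compl_compl A⟩
      rw [h, compl_compl]
    · rintro ⟨A, ⟨h1, h2, h3⟩, rfl⟩
      exact ⟨ties_compl hE h1, Set.compl_subset_compl.2 h2, fun h => h3 (compl_injective h).symm⟩
  unfold lo hi
  rw [this]
  exact Set.ncard_image_of_injective _ compl_injective

theorem hi_compl (hE : Fam F E) (C : Subgroup G) [Finite C] (ω : Ω) (B : Set Ω) :
    hi E C ω Bᶜ = lo E C ω B := by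
  rw [← lo_compl hE, compl_compl]

theorem lo_smul (hE : Fam F E) (C : Subgroup G) (ω : Ω) (B : Set Ω) {c : G} (hc : c ∈ C) :
    lo E C ω (c • B) = lo E C ω B := by
  have : {A | A ∈ ties E C ω ∧ A ⊆ c • B ∧ A ≠ c • B} =
      (fun A => c • A) '' {A | A ∈ ties E C ω ∧ A ⊆ B ∧ A ≠ B} := by
    ext A
    simp only [Set.mem_ofPred_eq, Set.mem_image]
    constructor
    · rintro ⟨h1, h2, h3⟩
      refine ⟨c⁻¹ • A, ⟨ties_smul hE h1 (C.inv_mem hc), ?_, fun h => h3 ?_⟩, by simp⟩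
      · rwa [Set.smul_set_subset_iff_subset_inv_smul_set, inv_inv]
      · rw [← h, smul_inv_smul]
    · rintro ⟨A, ⟨h1, h2, h3⟩, rfl⟩
      exact ⟨ties_smul hE h1 hc, Set.smul_set_mono h2, fun h => h3 (MulAction.injective c h)⟩
  unfold lo
  rw [this]
  exact Set.ncard_image_of_injective _ (MulAction.injective c)

theorem hi_smul (hE : Fam F E) (C : Subgroup G) [Finite C] (ω : Ω) (B : Set Ω) {c : G} (hc : c ∈ C) :
    hi E C ω (c • B) = hi E C ω B := by
  rw [← lo_compl hE, ← Set.smul_set_compl, lo_smul hE C ω _ hc, lo_compl hE]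

theorem lo_mono (hE : Fam F E) (C : Subgroup G) [Finite C] (ω : Ω) {A B : Set Ω} (h : A ⊆ B) :
    lo E C ω A ≤ lo E C ω B := by
  apply Set.ncard_le_ncard _ ((ties_finite hE C ω).subset (fun x hx => hx.1))
  rintro D ⟨h1, h2, h3⟩
  refine ⟨h1, h2.trans h, ?_⟩
  rintro rfl
  exact h3 (Set.Subset.antisymm h2 h)

theorem lo_lt (hE : Fam F E) (C : Subgroup G) [Finite C] (ω : Ω) {A B : Set Ω} (h : A ⊆ B)
    (hne : A ≠ B) (hA : A ∈ ties E C ω) : lo E C ω A < lo E C ω B := by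
  apply Set.ncard_lt_ncard _ ((ties_finite hE C ω).subset (fun x hx => hx.1))
  refine ⟨?_, fun h' => (h' ⟨hA, h, hne⟩).2.2 rfl⟩
  rintro D ⟨h1, h2, h3⟩
  refine ⟨h1, h2.trans h, ?_⟩
  rintro rfl
  exact h3 (Set.Subset.antisymm h2 h)

theorem hi_mono (hE : Fam F E) (C : Subgroup G) [Finite C] (ω : Ω) {A B : Set Ω} (h : A ⊆ B) :
    hi E C ω B ≤ hi E C ω A := by
  rw [← lo_compl hE, ← lo_compl hE]
  exact lo_mono hE C ω (Set.compl_subset_compl.2 h)

theorem hi_lt (hE : Fam F E) (C : Subgroup G) [Finite C] (ω : Ω) {A B : Set Ω} (h : A ⊆ B)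
    (hne : A ≠ B) (hB : B ∈ ties E C ω) : hi E C ω B < hi E C ω A := by
  rw [← lo_compl hE, ← lo_compl hE]
  exact lo_lt hE C ω (Set.compl_subset_compl.2 h) (fun h => hne (compl_injective h).symm)
    (ties_compl hE hB)

theorem tie_eq (hE : Fam F E) (C : Subgroup G) [Finite C] (ω : Ω) {A B : Set Ω} (h : A ⊆ B)
    (hA : A ∈ ties E C ω) (hB : B ∈ ties E C ω) (h1 : lo E C ω A = hi E C ω A)
    (h2 : lo E C ω B = hi E C ω B) : A = B := by
  by_contra hne
  have h3 := lo_lt hE C ω h hne hA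
  have h4 := hi_lt hE C ω h hne hB
  omega

/-- A finite subgroup fixes a node. -/
theorem fixed_node (hE : Fam F E) (C : Subgroup G) [Finite C] (ω : Ω) :
    ∃ p : Node hE, ∀ c ∈ C, c • p = p := by
  have hpos : 0 < Nat.card C := Nat.card_pos
  let S : Set (Set Ω) := {B | B ∈ E ∧ (Nat.card C < 2 * wt C ω B ∨
    (2 * wt C ω B = Nat.card C ∧ hi E C ω B < lo E C ω B))}
  have hS : IsNode E S := by
    refine ⟨fun B hB => hB.1, ?_, ?_, ?_, ?_⟩
    · rintro A ⟨hA, hA2⟩ B hB hAB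
      refine ⟨hB, ?_⟩
      have h1 := wt_mono (C := C) (ω := ω) hAB
      have h2 := lo_mono hE C ω hAB
      have h3 := hi_mono hE C ω hAB
      rcases hA2 with h4 | ⟨h4, h5⟩
      · left; omega
      · by_cases h6 : Nat.card C < 2 * wt C ω B
        · left; exact h6
        · right
          constructor
          · omega
          · omega
    · rintro A ⟨hA, hA2⟩ ⟨hB, hB2⟩
      have h1 := wt_compl (C := C) (ω := ω) A
      rw [lo_compl hE, hi_compl hE] at hB2
      omega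
    · intro A hA B hB h1 h2 h3 h4
      have key : ∀ A ∈ E, A ∉ S → Aᶜ ∉ S → A ∈ ties E C ω ∧ lo E C ω A = hi E C ω A := by
        intro A hA h1 h2
        have h5 := wt_compl (C := C) (ω := ω) A
        have hAc := hE.compl A hA
        simp only [S, Set.mem_ofPred_eq, hA, hAc, true_and, not_or, not_and, not_lt] at h1 h2
        rw [lo_compl hE, hi_compl hE] at h2
        have h6 : 2 * wt C ω A = Nat.card C := by omega
        refine ⟨⟨hA, h6⟩, le_antisymm (h1.2 h6) (h2.2 (by omega))⟩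
      obtain ⟨tA, eA⟩ := key A hA h1 h2
      obtain ⟨tB, eB⟩ := key B hB h3 h4
      have tAc := ties_compl hE tA
      have eAc : lo E C ω Aᶜ = hi E C ω Aᶜ := by
        rw [lo_compl hE, hi_compl hE, eA]
      rcases nested_iff.1 (hE.nested B hB A hA) with h | h | h | h
      · exact Or.inr (tie_eq hE C ω (fun x hx => h x hx) tB tAc eB eAc)
      · exact Or.inl (tie_eq hE C ω h tB tA eB eA)
      · left
        refine (tie_eq hE C ω (fun x hx => ?_) tA tB eA eB).symm
        by_contra hc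
        exact h x hc hx
      · right
        refine (tie_eq hE C ω (fun x hx => ?_) tAc tB eAc eB).symm
        by_contra hc
        exact hx (h x hc)
    · intro ω'
      have hfin : (⋃ a : C, {A | A ∈ E ∧ (a : G) • ω ∈ A ∧ ω' ∉ A}).Finite :=
        Set.finite_iUnion (fun a => hE.sep _ _)
      apply hfin.subset
      rintro B ⟨⟨h1, h2⟩, h3⟩
      obtain ⟨a, ha⟩ := wt_pos_mem (show 0 < wt C ω B by omega)
      simp only [Set.mem_iUnion]
      exact ⟨a, h1, ha, h3⟩
  let p : Node hE := ⟨S, hS⟩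
  refine ⟨p, fun c hc => ?_⟩
  apply Node.ext'
  change (c • S : Set (Set Ω)) = S
  ext B
  have hc' := C.inv_mem hc
  simp only [S, Set.mem_smul_set_iff_inv_smul_mem, Set.mem_ofPred_eq, smul_mem_E hE,
    wt_smul _ _ hc', lo_smul hE C ω _ hc', hi_smul hE C ω _ hc']

end Pool.Agent.U843.LR
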