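import Pool.Agent.U843.LR.ExtHom

set_option autoImplicit false

/-!
# Partial homomorphisms with a type condition on finite subgroups
-/

namespace Pool.Agent.U843.LR

variable {G W : Type} [Group G] [Group W]

/-- a partial homomorphism `G → W`, given by its graph, which on subgroups meeting `F` trivially
is conjugate to `Ψ` -/
def Good (F : Subgroup G) (Ψ : G →* W) (Γ : Subgroup (G × W)) : Prop :=
  (∀ w : W, ((1 : G), w) ∈ Γ → w = 1) ∧
  ∀ C : Subgroup G, C ⊓ F = ⊥ → (∀ c ∈ C, ∃ w, (c, w) ∈ Γ) →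
    ∃ w : W, ∀ c ∈ C, (c, w * Ψ c * w⁻¹) ∈ Γ

/-- the domain -/
def Dom (Γ : Subgroup (G × W)) (V : Subgroup G) : Prop := ∀ g, (∃ w, (g, w) ∈ Γ) ↔ g ∈ V

theorem Good.uniq {F : Subgroup G} {Ψ : G →* W} {Γ : Subgroup (G × W)} (h : Good F Ψ Γ)
    {g : G} {w w' : W} (h1 : (g, w) ∈ Γ) (h2 : (g, w') ∈ Γ) : w = w' := by
  have h3 := Γ.mul_mem (Γ.inv_mem h1) h2
  have h4 : ((g, w)⁻¹ * (g, w') : G × W) = (1, w⁻¹ * w') := by simp
  rw [h4] at h3
  exact inv_mul_eq_one.1 (h.1 _ h3)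

theorem Good.hom {F : Subgroup G} {Ψ : G →* W} {Γ : Subgroup (G × W)} (h : Good F Ψ Γ)
    {V : Subgroup G} (hd : Dom Γ V) : ∃ φ : V →* W, ∀ v : V, ((v : G), φ v) ∈ Γ := by
  have : ∀ v : V, ∃ w, ((v : G), w) ∈ Γ := fun v => (hd v).2 v.2
  choose f hf using this
  refine ⟨MonoidHom.mk' f (fun a b => ?_), hf⟩
  apply h.uniq (hf (a * b))
  have := Γ.mul_mem (hf a) (hf b)
  simpa using this

/-- the graph of a homomorphism -/
def graphOf {V : Subgroup G} (φ : V →* W) : Subgroup (G × W) := (V.subtype.prod φ).range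

theorem mem_graphOf {V : Subgroup G} {φ : V →* W} {g : G} {w : W} :
    (g, w) ∈ graphOf φ ↔ ∃ h : g ∈ V, φ ⟨g, h⟩ = w := by
  constructor
  · rintro ⟨v, hv⟩
    have h1 : (v : G) = g := congrArg Prod.fst hv
    have h2 : φ v = w := congrArg Prod.snd hv
    subst h1
    exact ⟨v.2, h2⟩
  · rintro ⟨h, rfl⟩
    exact ⟨⟨g, h⟩, rfl⟩

theorem dom_graphOf {V : Subgroup G} (φ : V →* W) : Dom (graphOf φ) V := by
  intro g
  constructor
  · rintro ⟨w, hw⟩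
    exact (mem_graphOf.1 hw).1
  · intro h
    exact ⟨_, mem_graphOf.2 ⟨h, rfl⟩⟩

theorem good_graphOf {F : Subgroup G} {Ψ : G →* W} {V : Subgroup G} {φ : V →* W}
    (hφ : ∀ C : Subgroup G, C ⊓ F = ⊥ → ∀ h : C ≤ V, ∃ w : W, ∀ (c : G) (hc : c ∈ C),
      φ ⟨c, h hc⟩ = w * Ψ c * w⁻¹) : Good F Ψ (graphOf φ) := by
  constructor
  · intro w hw
    obtain ⟨h1, h2⟩ := mem_graphOf.1 hw
    rw [← h2]
    exact map_one φ
  · intro C hC hd
    have hCV : C ≤ V := fun c hc => (dom_graphOf φ c).1 (hd c hc)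
    obtain ⟨w, hw⟩ := hφ C hC hCV
    exact ⟨w, fun c hc => mem_graphOf.2 ⟨hCV hc, hw c hc⟩⟩

theorem good_sSup {F : Subgroup G} (hF : F.FiniteIndex) {Ψ : G →* W}
    {K : Set (Subgroup (G × W))} (hne : K.Nonempty)
    (hd : DirectedOn (· ≤ ·) K) (h : ∀ Γ ∈ K, Good F Ψ Γ) : Good F Ψ (sSup K) := by
  constructor
  · intro w hw
    rw [Subgroup.mem_sSup_of_directedOn hne hd] at hw
    obtain ⟨Γ, hΓ, hw⟩ := hw
    exact (h Γ hΓ).1 w hw
  · intro C hC hdom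
    have hfin : Finite C := finite_of_inf_bot hF hC
    have h1 : ∀ c : C, ∃ w, ((c : G), w) ∈ sSup K := fun c => hdom c c.2
    choose f hf using h1
    let s : Set (G × W) := Set.range (fun c : C => ((c : G), f c))
    have hs : s.Finite := Set.finite_range _
    have h2 : ((hs.toFinset : Finset (G × W)) : Set (G × W)) ⊆ ⋃ i ∈ K, (i : Set (G × W)) := by
      rw [Set.Finite.coe_toFinset]
      rintro _ ⟨c, rfl⟩
      have := hf c
      rw [Subgroup.mem_sSup_of_directedOn hne hd] at this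
      obtain ⟨Γ, hΓ, hw⟩ := this
      exact Set.mem_biUnion hΓ hw
    obtain ⟨Γ, hΓ, h3⟩ := DirectedOn.exists_mem_subset_of_finset_subset_biUnion
      (f := fun i : Subgroup (G × W) => (i : Set (G × W))) hne hd h2
    rw [Set.Finite.coe_toFinset] at h3
    obtain ⟨w, hw⟩ := (h Γ hΓ).2 C hC (fun c hc => ⟨f ⟨c, hc⟩, h3 ⟨⟨c, hc⟩, rfl⟩⟩)
    exact ⟨w, fun c hc => (le_sSup hΓ : Γ ≤ _) (hw c hc)⟩

end Pool.Agent.U843.LR
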