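import Mathlib

set_option autoImplicit false
set_option linter.unusedSectionVars false

/-!
# Words in free groups: first letters, free factors generated by a part of the basis
-/

namespace Pool.Agent.U843.LR

open FreeGroup

variable {α : Type} [DecidableEq α]

/-- elements whose reduced word begins with the letter `l` -/
def beg (l : α × Bool) : Set (FreeGroup α) := {z | z.toWord.head? = some l}

theorem toWord_mk_of {L : List (α × Bool)} (h : IsReduced L) : (mk L).toWord = L := by
  rw [toWord_mk, h.reduce_eq]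

theorem red_sub {L M : List (α × Bool)} (h : IsReduced M) (hs : ∃ s t, s ++ L ++ t = M) :
    IsReduced L := by
  obtain ⟨s, t, rfl⟩ := hs
  unfold FreeGroup.IsReduced at *
  rw [List.isChain_append] at h
  have := h.1
  rw [List.isChain_append] at this
  exact this.2.1

theorem isReduced_append {L M : List (α × Bool)} (hL : IsReduced L) (hM : IsReduced M)
    (h : ∀ a ∈ L.getLast?, ∀ b ∈ M.head?, a.1 = b.1 → a.2 = b.2) : IsReduced (L ++ M) := by
  unfold FreeGroup.IsReduced
  rw [List.isChain_append]
  exact ⟨hL, hM, h⟩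

/-- no cancellation -/
theorem toWord_mul_of {z w : FreeGroup α}
    (h : ∀ a ∈ z.toWord.getLast?, ∀ b ∈ w.toWord.head?, a.1 = b.1 → a.2 = b.2) :
    (z * w).toWord = z.toWord ++ w.toWord := by
  rw [toWord_mul]
  exact (isReduced_append isReduced_toWord isReduced_toWord h).reduce_eq

/-- right multiplication by a letter changes the first letter only for two elements -/
theorem beg_gen (x : α) (ε : Bool) (z : FreeGroup α) (l : α × Bool)
    (h : ¬ (z ∈ beg l ↔ z * mk [(x, ε)] ∈ beg l)) :
    (z = 1 ∧ l = (x, ε)) ∨ (z = mk [(x, !ε)] ∧ l = (x, !ε)) := by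
  have hz : z = mk z.toWord := mk_toWord.symm
  have hred : IsReduced z.toWord := isReduced_toWord
  rcases List.eq_nil_or_concat z.toWord with h0 | ⟨L, ⟨y, b⟩, h0⟩
  · left
    have hz1 : z = 1 := toWord_eq_nil_iff.1 h0
    refine ⟨hz1, ?_⟩
    subst hz1
    rw [one_mul] at h
    simp only [beg, Set.mem_ofPred_eq, toWord_one, List.head?_nil, toWord_mk_of IsReduced.singleton,
      List.head?_cons] at h
    by_contra hne
    apply h
    constructor
    · intro h2; cases h2
    · intro h2
      exact absurd (Option.some.inj h2).symm hne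
  · rw [List.concat_eq_append] at h0
    rw [h0] at hred hz
    by_cases hc : y = x ∧ b = !ε
    · obtain ⟨rfl, rfl⟩ := hc
      have h1 : z * mk [(y, ε)] = mk L := by
        rw [hz, mul_mk, List.append_assoc]
        have : mk (L ++ ([(y, !ε)] ++ [(y, ε)])) = mk L * (mk [(y, !ε)] * mk [(y, ε)]) := by
          rw [mul_mk, mul_mk]
        rw [this]
        have e : (mk [(y, !ε)] : FreeGroup α) = (mk [(y, ε)])⁻¹ := by
          rw [inv_mk]
          simp [invRev]
        rw [e, inv_mul_cancel, mul_one]
      have hL : IsReduced L := red_sub hred ⟨[], [(y, !ε)], by simp⟩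
      rw [h1] at h
      simp only [beg, Set.mem_ofPred_eq, h0, toWord_mk_of hL] at h
      rcases L with _ | ⟨a, L⟩
      · right
        simp only [List.nil_append] at h hz
        refine ⟨hz, ?_⟩
        simp only [List.head?_cons, List.head?_nil] at h
        by_contra hne
        apply h
        constructor
        · intro h2
          exact absurd (Option.some.inj h2).symm hne
        · intro h2; cases h2
      · exfalso
        apply h
        simp
    · exfalso
      have h1 : (z * mk [(x, ε)]).toWord = z.toWord ++ [(x, ε)] := by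
        rw [toWord_mul_of, toWord_mk_of IsReduced.singleton]
        intro a ha c hc2
        rw [h0] at ha
        rw [toWord_mk_of IsReduced.singleton] at hc2
        simp only [List.getLast?_append, List.getLast?_singleton, Option.some_or, Option.mem_def,
          Option.some.injEq, List.head?_cons] at ha hc2
        subst ha hc2
        intro h3
        simp only at h3 ⊢
        subst h3
        by_contra h4
        apply hc
        refine ⟨rfl, ?_⟩
        cases b <;> cases ε <;> simp_all
      apply h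
      simp only [beg, Set.mem_ofPred_eq, h1, h0]
      rcases L with _ | ⟨a, L⟩ <;> simp

/-- only finitely many changes of the first letter -/
theorem change_finite (w : FreeGroup α) :
    {p : FreeGroup α × (α × Bool) | ¬ (p.1 ∈ beg p.2 ↔ p.1 * w ∈ beg p.2)}.Finite := by
  have hgen : ∀ (x : α) (ε : Bool), {p : FreeGroup α × (α × Bool) |
      ¬ (p.1 ∈ beg p.2 ↔ p.1 * mk [(x, ε)] ∈ beg p.2)}.Finite := by
    intro x ε
    apply (Set.toFinite {((1 : FreeGroup α), (x, ε)), (mk [(x, !ε)], (x, !ε))}).subset
    rintro ⟨z, l⟩ h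
    rcases beg_gen x ε z l h with ⟨rfl, rfl⟩ | ⟨rfl, rfl⟩
    · exact Or.inl rfl
    · exact Or.inr rfl
  induction w using FreeGroup.induction_on with
  | C1 =>
    convert Set.finite_empty
    ext p
    simp
  | of x => exact hgen x true
  | inv_of x _ =>
    have : ((of x)⁻¹ : FreeGroup α) = mk [(x, false)] := by
      rw [of, inv_mk]
      simp [invRev]
    rw [this]
    exact hgen x false
  | mul v w hv hw =>
    have h2 : {p : FreeGroup α × (α × Bool) |
        ¬ (p.1 * v ∈ beg p.2 ↔ p.1 * v * w ∈ beg p.2)}.Finite := by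
      apply Set.Finite.of_finite_image (f := fun p => (p.1 * v, p.2))
      · apply hw.subset
        rintro _ ⟨p, hp, rfl⟩
        exact hp
      · rintro ⟨a, b⟩ - ⟨c, d⟩ - h
        simpa using h
    apply (hv.union h2).subset
    rintro p hp
    by_contra hc
    simp only [Set.mem_union, Set.mem_ofPred_eq, not_or, not_not] at hc
    apply hp
    rw [hc.1, hc.2, mul_assoc]

/-! ### subgroups generated by parts of the basis -/

/-- the subgroup generated by the part `Y` of the basis -/
def cl (Y : Set α) : Subgroup (FreeGroup α) := Subgroup.closure (of '' Y)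

theorem mem_cl_iff {Y : Set α} {z : FreeGroup α} : z ∈ cl Y ↔ ∀ p ∈ z.toWord, p.1 ∈ Y := by
  constructor
  · intro hz
    unfold cl at hz
    induction hz using Subgroup.closure_induction with
    | mem x hx =>
      obtain ⟨y, hy, rfl⟩ := hx
      intro p hp
      rw [toWord_of, List.mem_singleton] at hp
      rw [hp]
      exact hy
    | one =>
      intro p hp
      rw [toWord_one] at hp
      cases hp
    | mul x y _ _ hx hy =>
      intro p hp
      have := (toWord_mul_sublist x y).subset hp
      rw [List.mem_append] at this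
      rcases this with h | h
      · exact hx p h
      · exact hy p h
    | inv x _ hx =>
      intro p hp
      rw [toWord_inv] at hp
      simp only [invRev, List.mem_reverse, List.mem_map] at hp
      obtain ⟨q, hq, rfl⟩ := hp
      exact hx q hq
  · intro h
    rw [← mk_toWord (x := z)]
    generalize z.toWord = L at h
    induction L with
    | nil => exact (cl Y).one_mem
    | cons a L ih =>
      have e : (mk (a :: L) : FreeGroup α) = mk [a] * mk L := by
        rw [mul_mk]
        rfl
      rw [e]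
      apply (cl Y).mul_mem
      · obtain ⟨x, b⟩ := a
        have hx : of x ∈ cl Y := Subgroup.subset_closure ⟨x, h (x, b) (by simp), rfl⟩
        cases b
        · have : (mk [(x, false)] : FreeGroup α) = (of x)⁻¹ := by
            rw [of, inv_mk]
            simp [invRev]
          rw [this]
          exact (cl Y).inv_mem hx
        · exact hx
      · exact ih (fun p hp => h p (List.mem_cons_of_mem _ hp))

/-- first letters outside `Y` are invariant under right multiplication with `cl Y` -/
theorem beg_cl {Y : Set α} {l : α × Bool} (hl : l.1 ∉ Y) {y : FreeGroup α} (hy : y ∈ cl Y) :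
    ∀ z : FreeGroup α, (z * y ∈ beg l ↔ z ∈ beg l) := by
  unfold cl at hy
  induction hy using Subgroup.closure_induction with
  | mem x hx =>
    obtain ⟨y, hy, rfl⟩ := hx
    intro z
    by_contra hc
    rcases beg_gen y true z l (fun h => hc h.symm) with ⟨-, rfl⟩ | ⟨-, rfl⟩
    · exact hl hy
    · exact hl hy
  | one => intro z; rw [mul_one]
  | mul x y _ _ hx hy =>
    intro z
    rw [← mul_assoc, hy, hx]
  | inv x _ hx =>
    intro z
    rw [← hx (z * x⁻¹), inv_mul_cancel_right]

/-! ### cyclically reduced elements -/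

/-- first letter `l`, last letter not inverse to `l` -/
def CR (l : α × Bool) (c : FreeGroup α) : Prop :=
  c.toWord.head? = some l ∧ ∃ p, c.toWord.getLast? = some p ∧ (p.1 = l.1 → p.2 = l.2)

theorem CR.pow {l : α × Bool} {c : FreeGroup α} (h : CR l c) (k : ℕ) : CR l (c ^ (k + 1)) := by
  induction k with
  | zero => simpa using h
  | succ k ih =>
    obtain ⟨h1, p, h2, h3⟩ := ih
    obtain ⟨g1, q, g2, g3⟩ := h
    have e : (c ^ (k + 1 + 1)).toWord = (c ^ (k + 1)).toWord ++ c.toWord := by
      rw [pow_succ _ (k + 1)]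
      apply toWord_mul_of
      intro a ha b hb
      rw [h2] at ha
      rw [g1] at hb
      cases ha
      cases hb
      exact h3
    refine ⟨?_, q, ?_, g3⟩
    · rw [e, List.head?_append, h1]
      rfl
    · rw [e, List.getLast?_append, g2]
      rfl

theorem CR.pow_beg {l : α × Bool} {c : FreeGroup α} (h : CR l c) {k : ℕ} (hk : 1 ≤ k) :
    c ^ k ∈ beg l := by
  obtain ⟨n, rfl⟩ : ∃ n, k = n + 1 := ⟨k - 1, by omega⟩
  exact (h.pow n).1

theorem head?_invRev (L : List (α × Bool)) :
    (invRev L).head? = L.getLast?.map (fun g => (g.1, !g.2)) := by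
  simp [invRev, List.head?_reverse]

theorem getLast?_invRev (L : List (α × Bool)) :
    (invRev L).getLast? = L.head?.map (fun g => (g.1, !g.2)) := by
  simp [invRev, List.getLast?_reverse]

theorem CR.pow_inv_not_beg {l : α × Bool} {c : FreeGroup α} (h : CR l c) (k : ℕ) :
    c⁻¹ ^ k ∉ beg l := by
  rcases k with _ | k
  · intro h1
    simp only [pow_zero, beg, Set.mem_ofPred_eq, toWord_one, List.head?_nil] at h1
    cases h1
  · intro h1
    obtain ⟨h1', p, h2, h3⟩ := h.pow k
    simp only [beg, Set.mem_ofPred_eq] at h1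
    rw [inv_pow, toWord_inv, head?_invRev, h2] at h1
    simp only [Option.map_some, Option.some.injEq] at h1
    subst h1
    simp at h3

theorem CR.ne_one {l : α × Bool} {c : FreeGroup α} (h : CR l c) : c ≠ 1 := by
  rintro rfl
  obtain ⟨h1, -⟩ := h
  rw [toWord_one] at h1
  cases h1

theorem exists_CR {m : FreeGroup α} (hm : m ≠ 1) : ∃ u c l, m = u * c * u⁻¹ ∧ CR l c := by
  let L := m.toWord
  have hL : IsReduced L := isReduced_toWord
  have h1 := reduceCyclically.isCyclicallyReduced hL
  have h2 := reduceCyclically.conj_conjugator_reduceCyclically L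
  have hc : (mk (reduceCyclically L) : FreeGroup α).toWord = reduceCyclically L :=
    toWord_mk_of h1.isReduced
  have hm' : m = mk (reduceCyclically.conjugator L) * mk (reduceCyclically L) *
      (mk (reduceCyclically.conjugator L))⁻¹ := by
    rw [inv_mk, mul_mk, mul_mk, h2]
    exact mk_toWord.symm
  have hne : reduceCyclically L ≠ [] := by
    intro h
    rw [h] at hm'
    apply hm
    rw [hm']
    change mk _ * 1 * _ = 1
    group
  refine ⟨mk (reduceCyclically.conjugator L), mk (reduceCyclically L),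
    (reduceCyclically L).head hne, hm', ?_, (reduceCyclically L).getLast hne, ?_, ?_⟩
  · rw [hc, List.head?_eq_some_head]
  · rw [hc, List.getLast?_eq_some_getLast]
  · exact h1.2 _ (by rw [List.getLast?_eq_some_getLast hne]; rfl) _
      (by rw [List.head?_eq_some_head hne]; rfl)

/-- powers of a nontrivial element of a free group are distinct -/
theorem free_pow_inj {c : FreeGroup α} (hc : c ≠ 1) : Function.Injective (fun k : ℕ => c ^ k) := by
  intro k l hkl
  by_contra hne
  wlog hlt : k < l generalizing k l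
  · exact this hkl.symm (fun h => hne h.symm) (by omega)
  have h1 : c ^ (l - k) = 1 := by
    have : c ^ l = c ^ k * c ^ (l - k) := by rw [← pow_add]; congr 1; omega
    simp only at hkl
    rw [this] at hkl
    exact mul_eq_left.1 hkl.symm
  apply hc
  rw [← one_pow (M := FreeGroup α) (l - k)] at h1
  exact pow_left_injective (by omega) h1

/-- for large `k` the first letter of `c ^ k * w` is the one of `c ^ k` -/
theorem ev_beg {c : FreeGroup α} (hc : c ≠ 1) (l : α × Bool) (w : FreeGroup α) :
    ∃ k0 : ℕ, ∀ k ≥ k0, (c ^ k ∈ beg l ↔ c ^ k * w ∈ beg l) := by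
  have hfin : {k : ℕ | ¬ (c ^ k ∈ beg l ↔ c ^ k * w ∈ beg l)}.Finite := by
    apply Set.Finite.of_finite_image (f := fun k : ℕ => (c ^ k, l))
    · apply (change_finite w).subset
      rintro _ ⟨k, hk, rfl⟩
      exact hk
    · intro a _ b _ hab
      simp only [Prod.mk.injEq, and_true] at hab
      exact free_pow_inj hc hab
  obtain ⟨N, hN⟩ := hfin.bddAbove
  refine ⟨N + 1, fun k hk => ?_⟩
  by_contra h
  have := hN h
  omega

/-! ### the commutator lemma -/

theorem split_head {β : Type} (P : β → Prop) : ∀ L : List β, (∃ p ∈ L, ¬ P p) →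
    ∃ A c R, L = A ++ c :: R ∧ (∀ p ∈ A, P p) ∧ ¬ P c := by
  intro L
  induction L with
  | nil => rintro ⟨p, hp, -⟩; cases hp
  | cons a L ih =>
    intro h
    by_cases ha : P a
    · have : ∃ p ∈ L, ¬ P p := by
        obtain ⟨p, hp, hp2⟩ := h
        rcases List.mem_cons.1 hp with rfl | hp
        · exact absurd ha hp2
        · exact ⟨p, hp, hp2⟩
      obtain ⟨A, c, R, h1, h2, h3⟩ := ih this
      refine ⟨a :: A, c, R, by rw [h1]; rfl, ?_, h3⟩
      intro p hp
      rcases List.mem_cons.1 hp with rfl | hp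
      · exact ha
      · exact h2 p hp
    · exact ⟨[], a, L, rfl, by simp, ha⟩

theorem split_last {β : Type} (P : β → Prop) (L : List β) (h : ∃ p ∈ L, ¬ P p) :
    ∃ R c B, L = R ++ c :: B ∧ (∀ p ∈ B, P p) ∧ ¬ P c := by
  obtain ⟨A, c, R, h1, h2, h3⟩ := split_head P L.reverse (by
    obtain ⟨p, hp, hp2⟩ := h
    exact ⟨p, List.mem_reverse.2 hp, hp2⟩)
  refine ⟨R.reverse, c, A.reverse, ?_, ?_, h3⟩
  · have := congrArg List.reverse h1
    simpa using this
  · intro p hp
    exact h2 p (List.mem_reverse.1 hp)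

/-- stripping the letters of `Y` on both sides -/
theorem strip {Y : Set α} {z : FreeGroup α} (hz : z ∉ cl Y) :
    ∃ y1 ∈ cl Y, ∃ y2 ∈ cl Y, ∃ m : FreeGroup α, z = y1 * m * y2 ∧
      (∃ l, m.toWord.head? = some l ∧ l.1 ∉ Y) ∧ (∃ p, m.toWord.getLast? = some p ∧ p.1 ∉ Y) := by
  rw [mem_cl_iff] at hz
  push Not at hz
  have hred : IsReduced z.toWord := isReduced_toWord
  obtain ⟨A, c, R, h1, h2, h3⟩ := split_head (fun p : α × Bool => p.1 ∈ Y) z.toWord hz
  have hA : mk A ∈ cl Y := by
    rw [mem_cl_iff, toWord_mk_of (red_sub hred (by rw [h1]; exact ⟨[], c :: R, by simp⟩))]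
    exact h2
  by_cases hR : ∃ p ∈ R, ¬ (p.1 ∈ Y)
  · obtain ⟨R', d, B, g1, g2, g3⟩ := split_last (fun p : α × Bool => p.1 ∈ Y) R hR
    have hM : IsReduced (c :: (R' ++ [d])) := red_sub hred (by
      rw [h1, g1]
      exact ⟨A, B, by simp⟩)
    have hB : IsReduced B := red_sub hred (by
      rw [h1, g1]
      exact ⟨A ++ c :: (R' ++ [d]), [], by simp⟩)
    refine ⟨mk A, hA, mk B, ?_, mk (c :: (R' ++ [d])), ?_, ⟨c, ?_, h3⟩, ⟨d, ?_, g3⟩⟩
    · rw [mem_cl_iff, toWord_mk_of hB]
      exact g2
    · rw [mul_mk, mul_mk, ← mk_toWord (x := z), h1, g1]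
      simp
    · rw [toWord_mk_of hM]
      rfl
    · rw [toWord_mk_of hM, ← List.cons_append, List.getLast?_append]
      rfl
  · push Not at hR
    have hB : IsReduced R := red_sub hred (by
      rw [h1]
      exact ⟨A ++ [c], [], by simp⟩)
    refine ⟨mk A, hA, mk R, ?_, mk [c], ?_, ⟨c, ?_, h3⟩, ⟨c, ?_, h3⟩⟩
    · rw [mem_cl_iff, toWord_mk_of hB]
      exact hR
    · rw [mul_mk, mul_mk, ← mk_toWord (x := z), h1]
      simp
    · rw [toWord_mk_of IsReduced.singleton]
      rfl
    · rw [toWord_mk_of IsReduced.singleton]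
      rfl

theorem head_cl {Y : Set α} {b : FreeGroup α} (hb : b ∈ cl Y) : ∀ p ∈ b.toWord.head?, p.1 ∈ Y :=
  fun _ hp => mem_cl_iff.1 hb _ (List.mem_of_head? hp)

theorem last_cl {Y : Set α} {b : FreeGroup α} (hb : b ∈ cl Y) :
    ∀ p ∈ b.toWord.getLast?, p.1 ∈ Y :=
  fun _ hp => mem_cl_iff.1 hb _ (List.mem_of_getLast? hp)

theorem exists_last {b : FreeGroup α} (hb : b ≠ 1) : ∃ p, b.toWord.getLast? = some p := by
  have : b.toWord ≠ [] := fun h => hb (toWord_eq_nil_iff.1 h)
  exact ⟨_, List.getLast?_eq_some_getLast this⟩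

theorem exists_head {b : FreeGroup α} (hb : b ≠ 1) : ∃ p, b.toWord.head? = some p := by
  have : b.toWord ≠ [] := fun h => hb (toWord_eq_nil_iff.1 h)
  exact ⟨_, List.head?_eq_some_head this⟩

/-- The commutator of an element outside `cl Y` with a nontrivial element of `cl Y` is, up to
conjugation by an element of `cl Y`, cyclically reduced, with first letter outside `Y`. -/
theorem comm_CR {Y : Set α} {z b : FreeGroup α} (hz : z ∉ cl Y) (hb : b ∈ cl Y) (hb1 : b ≠ 1) :
    ∃ u ∈ cl Y, ∃ c l, z * b * z⁻¹ * b⁻¹ = u * c * u⁻¹ ∧ CR l c ∧ l.1 ∉ Y := by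
  obtain ⟨y1, hy1, y2, hy2, m, rfl, ⟨l, hl, hlY⟩, ⟨p, hp, hpY⟩⟩ := strip hz
  let b2 := y2 * b * y2⁻¹
  let b1 := y1⁻¹ * b⁻¹ * y1
  have hb2 : b2 ∈ cl Y := (cl Y).mul_mem ((cl Y).mul_mem hy2 hb) ((cl Y).inv_mem hy2)
  have hb1' : b1 ∈ cl Y :=
    (cl Y).mul_mem ((cl Y).mul_mem ((cl Y).inv_mem hy1) ((cl Y).inv_mem hb)) hy1
  have n2 : b2 ≠ 1 := by
    intro h
    apply hb1
    have : b = y2⁻¹ * b2 * y2 := by simp only [b2]; group
    rw [this, h]
    group
  have n1 : b1 ≠ 1 := by
    intro h
    apply hb1
    have : b = (y1 * b1 * y1⁻¹)⁻¹ := by simp only [b1]; group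
    rw [this, h]
    group
  obtain ⟨q2, hq2⟩ := exists_last n2
  obtain ⟨q1, hq1⟩ := exists_last n1
  have w1 : (m * b2).toWord = m.toWord ++ b2.toWord := by
    apply toWord_mul_of
    intro a ha c hc h
    rw [hp] at ha
    cases ha
    exact absurd (h ▸ head_cl hb2 c hc) hpY
  have w2 : (m * b2 * m⁻¹).toWord = m.toWord ++ b2.toWord ++ (m⁻¹).toWord := by
    rw [← w1]
    apply toWord_mul_of
    intro a ha c hc h
    rw [w1, List.getLast?_append, hq2] at ha
    cases ha
    rw [toWord_inv, head?_invRev, hp] at hc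
    cases hc
    exact absurd (h ▸ last_cl hb2 _ (by rw [hq2]; rfl)) hpY
  have w3 : (m * b2 * m⁻¹ * b1).toWord = m.toWord ++ b2.toWord ++ (m⁻¹).toWord ++ b1.toWord := by
    rw [← w2]
    apply toWord_mul_of
    intro a ha c hc h
    rw [w2, List.getLast?_append, toWord_inv, getLast?_invRev, hl] at ha
    cases ha
    exact absurd (show l.1 ∈ Y from h ▸ head_cl hb1' c hc) hlY
  refine ⟨y1, hy1, m * b2 * m⁻¹ * b1, l, by simp only [b1, b2]; group, ⟨?_, q1, ?_, ?_⟩, hlY⟩
  · rw [w3, List.append_assoc, List.append_assoc, List.head?_append, hl]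
    rfl
  · rw [w3, List.getLast?_append, hq1]
    rfl
  · intro h
    exact absurd (show l.1 ∈ Y from h ▸ last_cl hb1' _ (by rw [hq1]; rfl)) hlY

/-- malnormality -/
theorem malnormal {Y : Set α} {z y : FreeGroup α} (hy : y ∈ cl Y) (hy1 : y ≠ 1)
    (h : z⁻¹ * y * z ∈ cl Y) : z ∈ cl Y := by
  by_contra hz
  have hz' : z⁻¹ ∉ cl Y := fun h => hz (by simpa using (cl Y).inv_mem h)
  obtain ⟨u, hu, c, l, h1, h2, h3⟩ := comm_CR hz' hy hy1
  rw [inv_inv] at h1
  have h4 : c ∈ cl Y := by
    have : c = u⁻¹ * (z⁻¹ * y * z * y⁻¹) * u := by rw [h1]; group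
    rw [this]
    exact (cl Y).mul_mem ((cl Y).mul_mem ((cl Y).inv_mem hu)
      ((cl Y).mul_mem h ((cl Y).inv_mem hy))) hu
  exact h3 (head_cl h4 l (by rw [h2.1]; rfl))

end Pool.Agent.U843.LR
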