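import Pool.Agent.U843.LR.Fix
import Pool.Agent.U843.LR.Words

set_option autoImplicit false

/-!
# Cuts coming from a free group, and trees for groups
-/

namespace Pool.Agent.U843.LR

open SimpleGraph Pointwise

variable {G Ω α : Type} [Group G] [MulAction G Ω] [DecidableEq α]

/-- A graph on which `G` acts, mapped to the cosets of a free factor of a free group. -/
structure Cay (X : SimpleGraph Ω) (F : Subgroup G) (j : F →* FreeGroup α) (Y : Set α)
    (κ : Ω → FreeGroup α) : Prop where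
  ctx : Ctx X F
  inj : Function.Injective j
  kap : ∀ (f : F) (ω : Ω), (j f * κ ω)⁻¹ * κ ((f : G) • ω) ∈ cl Y
  edges : ∃ P : Set (Ω × Ω), P.Finite ∧ ∀ x y, X.Adj x y →
    ∃ f : F, ∃ p ∈ P, x = (f : G) • p.1 ∧ y = (f : G) • p.2

theorem Cay.mem_iff {X : SimpleGraph Ω} {F : Subgroup G} {j : F →* FreeGroup α} {Y : Set α}
    {κ : Ω → FreeGroup α} (h : Cay X F j Y κ) (u : FreeGroup α) {l : α × Bool} (hl : l.1 ∉ Y)
    (f : F) (ω : Ω) : u⁻¹ * κ ((f : G) • ω) ∈ beg l ↔ u⁻¹ * (j f * κ ω) ∈ beg l := by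
  have e : u⁻¹ * κ ((f : G) • ω) = u⁻¹ * (j f * κ ω) * ((j f * κ ω)⁻¹ * κ ((f : G) • ω)) := by
    group
  rw [e, beg_cl hl (h.kap f ω)]

/-- the cuts of the Bass-Serre tree of the free factor -/
def AA (κ : Ω → FreeGroup α) (u : FreeGroup α) (l : α × Bool) : Set Ω := {ω | u⁻¹ * κ ω ∈ beg l}

theorem Cay.bound {X : SimpleGraph Ω} {F : Subgroup G} {j : F →* FreeGroup α} {Y : Set α}
    {κ : Ω → FreeGroup α} (h : Cay X F j Y κ) :
    ∃ K : ℕ, ∀ (u : FreeGroup α) (l : α × Bool), l.1 ∉ Y →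
      (D X (AA κ u l)).Finite ∧ (D X (AA κ u l)).ncard ≤ K := by
  obtain ⟨P, hP, hPe⟩ := h.edges
  let NN : Set ((Ω × Ω) × (FreeGroup α × (α × Bool))) :=
    {x | x.1 ∈ P ∧ ¬ (x.2.1 ∈ beg x.2.2 ↔ x.2.1 * ((κ x.1.1)⁻¹ * κ x.1.2) ∈ beg x.2.2)}
  have hNN : NN.Finite := by
    have : (⋃ p ∈ P, (fun q => (p, q)) '' {q : FreeGroup α × (α × Bool) |
        ¬ (q.1 ∈ beg q.2 ↔ q.1 * ((κ p.1)⁻¹ * κ p.2) ∈ beg q.2)}).Finite := by
      apply hP.biUnion
      intro p _
      exact (change_finite _).image _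
    apply this.subset
    rintro ⟨p, q⟩ ⟨h1, h2⟩
    simp only [Set.mem_iUnion]
    exact ⟨p, h1, q, h2, rfl⟩
  refine ⟨NN.ncard, fun u l hl => ?_⟩
  have hex : ∀ e : Ω × Ω, e ∈ D X (AA κ u l) → ∃ f : F, ∃ p ∈ P, e.1 = (f : G) • p.1 ∧
      e.2 = (f : G) • p.2 := fun e he => hPe e.1 e.2 he.1
  choose f p hp1 hp2 hp3 using hex
  classical
  let fn : Ω × Ω → (Ω × Ω) × (FreeGroup α × (α × Bool)) := fun e =>
    if he : e ∈ D X (AA κ u l) then (p e he, (u⁻¹ * (j (f e he) * κ (p e he).1), l)) else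
      ((e.1, e.2), (1, l))
  have hmem : ∀ e ∈ D X (AA κ u l), fn e ∈ NN := by
    intro e he
    simp only [fn, dif_pos he]
    have h1 := hp1 e he
    have h2 := hp2 e he
    have h3 := hp3 e he
    refine ⟨h1, ?_⟩
    obtain ⟨-, h4, h5⟩ := id he
    simp only [AA, Set.mem_ofPred_eq] at h4 h5
    rw [h2, h.mem_iff u hl] at h4
    rw [h3, h.mem_iff u hl] at h5
    simp only
    intro h6
    apply h5
    have := h6.1 h4
    convert this using 1
    group
  have hinj : Set.InjOn fn (D X (AA κ u l)) := by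
    intro e he e' he' hee
    simp only [fn, dif_pos he, dif_pos he'] at hee
    have h2 := hp2 e he
    have h3 := hp3 e he
    have h2' := hp2 e' he'
    have h3' := hp3 e' he'
    simp only [Prod.mk.injEq, and_true] at hee
    obtain ⟨hpp, hff⟩ := hee
    rw [hpp] at hff h2 h3
    have h4 : j (f e he) = j (f e' he') := by
      have := mul_left_cancel hff
      exact mul_right_cancel this
    have h5 := h.inj h4
    rw [h5] at h2 h3
    exact Prod.ext (h2.trans h2'.symm) (h3.trans h3'.symm)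
  exact ⟨Set.Finite.of_injOn hmem hinj hNN, Set.ncard_le_ncard_of_injOn fn hmem hinj hNN⟩

theorem Cay.pow_mem_iff {X : SimpleGraph Ω} {F : Subgroup G} {j : F →* FreeGroup α} {Y : Set α}
    {κ : Ω → FreeGroup α} (h : Cay X F j Y κ) {u c : FreeGroup α} {l : α × Bool} (hl : l.1 ∉ Y)
    {m : F} (hm : j m = u * c * u⁻¹) (hc : c ≠ 1) (ω : Ω) :
    ∃ k0 : ℕ, ∀ k ≥ k0, ((m : G) ^ k • ω ∈ AA κ u l ↔ c ^ k ∈ beg l) := by
  obtain ⟨k0, hk0⟩ := ev_beg hc l (u⁻¹ * κ ω)
  refine ⟨k0, fun k hk => ?_⟩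
  rw [hk0 k hk]
  simp only [AA, Set.mem_ofPred_eq]
  have e1 : (m : G) ^ k = ((m ^ k : F) : G) := by simp
  rw [e1, h.mem_iff u hl, map_pow, hm, conj_pow]
  have : u⁻¹ * (u * c ^ k * u⁻¹ * κ ω) = c ^ k * (u⁻¹ * κ ω) := by group
  rw [this]

theorem Cay.spl {X : SimpleGraph Ω} {F : Subgroup G} {j : F →* FreeGroup α} {Y : Set α}
    {κ : Ω → FreeGroup α} (h : Cay X F j Y κ) {u c : FreeGroup α} {l : α × Bool} (hl : l.1 ∉ Y)
    {m : F} (hm : j m = u * c * u⁻¹) (hc : CR l c) : Spl (m : G) (AA κ u l) := by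
  left
  constructor
  · intro ω
    obtain ⟨k0, hk0⟩ := h.pow_mem_iff hl hm hc.ne_one ω
    refine ⟨k0 + 1, fun k hk => ?_⟩
    rw [hk0 k (by omega)]
    exact hc.pow_beg (by omega)
  · intro ω
    have hm' : j m⁻¹ = u * c⁻¹ * u⁻¹ := by
      rw [map_inv, hm]
      group
    obtain ⟨k0, hk0⟩ := h.pow_mem_iff hl hm' (inv_ne_one.2 hc.ne_one) ω
    refine ⟨k0, fun k hk => ?_⟩
    rw [Set.mem_compl_iff]
    intro h2
    have h3 := (hk0 k hk).1 (by simpa using h2)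
    exact hc.pow_inv_not_beg k h3

theorem Cay.test {X : SimpleGraph Ω} {F : Subgroup G} {j : F →* FreeGroup α} {Y : Set α}
    {κ : Ω → FreeGroup α} (h : Cay X F j Y κ) : ∃ K : ℕ, ∀ (m : F) (u c : FreeGroup α)
      (l : α × Bool), l.1 ∉ Y → j m = u * c * u⁻¹ → CR l c → Test X F K (m : G) := by
  obtain ⟨K, hK⟩ := h.bound
  refine ⟨K, fun m u c l hl hm hc => ⟨m.2, AA κ u l, (hK u l hl).1, (hK u l hl).2, ?_⟩⟩
  exact h.spl hl hm hc

/-- a group acting on a tree, with edge stabilisers meeting `F` trivially -/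
structure GTree (G : Type) [Group G] (F : Subgroup G) where
  N : Type
  act : MulAction G N
  T : SimpleGraph N
  tree : T.IsTree
  inv : ∀ (g : G) p q, T.Adj p q → T.Adj (g • p) (g • q)
  typ : N → Prop
  typ_smul : ∀ (g : G) p, typ (g • p) ↔ typ p
  typ_adj : ∀ p q, T.Adj p q → (typ p ↔ ¬ typ q)
  edge : ∀ p q, T.Adj p q → ∀ f ∈ F, f • p = p → f • q = q → f = 1
  fixed : ∀ C : Subgroup G, Finite C → ∃ p : N, ∀ c ∈ C, c • p = p

attribute [instance] GTree.act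

/-- the tree of a nested family -/
def treeOf {F : Subgroup G} {E : Set (Set Ω)} (hE : Fam F E) (ω : Ω) : GTree G F where
  N := Node hE
  act := nodeAct hE
  T := TG hE
  tree := TG_tree hE ω
  inv := TG_inv hE
  typ p := Full E p.1
  typ_smul g p := full_smul hE g p
  typ_adj _ _ h := full_adj hE h
  edge _ _ h _ hf hp hq := edge_stab hE h hf hp hq
  fixed C _ := fixed_node hE C ω

/-- torsion-freeness of subgroups of free groups -/
theorem tf_of_inj {F : Subgroup G} {j : F →* FreeGroup α} (hj : Function.Injective j) :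
    ∀ f ∈ F, f ≠ 1 → ∀ n : ℕ, n ≠ 0 → f ^ n ≠ 1 := by
  intro f hf h1 n hn h2
  have h3 : j ⟨f, hf⟩ ≠ 1 := by
    intro h
    rw [← map_one j] at h
    exact h1 (congrArg Subtype.val (hj h))
  apply hn
  apply free_pow_inj h3
  simp only [pow_zero]
  rw [← map_pow, ← map_one j]
  congr 1
  exact Subtype.ext h2

end Pool.Agent.U843.LR
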