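import Pool.Agent.U843.LR.Opt

set_option autoImplicit false

/-!
# The optimal cuts are nested
-/

namespace Pool.Agent.U843.LR

open SimpleGraph Pointwise

variable {G Ω : Type} [Group G] [MulAction G Ω]

theorem bool8 : ∀ a1 a2 b1 b2 c1 c2 d1 d2 : Bool, a1 ≠ a2 → d1 ≠ d2 →
    (∃ s t : Bool, (((a1 == s) && (b1 == t)) ≠ ((a2 == s) && (b2 == t))) ∧
      (((c1 == !s) && (d1 == !t)) ≠ ((c2 == !s) && (d2 == !t)))) ∨
    (b1 ≠ b2 ∧ c1 ≠ c2 ∧ ∃ s t : Bool,
      (((a1 == s) && (b1 == t)) ≠ ((a2 == s) && (b2 == t))) ∧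
      (((a1 == !s) && (b1 == !t)) ≠ ((a2 == !s) && (b2 == !t))) ∧
      (((c1 == s) && (d1 == !t)) ≠ ((c2 == s) && (d2 == !t))) ∧
      (((c1 == !s) && (d1 == t)) ≠ ((c2 == !s) && (d2 == t)))) := by
  decide

/-- `A` or its complement -/
def cpl (s : Bool) (A : Set Ω) : Set Ω := if s then A else Aᶜ

theorem cpl_not (s : Bool) (A : Set Ω) : cpl (!s) A = (cpl s A)ᶜ := by
  cases s <;> simp [cpl]

theorem cpl_D_finite {X : SimpleGraph Ω} {A : Set Ω} (h : (D X A).Finite) (s : Bool) :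
    (D X (cpl s A)).Finite := by
  cases s
  · exact D_compl_finite h
  · exact h

theorem cpl_D_ncard (X : SimpleGraph Ω) (A : Set Ω) (s : Bool) :
    (D X (cpl s A)).ncard = (D X A).ncard := by
  cases s
  · exact D_compl_ncard X A
  · rfl

theorem cpl_cr (T : Set (Set Ω)) (A : Set Ω) (s : Bool) : cr T (cpl s A) = cr T A := by
  cases s
  · exact cr_compl T A
  · rfl

theorem cpl_nested {A B : Set Ω} (s t : Bool) : Nested (cpl s A) (cpl t B) ↔ Nested A B := by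
  cases s <;> cases t <;> simp [cpl, nested_compl_left, nested_compl_right]

open Classical in
theorem pos_cpl [Nonempty Ω] {X : SimpleGraph Ω} {F : Subgroup G} (h : Ctx X F) {m : G}
    (hm : m ∈ F) (h1 : m ≠ 1) {A : Set Ω} (hA : (D X A).Finite) (s : Bool) :
    Pos m (cpl s A) ↔ (decide (Pos m A) == s) = true := by
  cases s
  · simp only [cpl, Bool.false_eq_true, if_false]
    rw [pos_compl_iff h hm h1 hA]
    simp
  · simp [cpl]

open Classical in
theorem spl_corner [Nonempty Ω] {X : SimpleGraph Ω} {F : Subgroup G} (h : Ctx X F) {m : G}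
    (hm : m ∈ F) (h1 : m ≠ 1) {A B : Set Ω} (hA : (D X A).Finite) (hB : (D X B).Finite)
    (s t : Bool)
    (hne : ((decide (Pos m A) == s) && (decide (Pos m B) == t)) ≠
      ((decide (Pos m⁻¹ A) == s) && (decide (Pos m⁻¹ B) == t))) :
    Spl m (cpl s A ∩ cpl t B) := by
  have hm' := F.inv_mem hm
  have h1' := inv_ne_one.2 h1
  rw [spl_iff h hm h1 (D_inter_finite (cpl_D_finite hA s) (cpl_D_finite hB t)), pos_inter, pos_inter,
    pos_cpl h hm h1 hA, pos_cpl h hm h1 hB, pos_cpl h hm' h1' hA, pos_cpl h hm' h1' hB]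
  intro h2
  apply hne
  rw [← Bool.and_eq_true_iff, ← Bool.and_eq_true_iff] at h2
  exact Bool.eq_iff_iff.2 h2

theorem corner_sub {X : SimpleGraph Ω} {A B : Set Ω} (hA : (D X A).Finite) (hB : (D X B).Finite)
    (s t : Bool) : (D X (cpl s A ∩ cpl t B)).ncard + (D X (cpl (!s) A ∩ cpl (!t) B)).ncard ≤
      (D X A).ncard + (D X B).ncard := by
  have h1 := D_submod (cpl_D_finite hA s) (cpl_D_finite hB t)
  rw [cpl_D_ncard, cpl_D_ncard] at h1
  rw [cpl_not, cpl_not, ← Set.compl_union, D_compl_ncard]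
  exact h1

theorem corner_cr {T : Set (Set Ω)} (hT : ∀ A ∈ T, Aᶜ ∈ T) {A B : Set Ω} (hAB : ¬ Nested A B)
    (hAT : A ∈ T) (hA : (cr T A).Finite) (hB : (cr T B).Finite) (s t : Bool) :
    (cr T (cpl s A ∩ cpl t B)).ncard + (cr T (cpl (!s) A ∩ cpl (!t) B)).ncard <
      (cr T A).ncard + (cr T B).ncard := by
  have h0 : cpl s A ∈ T := by
    cases s
    · exact hT A hAT
    · exact hAT
  have h1 := cr_lt (T := T) (A := cpl s A) (B := cpl t B) (by rwa [cpl_nested]) h0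
    (by rwa [cpl_cr]) (by rwa [cpl_cr])
  rw [cpl_cr, cpl_cr] at h1
  rw [cpl_not, cpl_not, ← Set.compl_union, cr_compl]
  exact h1

theorem nested_opt [Nonempty Ω] {X : SimpleGraph Ω} {F : Subgroup G} (h : Ctx X F) {K : ℕ}
    {A B : Set Ω} (hA : A ∈ EE X F K) (hB : B ∈ EE X F K) : Nested A B := by
  classical
  by_contra hn
  obtain ⟨m, hm, hAm, hAo⟩ := hA
  obtain ⟨m', hm', hBm, hBo⟩ := hB
  have hAf := hAm.1
  have hBf := hBm.1
  have h1 : m ≠ 1 := hAm.2.2.ne_one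
  have h1' : m' ≠ 1 := hBm.2.2.ne_one
  have hTc : ∀ A ∈ TT X F K, Aᶜ ∈ TT X F K := fun A hA => TT_compl hA
  have hAT : A ∈ TT X F K := ⟨m, hm, hAm⟩
  have hcA := cr_fin h (K := K) hAf
  have hcB := cr_fin h (K := K) hBf
  have e1 := (spl_iff h hm.1 h1 hAf).1 hAm.2.2
  have e2 := (spl_iff h hm'.1 h1' hBf).1 hBm.2.2
  have hsub := fun s t => corner_sub hAf hBf s t
  have hcr := fun s t => corner_cr hTc hn hAT hcA hcB s t
  have hfin : ∀ s t, (D X (cpl s A ∩ cpl t B)).Finite := fun s t =>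
    D_inter_finite (cpl_D_finite hAf s) (cpl_D_finite hBf t)
  have hkA := hAm.2.1
  have hkB := hBm.2.1
  rcases bool8 (decide (Pos m A)) (decide (Pos m⁻¹ A)) (decide (Pos m B)) (decide (Pos m⁻¹ B))
    (decide (Pos m' A)) (decide (Pos m'⁻¹ A)) (decide (Pos m' B)) (decide (Pos m'⁻¹ B))
    (by simpa using e1) (by simpa using e2) with ⟨s, t, q1, q2⟩ | ⟨q0, q0', s, t, q1, q2, q3, q4⟩
  · have s1 := spl_corner h hm.1 h1 hAf hBf s t q1
    have s2 := spl_corner h hm'.1 h1' hAf hBf (!s) (!t) q2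
    have k1 := kmin_le (hfin s t) s1
    have k2 := kmin_le (hfin (!s) (!t)) s2
    have k3 := hsub s t
    have k4 := hcr s t
    have k5 := hAo _ (show cpl s A ∩ cpl t B ∈ Cmin X m from ⟨hfin s t, by omega, s1⟩)
    have k6 := hBo _ (show cpl (!s) A ∩ cpl (!t) B ∈ Cmin X m' from ⟨hfin _ _, by omega, s2⟩)
    omega
  · have s1 := spl_corner h hm.1 h1 hAf hBf s t q1
    have s2 := spl_corner h hm.1 h1 hAf hBf (!s) (!t) q2
    have s3 := spl_corner h hm'.1 h1' hAf hBf s (!t) q3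
    have s4 := spl_corner h hm'.1 h1' hAf hBf (!s) t q4
    have k1 := kmin_le (hfin s t) s1
    have k2 := kmin_le (hfin (!s) (!t)) s2
    have k3 := kmin_le (hfin s (!t)) s3
    have k4 := kmin_le (hfin (!s) t) s4
    have k5 := hsub s t
    have k6 := hsub s (!t)
    rw [Bool.not_not] at k6
    have k7 := hcr s t
    have sB : Spl m B := by
      rw [spl_iff h hm.1 h1 hBf]
      simpa using q0
    have sA : Spl m' A := by
      rw [spl_iff h hm'.1 h1' hAf]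
      simpa using q0'
    have r1 := hAo B ⟨hBf, by omega, sB⟩
    have r2 := hBo A ⟨hAf, by omega, sA⟩
    have r3 := hAo _ (show cpl s A ∩ cpl t B ∈ Cmin X m from ⟨hfin s t, by omega, s1⟩)
    have r4 := hAo _ (show cpl (!s) A ∩ cpl (!t) B ∈ Cmin X m from ⟨hfin _ _, by omega, s2⟩)
    omega

/-- What is needed of a nested family. -/
structure Fam (F : Subgroup G) (E : Set (Set Ω)) : Prop where
  nested : ∀ A ∈ E, ∀ B ∈ E, Nested A B
  compl : ∀ A ∈ E, Aᶜ ∈ E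
  smul : ∀ A ∈ E, ∀ g : G, g • A ∈ E
  sep : ∀ x y : Ω, {A | A ∈ E ∧ x ∈ A ∧ y ∉ A}.Finite
  ne : ∀ A ∈ E, A.Nonempty
  stab : ∀ A ∈ E, ∀ f ∈ F, f • A = A → f = 1

theorem EE_compl {X : SimpleGraph Ω} {F : Subgroup G} {K : ℕ} {A : Set Ω}
    (hA : A ∈ EE X F K) : Aᶜ ∈ EE X F K := by
  obtain ⟨m, hm, h1, h2⟩ := hA
  refine ⟨m, hm, Cmin_compl h1, fun B hB => ?_⟩
  rw [cr_compl]
  exact h2 B hB

theorem EE_smul {X : SimpleGraph Ω} {F : Subgroup G} (h : Ctx X F) {K : ℕ} {A : Set Ω}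
    (hA : A ∈ EE X F K) (g : G) : g • A ∈ EE X F K := by
  obtain ⟨m, hm, h1, h2⟩ := hA
  refine ⟨_, hm.conj h g, Cmin_conj h hm g h1, fun B hB => ?_⟩
  rw [cr_smul h]
  have hB' : g⁻¹ • B ∈ Cmin X m := by
    have := Cmin_conj h (hm.conj h g) g⁻¹ hB
    have e : g⁻¹ * (g * m * g⁻¹) * g⁻¹⁻¹ = m := by group
    rwa [e] at this
  have := h2 _ hB'
  rwa [cr_smul h] at this

theorem spl_nonempty [Nonempty Ω] {m : G} {A : Set Ω} (h : Spl m A) : A.Nonempty := by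
  obtain ⟨ω⟩ := ‹Nonempty Ω›
  rcases h with ⟨h1, -⟩ | ⟨-, h1⟩
  · obtain ⟨k, hk⟩ := h1 ω
    exact ⟨_, hk k le_rfl⟩
  · obtain ⟨k, hk⟩ := h1 ω
    exact ⟨_, hk k le_rfl⟩

theorem stab_cut {X : SimpleGraph Ω} {F : Subgroup G} (h : Ctx X F) {A : Set Ω}
    (hA : (D X A).Finite) {x y : Ω} (hx : x ∈ A) (hy : y ∉ A) {f : G} (hf : f ∈ F)
    (hfA : f • A = A) : f = 1 := by
  by_contra h1
  obtain ⟨⟨a, b⟩, hab⟩ := exists_bd h.conn hx hy
  have hpow : ∀ k : ℕ, f ^ k • A = A := by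
    intro k
    induction k with
    | zero => simp
    | succ n ih => rw [pow_succ, mul_smul, hfA, ih]
  have hmem : ∀ k : ℕ, (f ^ k • a, f ^ k • b) ∈ D X A := by
    intro k
    refine ⟨h.inv _ _ _ hab.1, ?_, ?_⟩
    · have : f ^ k • a ∈ f ^ k • A := Set.smul_mem_smul_set hab.2.1
      rwa [hpow] at this
    · intro hb
      apply hab.2.2
      have : f ^ k • b ∈ f ^ k • A := by rwa [hpow]
      rwa [Set.smul_mem_smul_set_iff] at this
  have hinf : (Set.range (fun k : ℕ => (f ^ k • a, f ^ k • b))).Infinite := by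
    apply Set.infinite_range_of_injective
    intro k l hkl
    simp only [Prod.mk.injEq] at hkl
    exact h.fix_pow hf h1 hab.1 hkl.1 hkl.2
  apply hinf
  apply hA.subset
  rintro _ ⟨k, rfl⟩
  exact hmem k

theorem EE_sub_TT {X : SimpleGraph Ω} {F : Subgroup G} {K : ℕ} {A : Set Ω}
    (hA : A ∈ EE X F K) : A ∈ TT X F K := by
  obtain ⟨m, hm, h1, -⟩ := hA
  exact ⟨m, hm, h1⟩

theorem EE_fam [Nonempty Ω] {X : SimpleGraph Ω} {F : Subgroup G} (h : Ctx X F) (K : ℕ) :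
    Fam F (EE X F K) where
  nested A hA B hB := nested_opt h hA hB
  compl A hA := EE_compl hA
  smul A hA g := EE_smul h hA g
  sep x y := by
    apply (tk_sep X h.conn K x y).subset
    rintro A ⟨h1, h2, h3⟩
    exact ⟨TT_tk h (EE_sub_TT h1), h2, h3⟩
  ne A hA := by
    obtain ⟨m, hm, h1, -⟩ := hA
    exact spl_nonempty h1.2.2
  stab A hA f hf hfA := by
    have h1 := (EE_compl hA)
    obtain ⟨m, hm, h2, -⟩ := hA
    obtain ⟨m', hm', h3, -⟩ := h1
    obtain ⟨x, hx⟩ := spl_nonempty h2.2.2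
    obtain ⟨y, hy⟩ := spl_nonempty h3.2.2
    exact stab_cut h h2.1 hx hy hf hfA

theorem EE_spl {X : SimpleGraph Ω} {F : Subgroup G} {K : ℕ} {m : G} (hm : Test X F K m) :
    ∃ A ∈ EE X F K, Spl m A := by
  obtain ⟨A, hA⟩ := Copt_nonempty hm
  exact ⟨A, ⟨m, hm, hA⟩, hA.1.2.2⟩

end Pool.Agent.U843.LR
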