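import Pool.Agent.U843.LR.Cut

set_option autoImplicit false

/-!
# Optimal cuts splitting an element of infinite order are nested (after Dunwoody, Diekert and Weiss)
-/

namespace Pool.Agent.U843.LR

open SimpleGraph Pointwise

variable {G Ω : Type} [Group G] [MulAction G Ω]

/-- the standing assumptions on a group acting on a graph -/
structure Ctx (X : SimpleGraph Ω) (F : Subgroup G) : Prop where
  conn : X.Preconnected
  inv : ∀ (g : G) (x y : Ω), X.Adj x y → X.Adj (g • x) (g • y)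
  nrm : F.Normal
  tf : ∀ f ∈ F, f ≠ 1 → ∀ n : ℕ, n ≠ 0 → f ^ n ≠ 1
  free : ∀ f ∈ F, ∀ x y, X.Adj x y → f • x = x → f • y = y → f = 1

theorem D_smul {X : SimpleGraph Ω} {F : Subgroup G} (h : Ctx X F) (g : G) (A : Set Ω) :
    D X (g • A) = (fun e : Ω × Ω => (g • e.1, g • e.2)) '' D X A := by
  ext ⟨x, y⟩
  simp only [D, Set.mem_ofPred_eq, Set.mem_smul_set_iff_inv_smul_mem, Set.mem_image, Prod.exists,
    Prod.mk.injEq]
  constructor
  · rintro ⟨h1, h2, h3⟩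
    exact ⟨g⁻¹ • x, g⁻¹ • y, ⟨h.inv _ _ _ h1, h2, h3⟩, by simp, by simp⟩
  · rintro ⟨a, b, ⟨h1, h2, h3⟩, rfl, rfl⟩
    simp only [inv_smul_smul]
    exact ⟨h.inv _ _ _ h1, h2, h3⟩

theorem D_smul_finite {X : SimpleGraph Ω} {F : Subgroup G} (h : Ctx X F) (g : G) {A : Set Ω}
    (hA : (D X A).Finite) : (D X (g • A)).Finite := by
  rw [D_smul h]
  exact hA.image _

theorem D_smul_ncard {X : SimpleGraph Ω} {F : Subgroup G} (h : Ctx X F) (g : G) (A : Set Ω) :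
    (D X (g • A)).ncard = (D X A).ncard := by
  rw [D_smul h]
  apply Set.ncard_image_of_injective
  rintro ⟨a, b⟩ ⟨c, d⟩ h
  simpa using h

/-- the forward end of `m` lies in `A` -/
def Pos (m : G) (A : Set Ω) : Prop := ∀ ω : Ω, ∃ k0 : ℕ, ∀ k ≥ k0, m ^ k • ω ∈ A

theorem pos_inter {m : G} {A B : Set Ω} : Pos m (A ∩ B) ↔ Pos m A ∧ Pos m B := by
  constructor
  · intro h
    refine ⟨fun ω => ?_, fun ω => ?_⟩
    · obtain ⟨k, hk⟩ := h ω
      exact ⟨k, fun l hl => (hk l hl).1⟩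
    · obtain ⟨k, hk⟩ := h ω
      exact ⟨k, fun l hl => (hk l hl).2⟩
  · rintro ⟨h1, h2⟩ ω
    obtain ⟨k, hk⟩ := h1 ω
    obtain ⟨l, hl⟩ := h2 ω
    exact ⟨max k l, fun n hn => ⟨hk n (le_trans (le_max_left _ _) hn),
      hl n (le_trans (le_max_right _ _) hn)⟩⟩

theorem Pos.mono {m : G} {A B : Set Ω} (h : Pos m A) (hAB : A ⊆ B) : Pos m B := by
  intro ω
  obtain ⟨k, hk⟩ := h ω
  exact ⟨k, fun l hl => hAB (hk l hl)⟩

theorem pos_conj {m g : G} {A : Set Ω} (h : Pos m A) : Pos (g * m * g⁻¹) (g • A) := by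
  intro ω
  obtain ⟨k, hk⟩ := h (g⁻¹ • ω)
  refine ⟨k, fun l hl => ?_⟩
  rw [Set.mem_smul_set_iff_inv_smul_mem, conj_pow, mul_smul, mul_smul, inv_smul_smul]
  exact hk l hl

theorem not_pos_both [Nonempty Ω] {m : G} {A : Set Ω} (h1 : Pos m A) (h2 : Pos m Aᶜ) : False := by
  obtain ⟨ω⟩ := ‹Nonempty Ω›
  obtain ⟨k, hk⟩ := h1 ω
  obtain ⟨l, hl⟩ := h2 ω
  exact hl (max k l) (le_max_right _ _) (hk (max k l) (le_max_left _ _))

theorem Ctx.tf' {X : SimpleGraph Ω} {F : Subgroup G} (h : Ctx X F) {m : G} (hm : m ∈ F)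
    (h1 : m ≠ 1) {k l : ℕ} (hkl : m ^ k = m ^ l) : k = l := by
  wlog hle : k ≤ l generalizing k l
  · exact (this hkl.symm (by omega)).symm
  by_contra hne
  apply h.tf m hm h1 (l - k) (by omega)
  have : m ^ l = m ^ k * m ^ (l - k) := by rw [← pow_add]; congr 1; omega
  rw [this] at hkl
  exact (mul_eq_left.1 hkl.symm)

theorem Ctx.fix_pow {X : SimpleGraph Ω} {F : Subgroup G} (h : Ctx X F) {m : G} (hm : m ∈ F)
    (h1 : m ≠ 1) {x y : Ω} (hxy : X.Adj x y) {k l : ℕ} (hx : m ^ k • x = m ^ l • x)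
    (hy : m ^ k • y = m ^ l • y) : k = l := by
  apply h.tf' hm h1
  have h2 : (m ^ l)⁻¹ * m ^ k = 1 := by
    apply h.free _ (F.mul_mem (F.inv_mem (F.pow_mem hm l)) (F.pow_mem hm k)) x y hxy
    · rw [mul_smul, hx, inv_smul_smul]
    · rw [mul_smul, hy, inv_smul_smul]
  have := eq_of_inv_mul_eq_one h2
  exact this.symm

theorem ev_adj {X : SimpleGraph Ω} {F : Subgroup G} (h : Ctx X F) {m : G} (hm : m ∈ F)
    (h1 : m ≠ 1) {A : Set Ω} (hA : (D X A).Finite) {x y : Ω} (hxy : X.Adj x y) :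
    ∃ k0 : ℕ, ∀ k ≥ k0, (m ^ k • x ∈ A ↔ m ^ k • y ∈ A) := by
  have hfin : {k : ℕ | ¬ (m ^ k • x ∈ A ↔ m ^ k • y ∈ A)}.Finite := by
    apply Set.Finite.of_finite_image (f := fun k : ℕ => (m ^ k • x, m ^ k • y))
    · apply (hA.union (D_compl_finite hA)).subset
      rintro _ ⟨k, hk, rfl⟩
      have hadj : X.Adj (m ^ k • x) (m ^ k • y) := h.inv _ _ _ hxy
      by_cases h3 : m ^ k • x ∈ A
      · left
        exact ⟨hadj, h3, fun h4 => hk (by tauto)⟩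
      · right
        refine ⟨hadj, h3, fun h4 => hk ?_⟩
        constructor
        · exact fun h5 => absurd h5 h3
        · exact fun h5 => absurd h5 h4
    · intro k _ l _ hkl
      simp only [Prod.mk.injEq] at hkl
      exact h.fix_pow hm h1 hxy hkl.1 hkl.2
  obtain ⟨N, hN⟩ := hfin.bddAbove
  refine ⟨N + 1, fun k hk => ?_⟩
  by_contra hc
  have := hN hc
  omega

theorem ev_all {X : SimpleGraph Ω} {F : Subgroup G} (h : Ctx X F) {m : G} (hm : m ∈ F)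
    (h1 : m ≠ 1) {A : Set Ω} (hA : (D X A).Finite) (x y : Ω) :
    ∃ k0 : ℕ, ∀ k ≥ k0, (m ^ k • x ∈ A ↔ m ^ k • y ∈ A) := by
  obtain ⟨P⟩ := h.conn x y
  induction P with
  | nil => exact ⟨0, fun _ _ => Iff.rfl⟩
  | cons hadj _ ih =>
    obtain ⟨k, hk⟩ := ih
    obtain ⟨l, hl⟩ := ev_adj h hm h1 hA hadj
    exact ⟨max k l, fun n hn => (hl n (le_trans (le_max_right _ _) hn)).trans
      (hk n (le_trans (le_max_left _ _) hn))⟩

theorem pos_or {X : SimpleGraph Ω} {F : Subgroup G} (h : Ctx X F) {m : G} (hm : m ∈ F)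
    (h1 : m ≠ 1) {A : Set Ω} (hA : (D X A).Finite) : Pos m A ∨ Pos m Aᶜ := by
  by_cases hne : Nonempty Ω
  swap
  · left
    intro ω
    exact absurd ⟨ω⟩ hne
  obtain ⟨x⟩ := hne
  obtain ⟨k, hk⟩ := ev_all h hm h1 hA x (m • x)
  have hk' : ∀ l ≥ k, (m ^ l • x ∈ A ↔ m ^ k • x ∈ A) := by
    intro l hl
    induction l, hl using Nat.le_induction with
    | base => exact Iff.rfl
    | succ n hn ih =>
      rw [← ih, hk n hn, ← mul_smul, ← pow_succ]
  by_cases hx : m ^ k • x ∈ A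
  · left
    intro y
    obtain ⟨l, hl⟩ := ev_all h hm h1 hA x y
    refine ⟨max k l, fun n hn => ?_⟩
    rw [← hl n (le_trans (le_max_right _ _) hn), hk' n (le_trans (le_max_left _ _) hn)]
    exact hx
  · right
    intro y
    obtain ⟨l, hl⟩ := ev_all h hm h1 hA x y
    refine ⟨max k l, fun n hn => ?_⟩
    rw [Set.mem_compl_iff, ← hl n (le_trans (le_max_right _ _) hn),
      hk' n (le_trans (le_max_left _ _) hn)]
    exact hx

theorem pos_compl_iff [Nonempty Ω] {X : SimpleGraph Ω} {F : Subgroup G} (h : Ctx X F) {m : G}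
    (hm : m ∈ F) (h1 : m ≠ 1) {A : Set Ω} (hA : (D X A).Finite) : Pos m Aᶜ ↔ ¬ Pos m A := by
  constructor
  · intro h2 h3
    exact not_pos_both h3 h2
  · intro h2
    rcases pos_or h hm h1 hA with h3 | h3
    · exact absurd h3 h2
    · exact h3

/-- `A` separates the two ends of `m` -/
def Spl (m : G) (A : Set Ω) : Prop := (Pos m A ∧ Pos m⁻¹ Aᶜ) ∨ (Pos m Aᶜ ∧ Pos m⁻¹ A)

theorem Spl.compl {m : G} {A : Set Ω} (h : Spl m A) : Spl m Aᶜ := by
  unfold Spl at *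
  rw [compl_compl]
  tauto

theorem Spl.conj {m : G} {A : Set Ω} (g : G) (h : Spl m A) : Spl (g * m * g⁻¹) (g • A) := by
  unfold Spl at *
  rw [conj_inv, ← Set.smul_set_compl]
  rcases h with ⟨h1, h2⟩ | ⟨h1, h2⟩
  · exact Or.inl ⟨pos_conj h1, pos_conj h2⟩
  · exact Or.inr ⟨pos_conj h1, pos_conj h2⟩

theorem Spl.ne_one [Nonempty Ω] {m : G} {A : Set Ω} (h : Spl m A) : m ≠ 1 := by
  rintro rfl
  rcases h with ⟨h1, h2⟩ | ⟨h1, h2⟩
  · rw [inv_one] at h2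
    exact not_pos_both h1 h2
  · rw [inv_one] at h2
    exact not_pos_both h2 h1

theorem spl_iff [Nonempty Ω] {X : SimpleGraph Ω} {F : Subgroup G} (h : Ctx X F) {m : G}
    (hm : m ∈ F) (h1 : m ≠ 1) {A : Set Ω} (hA : (D X A).Finite) :
    Spl m A ↔ ¬ (Pos m A ↔ Pos m⁻¹ A) := by
  unfold Spl
  rw [pos_compl_iff h hm h1 hA, pos_compl_iff h (F.inv_mem hm) (inv_ne_one.2 h1) hA]
  tauto

/-- the least size of a cut splitting `m` -/
noncomputable def kmin (X : SimpleGraph Ω) (m : G) : ℕ :=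
  sInf {n | ∃ A : Set Ω, (D X A).Finite ∧ (D X A).ncard = n ∧ Spl m A}

/-- the smallest cuts splitting `m` -/
def Cmin (X : SimpleGraph Ω) (m : G) : Set (Set Ω) :=
  {A | (D X A).Finite ∧ (D X A).ncard = kmin X m ∧ Spl m A}

theorem kmin_le {X : SimpleGraph Ω} {m : G} {A : Set Ω} (hA : (D X A).Finite) (h : Spl m A) :
    kmin X m ≤ (D X A).ncard := Nat.sInf_le ⟨A, hA, rfl, h⟩

theorem Cmin_compl {X : SimpleGraph Ω} {m : G} {A : Set Ω} (h : A ∈ Cmin X m) :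
    Aᶜ ∈ Cmin X m := by
  refine ⟨D_compl_finite h.1, ?_, h.2.2.compl⟩
  rw [D_compl_ncard]
  exact h.2.1

theorem kmin_conj_le {X : SimpleGraph Ω} {F : Subgroup G} (h : Ctx X F) (m g : G) {A : Set Ω}
    (hA : A ∈ Cmin X m) : kmin X (g * m * g⁻¹) ≤ kmin X m := by
  rw [← hA.2.1, ← D_smul_ncard h g A]
  exact kmin_le (D_smul_finite h g hA.1) (hA.2.2.conj g)

/-- the elements tested with bound `K` -/
def Test (X : SimpleGraph Ω) (F : Subgroup G) (K : ℕ) (m : G) : Prop :=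
  m ∈ F ∧ ∃ A : Set Ω, (D X A).Finite ∧ (D X A).ncard ≤ K ∧ Spl m A

theorem Test.conj {X : SimpleGraph Ω} {F : Subgroup G} (h : Ctx X F) {K : ℕ} {m : G}
    (hm : Test X F K m) (g : G) : Test X F K (g * m * g⁻¹) := by
  obtain ⟨h1, A, h2, h3, h4⟩ := hm
  exact ⟨h.nrm.conj_mem m h1 g, g • A, D_smul_finite h g h2, by rwa [D_smul_ncard h], h4.conj g⟩

theorem Test.exists_min {X : SimpleGraph Ω} {F : Subgroup G} {K : ℕ} {m : G}
    (hm : Test X F K m) : (Cmin X m).Nonempty := by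
  obtain ⟨h1, A, h2, h3, h4⟩ := hm
  obtain ⟨B, hB⟩ := Nat.sInf_mem (s := {n | ∃ A : Set Ω, (D X A).Finite ∧ (D X A).ncard = n ∧
    Spl m A}) ⟨_, A, h2, rfl, h4⟩
  exact ⟨B, hB⟩

theorem Test.kmin_le {X : SimpleGraph Ω} {F : Subgroup G} {K : ℕ} {m : G}
    (hm : Test X F K m) : kmin X m ≤ K := by
  obtain ⟨h1, A, h2, h3, h4⟩ := hm
  exact (LR.kmin_le h2 h4).trans h3

theorem kmin_conj {X : SimpleGraph Ω} {F : Subgroup G} (h : Ctx X F) {K : ℕ} {m : G}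
    (hm : Test X F K m) (g : G) : kmin X (g * m * g⁻¹) = kmin X m := by
  apply le_antisymm
  · obtain ⟨A, hA⟩ := hm.exists_min
    exact kmin_conj_le h m g hA
  · obtain ⟨A, hA⟩ := (hm.conj h g).exists_min
    have := kmin_conj_le h _ g⁻¹ hA
    have e : g⁻¹ * (g * m * g⁻¹) * g⁻¹⁻¹ = m := by group
    rwa [e] at this

theorem Cmin_conj {X : SimpleGraph Ω} {F : Subgroup G} (h : Ctx X F) {K : ℕ} {m : G}
    (hm : Test X F K m) (g : G) {A : Set Ω} (hA : A ∈ Cmin X m) :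
    g • A ∈ Cmin X (g * m * g⁻¹) := by
  refine ⟨D_smul_finite h g hA.1, ?_, hA.2.2.conj g⟩
  rw [D_smul_ncard h, kmin_conj h hm]
  exact hA.2.1

/-- a nonempty proper set of vertices has a boundary edge -/
theorem exists_bd {X : SimpleGraph Ω} (hX : X.Preconnected) {A : Set Ω} {x y : Ω} (hx : x ∈ A)
    (hy : y ∉ A) : (D X A).Nonempty := by
  obtain ⟨P⟩ := hX x y
  obtain ⟨d, -, hd1, hd2⟩ := P.exists_boundary_dart A hx hy
  exact ⟨(d.fst, d.snd), d.adj, hd1, hd2⟩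

theorem Cmin_conn [Nonempty Ω] {X : SimpleGraph Ω} {F : Subgroup G} (h : Ctx X F) {m : G}
    (hm : m ∈ F) {A : Set Ω} (hA : A ∈ Cmin X m) : (X.induce A).Preconnected := by
  by_contra hc
  unfold Preconnected at hc
  push Not at hc
  obtain ⟨a, b, hab⟩ := hc
  have h1 : m ≠ 1 := hA.2.2.ne_one
  let C : Set Ω := {z | ∃ hz : z ∈ A, (X.induce A).Reachable a ⟨z, hz⟩}
  let C' : Set Ω := A \ C
  have haC : a.1 ∈ C := ⟨a.2, Reachable.refl _⟩
  have hbC : b.1 ∉ C := fun ⟨_, h⟩ => hab h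
  have hadj : ∀ x y, X.Adj x y → x ∈ C → y ∈ A → y ∈ C := by
    rintro x y hxy ⟨hx, hr⟩ hy
    refine ⟨hy, hr.trans ?_⟩
    exact Adj.reachable (G := X.induce A) (show (X.induce A).Adj ⟨x, hx⟩ ⟨y, hy⟩ from hxy)
  have hCA : C ⊆ A := fun z hz => hz.1
  have hD1 : D X C ⊆ D X A := by
    rintro ⟨x, y⟩ ⟨q1, q2, q3⟩
    exact ⟨q1, hCA q2, fun hy => q3 (hadj x y q1 q2 hy)⟩
  have hD2 : D X C' ⊆ D X A := by
    rintro ⟨x, y⟩ ⟨q1, q2, q3⟩
    refine ⟨q1, q2.1, fun hy => q3 ⟨hy, fun hyC => q2.2 ?_⟩⟩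
    exact hadj y x q1.symm hyC q2.1
  have hdisj : Disjoint (D X C) (D X C') := by
    rw [Set.disjoint_left]
    rintro ⟨x, y⟩ ⟨q1, q2, q3⟩ ⟨-, q4, -⟩
    exact q4.2 q2
  have hC1 : (D X C).Finite := hA.1.subset hD1
  have hC2 : (D X C').Finite := hA.1.subset hD2
  have hsum : (D X C).ncard + (D X C').ncard ≤ (D X A).ncard := by
    rw [← Set.ncard_union_eq hdisj hC1 hC2]
    exact Set.ncard_le_ncard (Set.union_subset hD1 hD2) hA.1
  have hp1 : 0 < (D X C).ncard := by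
    rw [Set.ncard_pos hC1]
    exact exists_bd h.conn haC hbC
  have hp2 : 0 < (D X C').ncard := by
    rw [Set.ncard_pos hC2]
    exact exists_bd h.conn (x := b.1) (y := a.1) ⟨b.2, hbC⟩ (fun h => h.2 haC)
  have hn1 : ¬ Spl m C := by
    intro hs
    have := LR.kmin_le hC1 hs
    have := hA.2.1
    omega
  have hn2 : ¬ Spl m C' := by
    intro hs
    have := LR.kmin_le hC2 hs
    have := hA.2.1
    omega
  have key : ∀ n : G, n ∈ F → n ≠ 1 → Pos n A → Pos n C ∨ Pos n C' := by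
    intro n hn hn1 hp
    rcases pos_or h hn hn1 hC1 with h2 | h2
    · exact Or.inl h2
    · right
      have : C' = A ∩ Cᶜ := rfl
      rw [this]
      exact pos_inter.2 ⟨hp, h2⟩
  rcases hA.2.2 with ⟨h2, h3⟩ | ⟨h2, h3⟩
  · rcases key m hm h1 h2 with h4 | h4
    · exact hn1 (Or.inl ⟨h4, h3.mono (Set.compl_subset_compl.2 hCA)⟩)
    · exact hn2 (Or.inl ⟨h4, h3.mono (Set.compl_subset_compl.2 (fun z hz => hz.1))⟩)
  · rcases key m⁻¹ (F.inv_mem hm) (inv_ne_one.2 h1) h3 with h4 | h4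
    · exact hn1 (Or.inr ⟨h2.mono (Set.compl_subset_compl.2 hCA), h4⟩)
    · exact hn2 (Or.inr ⟨h2.mono (Set.compl_subset_compl.2 (fun z hz => hz.1)), h4⟩)

theorem Cmin_tight [Nonempty Ω] {X : SimpleGraph Ω} {F : Subgroup G} (h : Ctx X F) {m : G}
    (hm : m ∈ F) {A : Set Ω} (hA : A ∈ Cmin X m) : Tight X A :=
  ⟨Cmin_conn h hm hA, Cmin_conn h hm (Cmin_compl hA)⟩

/-- all minimal cuts -/
def TT (X : SimpleGraph Ω) (F : Subgroup G) (K : ℕ) : Set (Set Ω) :=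
  {A | ∃ m : G, Test X F K m ∧ A ∈ Cmin X m}

theorem TT_tk [Nonempty Ω] {X : SimpleGraph Ω} {F : Subgroup G} (h : Ctx X F) {K : ℕ} {A : Set Ω}
    (hA : A ∈ TT X F K) : TK X K A := by
  obtain ⟨m, hm, hA⟩ := hA
  refine ⟨Cmin_tight h hm.1 hA, hA.1, ?_⟩
  rw [hA.2.1]
  exact hm.kmin_le

theorem TT_compl {X : SimpleGraph Ω} {F : Subgroup G} {K : ℕ} {A : Set Ω}
    (hA : A ∈ TT X F K) : Aᶜ ∈ TT X F K := by
  obtain ⟨m, hm, hA⟩ := hA
  exact ⟨m, hm, Cmin_compl hA⟩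

theorem TT_smul {X : SimpleGraph Ω} {F : Subgroup G} (h : Ctx X F) {K : ℕ} {A : Set Ω}
    (hA : A ∈ TT X F K) (g : G) : g • A ∈ TT X F K := by
  obtain ⟨m, hm, hA⟩ := hA
  exact ⟨_, hm.conj h g, Cmin_conj h hm g hA⟩

theorem nested_smul {A B : Set Ω} (g : G) (h : Nested A B) : Nested (g • A) (g • B) := by
  unfold Nested at *
  simp only [← Set.smul_set_compl, ← Set.smul_set_inter, Set.smul_set_eq_empty]
  exact h

theorem cr_smul {X : SimpleGraph Ω} {F : Subgroup G} (h : Ctx X F) {K : ℕ} {A : Set Ω} (g : G) :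
    (cr (TT X F K) (g • A)).ncard = (cr (TT X F K) A).ncard := by
  have : cr (TT X F K) (g • A) = (fun B => g • B) '' cr (TT X F K) A := by
    ext C
    simp only [cr, Set.mem_ofPred_eq, Set.mem_image]
    constructor
    · rintro ⟨h1, h2⟩
      refine ⟨g⁻¹ • C, ⟨TT_smul h h1 _, fun h3 => h2 ?_⟩, by simp⟩
      have := nested_smul g h3
      rwa [smul_inv_smul] at this
    · rintro ⟨B, ⟨h1, h2⟩, rfl⟩
      refine ⟨TT_smul h h1 _, fun h3 => h2 ?_⟩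
      have := nested_smul g⁻¹ h3
      rwa [inv_smul_smul, inv_smul_smul] at this
  rw [this]
  exact Set.ncard_image_of_injective _ (MulAction.injective g)

theorem cr_fin [Nonempty Ω] {X : SimpleGraph Ω} {F : Subgroup G} (h : Ctx X F) {K : ℕ} {A : Set Ω}
    (hA : (D X A).Finite) : (cr (TT X F K) A).Finite := by
  apply (cross_finite X h.conn K hA).subset
  rintro B ⟨h1, h2⟩
  exact ⟨TT_tk h h1, h2⟩

/-- the optimal cuts splitting `m` -/
def Copt (X : SimpleGraph Ω) (F : Subgroup G) (K : ℕ) (m : G) : Set (Set Ω) :=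
  {A | A ∈ Cmin X m ∧ ∀ B ∈ Cmin X m, (cr (TT X F K) A).ncard ≤ (cr (TT X F K) B).ncard}

/-- all optimal cuts -/
def EE (X : SimpleGraph Ω) (F : Subgroup G) (K : ℕ) : Set (Set Ω) :=
  {A | ∃ m : G, Test X F K m ∧ A ∈ Copt X F K m}

theorem Copt_nonempty {X : SimpleGraph Ω} {F : Subgroup G} {K : ℕ} {m : G}
    (hm : Test X F K m) : (Copt X F K m).Nonempty := by
  obtain ⟨A0, hA0⟩ := hm.exists_min
  obtain ⟨A, hA, hA2⟩ := Nat.sInf_mem (s := {n | ∃ A ∈ Cmin X m, (cr (TT X F K) A).ncard = n})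
    ⟨_, A0, hA0, rfl⟩
  refine ⟨A, hA, fun B hB => ?_⟩
  rw [hA2]
  exact Nat.sInf_le ⟨B, hB, rfl⟩

end Pool.Agent.U843.LR
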