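import Pool.Agent.U843.LR.Gs

set_option autoImplicit false

/-!
# Relative version: a tree with a given vertex stabiliser
-/

namespace Pool.Agent.U843.LR

open SimpleGraph Pointwise

variable {G α : Type} [Group G] [DecidableEq α]

/-- the relative Cayley graph -/
def relG (V : Subgroup G) (S : Set G) : SimpleGraph (G ⧸ V) where
  Adj x y := x ≠ y ∧ ∃ g : G, ∃ s ∈ S,
    (x = QuotientGroup.mk g ∧ y = QuotientGroup.mk (g * s)) ∨
    (y = QuotientGroup.mk g ∧ x = QuotientGroup.mk (g * s))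
  symm := ⟨fun x y h => ⟨h.1.symm, by
    obtain ⟨g, s, hs, h2⟩ := h.2
    exact ⟨g, s, hs, h2.symm⟩⟩⟩
  loopless := ⟨fun x h => h.1 rfl⟩

theorem relG_conn {V : Subgroup G} {S : Set G} (hS : Subgroup.closure ((V : Set G) ∪ S) = ⊤) :
    (relG V S).Preconnected := by
  have key : ∀ g ∈ Subgroup.closure ((V : Set G) ∪ S), ∀ x : G,
      (relG V S).Reachable (QuotientGroup.mk x) (QuotientGroup.mk (x * g)) := by
    intro g hg
    induction hg using Subgroup.closure_induction with
    | mem s hs =>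
      intro x
      rcases hs with hs | hs
      · have : (QuotientGroup.mk (x * s) : G ⧸ V) = QuotientGroup.mk x := by
          rw [QuotientGroup.eq]
          simpa using hs
        rw [this]
      · by_cases h : (QuotientGroup.mk x : G ⧸ V) = QuotientGroup.mk (x * s)
        · rw [← h]
        · exact Adj.reachable ⟨h, x, s, hs, Or.inl ⟨rfl, rfl⟩⟩
    | one => intro x; rw [mul_one]
    | mul a b _ _ ha hb =>
      intro x
      rw [← mul_assoc]
      exact (ha x).trans (hb _)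
    | inv a _ ha =>
      intro x
      have := (ha (x * a⁻¹)).symm
      rwa [inv_mul_cancel_right] at this
  intro x y
  induction x using QuotientGroup.induction_on with
  | H x =>
    induction y using QuotientGroup.induction_on with
    | H y =>
      have := key (x⁻¹ * y) (by rw [hS]; trivial) x
      rwa [mul_inv_cancel_left] at this

theorem rel_tree (F : Subgroup G) (hF : F.Normal) (j : F →* FreeGroup α)
    (hj : Function.Injective j) (Y : Set α) (V : Subgroup G) (S : Set G) (hSf : S.Finite)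
    (hSF : S ⊆ F) (hS : Subgroup.closure ((V : Set G) ∪ S) = ⊤)
    (hVF : ∀ g : G, ∃ f ∈ F, ∃ v ∈ V, g = f * v)
    (hB : ∀ f : F, (f : G) ∈ V ↔
      ∀ v ∈ V, j ⟨v⁻¹ * f * v, by simpa using hF.conj_mem f f.2 v⁻¹⟩ ∈ cl Y)
    (hne : ∃ b : F, (b : G) ∈ V ∧ b ≠ 1)
    (hT : ∃ T : Set G, T.Finite ∧ T ⊆ V ∧ ∀ v ∈ V, ∃ t ∈ T, v * t⁻¹ ∈ F) :
    ∃ (t : GTree G F) (p0 : t.N), ∀ g : G, g • p0 = p0 ↔ g ∈ V := by
  have hB1 : ∀ f : F, (f : G) ∈ V → j f ∈ cl Y := by
    intro f hf
    have := (hB f).1 hf 1 V.one_mem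
    convert this using 2
    apply Subtype.ext
    simp
  -- representatives
  have hrep : ∀ ω : G ⧸ V, ∃ f : F, ω = QuotientGroup.mk (f : G) := by
    intro ω
    induction ω using QuotientGroup.induction_on with
    | H g =>
      obtain ⟨f, hf, v, hv, rfl⟩ := hVF g
      refine ⟨⟨f, hf⟩, ?_⟩
      rw [QuotientGroup.eq]
      simpa using hv
  choose rp hrp using hrep
  let κ : G ⧸ V → FreeGroup α := fun ω => j (rp ω)
  have hcay : Cay (relG V S) F j Y κ := by
    refine ⟨⟨relG_conn hS, ?_, hF, tf_of_inj hj, ?_⟩, hj, ?_, ?_⟩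
    · rintro g x y ⟨h1, a, s, hs, h2⟩
      refine ⟨fun h => h1 (MulAction.injective g h), g * a, s, hs, ?_⟩
      rcases h2 with ⟨rfl, rfl⟩ | ⟨rfl, rfl⟩
      · left
        refine ⟨rfl, ?_⟩
        rw [mul_assoc]
        rfl
      · right
        refine ⟨rfl, ?_⟩
        rw [mul_assoc]
        rfl
    · intro f hf x y hxy hx hy
      obtain ⟨h1, g, s, hs, h2⟩ := hxy
      have main : f • (QuotientGroup.mk g : G ⧸ V) = QuotientGroup.mk g →
          f • (QuotientGroup.mk (g * s) : G ⧸ V) = QuotientGroup.mk (g * s) →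
          (QuotientGroup.mk g : G ⧸ V) ≠ QuotientGroup.mk (g * s) → f = 1 := by
        intro h3 h4 h5
        by_contra hf1
        have e1 : g⁻¹ * f * g ∈ V := by
          have := QuotientGroup.eq.1 h3.symm
          simpa [mul_assoc] using this
        have e2 : (g * s)⁻¹ * f * (g * s) ∈ V := by
          have := QuotientGroup.eq.1 h4.symm
          simpa [mul_assoc] using this
        have hf' : g⁻¹ * f * g ∈ F := by simpa using hF.conj_mem f hf g⁻¹
        have hs' : s ∈ F := hSF hs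
        apply h5
        rw [QuotientGroup.eq, inv_mul_cancel_left]
        rw [hB ⟨s, hs'⟩]
        intro v hv
        have hc1 : v⁻¹ * (g⁻¹ * f * g) * v ∈ F := by simpa using hF.conj_mem _ hf' v⁻¹
        have hc2 : v⁻¹ * s * v ∈ F := by simpa using hF.conj_mem _ hs' v⁻¹
        apply malnormal (y := j ⟨v⁻¹ * (g⁻¹ * f * g) * v, hc1⟩)
        · exact (hB ⟨g⁻¹ * f * g, hf'⟩).1 e1 v hv
        · intro h6
          rw [← _root_.map_one j] at h6
          have h7 := congrArg Subtype.val (hj h6)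
          simp only [Subgroup.coe_one] at h7
          apply hf1
          have : f = g * v * (v⁻¹ * (g⁻¹ * f * g) * v) * (g * v)⁻¹ := by group
          rw [this, h7]
          group
        · rw [← _root_.map_inv, ← _root_.map_mul, ← _root_.map_mul]
          have e3 : (g * s)⁻¹ * f * (g * s) ∈ F := by simpa using hF.conj_mem f hf (g * s)⁻¹
          have := (hB ⟨(g * s)⁻¹ * f * (g * s), e3⟩).1 e2 v hv
          convert this using 2
          apply Subtype.ext
          simp only [Subgroup.coe_mul, Subgroup.coe_inv]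
          group
      rcases h2 with ⟨rfl, rfl⟩ | ⟨rfl, rfl⟩
      · exact main hx hy h1
      · exact main hy hx h1.symm
    · intro f ω
      have h1 : (QuotientGroup.mk ((f : G) * rp ω) : G ⧸ V) =
          QuotientGroup.mk ((rp ((f : G) • ω) : F) : G) := by
        rw [← hrp ((f : G) • ω)]
        conv_rhs => rw [hrp ω]
        rfl
      have h2 := QuotientGroup.eq.1 h1
      have h3 := hB1 ((f * rp ω)⁻¹ * rp ((f : G) • ω)) (by simpa using h2)
      simpa [κ, _root_.map_mul, _root_.map_inv] using h3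
    · obtain ⟨T, hTf, hTV, hT⟩ := hT
      refine ⟨(Set.image2 (fun t s => ((QuotientGroup.mk 1 : G ⧸ V), (QuotientGroup.mk (t * s) : G ⧸ V))) T S) ∪
        (Set.image2 (fun t s => ((QuotientGroup.mk (t * s) : G ⧸ V), (QuotientGroup.mk 1 : G ⧸ V))) T S),
        (hTf.image2 _ hSf).union (hTf.image2 _ hSf), ?_⟩
      rintro x y ⟨-, g, s, hs, h2⟩
      obtain ⟨f, hf, v, hv, rfl⟩ := hVF g
      obtain ⟨t, ht, hvt⟩ := hT v hv
      have e1 : (QuotientGroup.mk (f * v) : G ⧸ V) =
          (f * (v * t⁻¹)) • (QuotientGroup.mk 1 : G ⧸ V) := by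
        change _ = QuotientGroup.mk (f * (v * t⁻¹) * 1)
        rw [QuotientGroup.eq]
        have : (f * v)⁻¹ * (f * (v * t⁻¹) * 1) = t⁻¹ := by group
        rw [this]
        exact V.inv_mem (hTV ht)
      have e2 : (QuotientGroup.mk (f * v * s) : G ⧸ V) =
          (f * (v * t⁻¹)) • (QuotientGroup.mk (t * s) : G ⧸ V) := by
        change _ = QuotientGroup.mk (f * (v * t⁻¹) * (t * s))
        congr 1
        group
      have hmem : f * (v * t⁻¹) ∈ F := F.mul_mem hf hvt
      rcases h2 with ⟨rfl, rfl⟩ | ⟨rfl, rfl⟩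
      · exact ⟨⟨_, hmem⟩, _, Or.inl ⟨t, ht, s, hs, rfl⟩, e1, e2⟩
      · exact ⟨⟨_, hmem⟩, _, Or.inr ⟨t, ht, s, hs, rfl⟩, e2, e1⟩
  obtain ⟨K, hK⟩ := hcay.test
  have hE := EE_fam hcay.ctx K
  refine ⟨treeOf hE (QuotientGroup.mk 1), U hE (QuotientGroup.mk 1), ?_⟩
  have hV : ∀ g ∈ V, g • U hE (QuotientGroup.mk 1) = U hE (QuotientGroup.mk 1) := by
    intro g hg
    rw [smul_U]
    congr 1
    change (QuotientGroup.mk (g * 1) : G ⧸ V) = _
    rw [eq_comm, QuotientGroup.eq]
    simpa using hg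
  intro g
  refine ⟨fun hg => ?_, hV g⟩
  obtain ⟨f, hf, v, hv, rfl⟩ := hVF g
  apply V.mul_mem _ hv
  have hfp : f • U hE (QuotientGroup.mk 1) = U hE (QuotientGroup.mk 1) := by
    have h1 : (f * v) • U hE (QuotientGroup.mk 1) = U hE (QuotientGroup.mk 1) := hg
    rwa [mul_smul, hV v hv] at h1
  rw [hB ⟨f, hf⟩]
  intro v' hv'
  by_contra hc
  obtain ⟨b, hbV, hb1⟩ := hne
  have hjb : j b ≠ 1 := by
    intro h
    rw [← _root_.map_one j] at h
    exact hb1 (hj h)
  have hm : v'⁻¹ * f * v' ∈ F := by simpa using hF.conj_mem f hf v'⁻¹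
  obtain ⟨u, -, c, l, h1, h2, h3⟩ := comm_CR hc (hB1 b hbV) hjb
  let m : F := ⟨v'⁻¹ * f * v', hm⟩
  have h4 : j (m * b * m⁻¹ * b⁻¹) = u * c * u⁻¹ := by
    rw [_root_.map_mul, _root_.map_mul, _root_.map_mul, _root_.map_inv, _root_.map_inv]
    exact h1
  have h5 := hK (m * b * m⁻¹ * b⁻¹) u c l h3 h4 h2
  obtain ⟨A, hA, hs⟩ := EE_spl h5
  have fixm : (m : G) • U hE (QuotientGroup.mk 1) = U hE (QuotientGroup.mk 1) := by
    change (v'⁻¹ * f * v') • U hE (QuotientGroup.mk 1) = U hE (QuotientGroup.mk 1)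
    rw [mul_smul, mul_smul, hV v' hv', hfp, inv_smul_eq_iff, hV v' hv']
  refine fix_not_spl hE (m * b * m⁻¹ * b⁻¹).2 (p := U hE (QuotientGroup.mk 1)) ?_ hA hs
  have hb' := hV b hbV
  simp only [Subgroup.coe_mul, Subgroup.coe_inv, mul_smul]
  rw [inv_smul_eq_iff.2 hb'.symm, inv_smul_eq_iff.2 fixm.symm, hb', fixm]

end Pool.Agent.U843.LR
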