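import Pool.Agent.U843.LR.Nest

set_option autoImplicit false

/-!
# The structure tree of a nested family
-/

namespace Pool.Agent.U843.LR

open SimpleGraph Pointwise

variable {G Ω : Type} [Group G] [MulAction G Ω]

/-- vertices (complete) and edges (one pair missing) of the structure tree -/
structure IsNode (E : Set (Set Ω)) (S : Set (Set Ω)) : Prop where
  sub : S ⊆ E
  up : ∀ A ∈ S, ∀ B ∈ E, A ⊆ B → B ∈ S
  anti : ∀ A ∈ S, Aᶜ ∉ S
  miss : ∀ A ∈ E, ∀ B ∈ E, A ∉ S → Aᶜ ∉ S → B ∉ S → Bᶜ ∉ S → B = A ∨ B = Aᶜ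
  fin : ∀ ω : Ω, {A | A ∈ S ∧ ω ∉ A}.Finite

/-- no pair is missing -/
def Full (E S : Set (Set Ω)) : Prop := ∀ A ∈ E, A ∈ S ∨ Aᶜ ∈ S

theorem ne_compl' {F : Subgroup G} {E : Set (Set Ω)} (hE : Fam F E) {A : Set Ω} (hA : A ∈ E) :
    A ≠ Aᶜ := by
  intro h
  obtain ⟨x, hx⟩ := hE.ne A hA
  have : x ∈ Aᶜ := h ▸ hx
  exact this hx

theorem isNode_U {F : Subgroup G} {E : Set (Set Ω)} (hE : Fam F E) (ω : Ω) :
    IsNode E {A | A ∈ E ∧ ω ∈ A} where
  sub A hA := hA.1
  up A hA B hB hAB := ⟨hB, hAB hA.2⟩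
  anti A hA h := h.2 hA.2
  miss A hA B hB h1 h2 _ _ := by
    exfalso
    by_cases h : ω ∈ A
    · exact h1 ⟨hA, h⟩
    · exact h2 ⟨hE.compl A hA, h⟩
  fin ω' := by
    apply (hE.sep ω ω').subset
    rintro A ⟨⟨h1, h2⟩, h3⟩
    exact ⟨h1, h2, h3⟩

theorem full_U {F : Subgroup G} {E : Set (Set Ω)} (hE : Fam F E) (ω : Ω) :
    Full E {A | A ∈ E ∧ ω ∈ A} := by
  intro A hA
  by_cases h : ω ∈ A
  · exact Or.inl ⟨hA, h⟩
  · exact Or.inr ⟨hE.compl A hA, h⟩

/-- filling the missing pair -/
theorem isNode_insert {F : Subgroup G} {E : Set (Set Ω)} (hE : Fam F E) {S : Set (Set Ω)}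
    (hS : IsNode E S) {A : Set Ω} (hA : A ∈ E) (h1 : A ∉ S) (h2 : Aᶜ ∉ S) :
    IsNode E (insert A S) where
  sub := Set.insert_subset hA hS.sub
  up B hB C hC hBC := by
    rcases hB with rfl | hB
    · by_cases h3 : C ∈ S
      · exact Or.inr h3
      · have h4 : Cᶜ ∉ S := by
          intro h4
          apply h2
          exact hS.up _ h4 _ (hE.compl B hA) (Set.compl_subset_compl.2 hBC)
        rcases hS.miss B hA C hC h1 h2 h3 h4 with h5 | h5
        · exact Or.inl h5
        · exfalso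
          obtain ⟨x, hx⟩ := hE.ne B hA
          have : x ∈ C := hBC hx
          rw [h5] at this
          exact this hx
    · exact Or.inr (hS.up B hB C hC hBC)
  anti B hB h := by
    rcases hB with rfl | hB
    · rcases h with h | h
      · exact ne_compl' hE hA h.symm
      · exact h2 h
    · rcases h with h | h
      · apply h2
        rw [← h, compl_compl]
        exact hB
      · exact hS.anti B hB h
  miss B hB C hC h3 h4 h5 h6 := by
    exfalso
    rcases hS.miss A hA B hB h1 h2 (fun h => h3 (Or.inr h)) (fun h => h4 (Or.inr h)) with h7 | h7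
    · exact h3 (Or.inl h7)
    · apply h4
      rw [h7, compl_compl]
      exact Or.inl rfl
  fin ω := by
    apply ((hS.fin ω).union (Set.finite_singleton A)).subset
    rintro B ⟨h3, h4⟩
    rcases h3 with rfl | h3
    · exact Or.inr rfl
    · exact Or.inl ⟨h3, h4⟩

theorem full_insert {E S : Set (Set Ω)} (hS : IsNode E S) {A : Set Ω} (hA : A ∈ E) (h1 : A ∉ S)
    (h2 : Aᶜ ∉ S) : Full E (insert A S) := by
  intro B hB
  by_contra h
  push Not at h
  rcases hS.miss A hA B hB h1 h2 (fun h' => h.1 (Or.inr h')) (fun h' => h.2 (Or.inr h'))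
    with h7 | h7
  · exact h.1 (Or.inl h7)
  · apply h.2
    rw [h7, compl_compl]
    exact Or.inl rfl

/-- removing a minimal element -/
theorem isNode_remove {E : Set (Set Ω)} {S : Set (Set Ω)}
    (hS : IsNode E S) (hf : Full E S) {A : Set Ω} (hmin : ∀ B ∈ S, B ⊆ A → B = A) :
    IsNode E (S \ {A}) where
  sub B hB := hS.sub hB.1
  up B hB C hC hBC := by
    refine ⟨hS.up B hB.1 C hC hBC, ?_⟩
    rintro rfl
    exact hB.2 (hmin B hB.1 hBC)
  anti B hB h := hS.anti B hB.1 h.1
  miss B hB C hC h3 h4 h5 h6 := by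
    have key : ∀ B ∈ E, B ∉ S \ {A} → Bᶜ ∉ S \ {A} → B = A ∨ B = Aᶜ := by
      intro B hB h3 h4
      rcases hf B hB with h | h
      · by_contra hc
        push Not at hc
        exact h3 ⟨h, hc.1⟩
      · by_contra hc
        push Not at hc
        refine h4 ⟨h, fun h' => hc.2 ?_⟩
        rw [Set.mem_singleton_iff] at h'
        rw [← h', compl_compl]
    rcases key B hB h3 h4 with rfl | rfl
    · exact key C hC h5 h6
    · rw [compl_compl]
      exact (key C hC h5 h6).symm
  fin ω := (hS.fin ω).subset (fun B hB => ⟨hB.1.1, hB.2⟩)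

/-- nodes -/
def Node {F : Subgroup G} {E : Set (Set Ω)} (_hE : Fam F E) : Type := {S : Set (Set Ω) // IsNode E S}

variable {F : Subgroup G} {E : Set (Set Ω)}

theorem Node.ext' {hE : Fam F E} {p q : Node hE} (h : p.1 = q.1) : p = q := Subtype.ext h

/-- the tree -/
def TG (hE : Fam F E) : SimpleGraph (Node hE) where
  Adj p q := (∃ A, A ∉ p.1 ∧ q.1 = insert A p.1) ∨ (∃ A, A ∉ q.1 ∧ p.1 = insert A q.1)
  symm := ⟨fun p q h => h.symm⟩
  loopless := ⟨by
    rintro p (⟨A, h1, h2⟩ | ⟨A, h1, h2⟩)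
    · apply h1
      rw [h2]
      exact Or.inl rfl
    · apply h1
      rw [h2]
      exact Or.inl rfl⟩

theorem node_insert_mem {hE : Fam F E} {p q : Node hE} {A : Set Ω} (h1 : A ∉ p.1)
    (h2 : q.1 = insert A p.1) : A ∈ E ∧ Aᶜ ∉ p.1 := by
  have h3 : A ∈ q.1 := by rw [h2]; exact Or.inl rfl
  refine ⟨q.2.sub h3, fun h => q.2.anti A h3 ?_⟩
  rw [h2]
  exact Or.inr h

/-- the incomplete node is determined by the missing set -/
theorem node_unique {hE : Fam F E} {p q : Node hE} {A : Set Ω} (hA : A ∈ E) (hp1 : A ∉ p.1)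
    (hp2 : Aᶜ ∉ p.1) (hq1 : A ∉ q.1) (hq2 : Aᶜ ∉ q.1) : p = q := by
  have key : ∀ p q : Node hE, A ∉ p.1 → Aᶜ ∉ p.1 → A ∉ q.1 → Aᶜ ∉ q.1 → p.1 ⊆ q.1 := by
    intro p q hp1 hp2 hq1 hq2 C hC
    have hCE := p.2.sub hC
    have hCA : C ≠ A := fun h => hp1 (h ▸ hC)
    have hCA' : C ≠ Aᶜ := fun h => hp2 (h ▸ hC)
    have hAc := hE.compl A hA
    rcases nested_iff.1 (hE.nested C hCE A hA) with h | h | h | h
    · exfalso
      exact hp2 (p.2.up C hC Aᶜ hAc (fun x hx => h x hx))
    · exfalso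
      exact hp1 (p.2.up C hC A hA h)
    · by_contra hn
      have hn2 : Cᶜ ∉ q.1 := by
        intro h'
        exact hq2 (q.2.up _ h' Aᶜ hAc (fun x hx => h x hx))
      rcases q.2.miss A hA C hCE hq1 hq2 hn hn2 with h5 | h5
      · exact hCA h5
      · exact hCA' h5
    · by_contra hn
      have hn2 : Cᶜ ∉ q.1 := by
        intro h'
        exact hq1 (q.2.up _ h' A hA (fun x hx => h x hx))
      rcases q.2.miss A hA C hCE hq1 hq2 hn hn2 with h5 | h5
      · exact hCA h5
      · exact hCA' h5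
  exact Node.ext' (Set.Subset.antisymm (key p q hp1 hp2 hq1 hq2) (key q p hq1 hq2 hp1 hp2))

theorem TG_acyclic (hE : Fam F E) : (TG hE).IsAcyclic := by
  have main : ∀ p q : Node hE, ∀ A, A ∉ p.1 → q.1 = insert A p.1 →
      ¬ ((TG hE).deleteEdges {s(p, q)}).Reachable p q := by
    intro p q A h1 h2
    obtain ⟨hA, h3⟩ := node_insert_mem h1 h2
    have hstep : ∀ r r' : Node hE, ((TG hE).deleteEdges {s(p, q)}).Adj r r' →
        (A ∈ r.1 ↔ A ∈ r'.1) := by
      have half : ∀ r r' : Node hE, s(r, r') ≠ s(p, q) → ∀ B, B ∉ r.1 → r'.1 = insert B r.1 →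
          (A ∈ r.1 ↔ A ∈ r'.1) := by
        intro r r' hne B hB hr'
        by_cases hAB : A = B
        · subst hAB
          exfalso
          have h4 := (node_insert_mem hB hr').2
          have h5 : r = p := node_unique hA hB h4 h1 h3
          subst h5
          have h6 : r' = q := Node.ext' (hr'.trans h2.symm)
          subst h6
          exact hne rfl
        · rw [hr', Set.mem_insert_iff]
          tauto
      intro r r' hrr
      rw [deleteEdges_adj, Set.mem_singleton_iff] at hrr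
      obtain ⟨h4 | h4, h5⟩ := hrr
      · obtain ⟨B, hB, hr'⟩ := h4
        exact half r r' h5 B hB hr'
      · obtain ⟨B, hB, hr'⟩ := h4
        exact (half r' r (by rwa [Sym2.eq_swap]) B hB hr').symm
    rintro ⟨P⟩
    have : ∀ (r r' : Node hE) (P : ((TG hE).deleteEdges {s(p, q)}).Walk r r'),
        (A ∈ r.1 ↔ A ∈ r'.1) := by
      intro r r' P
      induction P with
      | nil => exact Iff.rfl
      | cons h _ ih => exact (hstep _ _ h).trans ih
    have h6 := this p q P
    apply h1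
    rw [h6, h2]
    exact Or.inl rfl
  rw [isAcyclic_iff_forall_adj_isBridge]
  intro p q hpq
  rw [isBridge_iff]
  rcases hpq with ⟨A, h1, h2⟩ | ⟨A, h1, h2⟩
  · exact main p q A h1 h2
  · intro h
    apply main q p A h1 h2
    rw [Sym2.eq_swap]
    exact h.symm

theorem full_eq {S S' : Set (Set Ω)} (hS' : IsNode E S') (hS : IsNode E S)
    (hf : Full E S) (hsub : S ⊆ S') : S = S' := by
  apply Set.Subset.antisymm hsub
  intro A hA
  rcases hf A (hS'.sub hA) with h | h
  · exact h
  · exact absurd (hsub h) (hS'.anti A hA)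

theorem TG_reach_full (hE : Fam F E) (n : ℕ) : ∀ p q : Node hE, Full E p.1 → Full E q.1 →
    (p.1 \ q.1).Finite → (p.1 \ q.1).ncard = n → (TG hE).Reachable p q := by
  induction n with
  | zero =>
    intro p q hp hq hfin hn
    rw [Set.ncard_eq_zero hfin, Set.sdiff_eq_empty] at hn
    rw [Node.ext' (full_eq q.2 p.2 hp hn)]
  | succ n ih =>
    intro p q hp hq hfin hn
    have hne : (p.1 \ q.1).Nonempty := by
      rw [← Set.ncard_pos hfin]
      omega
    obtain ⟨A, hA⟩ := hfin.exists_minimal hne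
    have hAp := hA.1.1
    have hAE := p.2.sub hAp
    have hmin : ∀ B ∈ p.1, B ⊆ A → B = A := by
      intro B hB hBA
      apply Set.Subset.antisymm hBA
      apply hA.2 _ hBA
      refine ⟨hB, fun h => hA.1.2 (q.2.up B h A hAE hBA)⟩
    let r : Node hE := ⟨p.1 \ {A}, isNode_remove p.2 hp hmin⟩
    have hrA : A ∉ r.1 := fun h => h.2 rfl
    have hrA' : Aᶜ ∉ r.1 := fun h => p.2.anti A hAp h.1
    have hAc := hE.compl A hAE
    let p' : Node hE := ⟨insert Aᶜ r.1, isNode_insert hE r.2 hAc hrA' (by rwa [compl_compl])⟩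
    have hp' : Full E p'.1 := full_insert r.2 hAc hrA' (by rwa [compl_compl])
    have h1 : (TG hE).Adj p r := Or.inr ⟨A, hrA, by
      change p.1 = insert A (p.1 \ {A})
      rw [Set.insert_sdiff_singleton, Set.insert_eq_of_mem hAp]⟩
    have h2 : (TG hE).Adj r p' := Or.inl ⟨Aᶜ, hrA', rfl⟩
    have hAq : Aᶜ ∈ q.1 := by
      rcases hq A hAE with h | h
      · exact absurd h hA.1.2
      · exact h
    have hd : p'.1 \ q.1 = (p.1 \ q.1) \ {A} := by
      ext B
      simp only [p', r, Set.mem_sdiff, Set.mem_insert_iff, Set.mem_singleton_iff]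
      constructor
      · rintro ⟨rfl | ⟨h3, h4⟩, h5⟩
        · exact absurd hAq h5
        · exact ⟨⟨h3, h5⟩, h4⟩
      · rintro ⟨⟨h3, h5⟩, h4⟩
        exact ⟨Or.inr ⟨h3, h4⟩, h5⟩
    have h3 : (TG hE).Reachable p' q := by
      apply ih p' q hp' hq
      · rw [hd]; exact hfin.sdiff
      · rw [hd, Set.ncard_sdiff_singleton_of_mem hA.1, hn]
        rfl
    exact h1.reachable.trans (h2.reachable.trans h3)

theorem exists_full (hE : Fam F E) (p : Node hE) :
    ∃ q : Node hE, Full E q.1 ∧ (q = p ∨ (TG hE).Adj p q) := by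
  by_cases hp : Full E p.1
  · exact ⟨p, hp, Or.inl rfl⟩
  · unfold Full at hp
    push Not at hp
    obtain ⟨A, hA, h1, h2⟩ := hp
    exact ⟨⟨insert A p.1, isNode_insert hE p.2 hA h1 h2⟩, full_insert p.2 hA h1 h2,
      Or.inr (Or.inl ⟨A, h1, rfl⟩)⟩

theorem diff_finite (hE : Fam F E) (ω : Ω) (p q : Node hE) (hq : Full E q.1) :
    (p.1 \ q.1).Finite := by
  apply ((p.2.fin ω).union ((q.2.fin ω).image (fun A => Aᶜ))).subset
  rintro A ⟨h1, h2⟩
  by_cases h : ω ∈ A
  · right
    refine ⟨Aᶜ, ⟨?_, fun h' => h' h⟩, compl_compl A⟩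
    rcases hq A (p.2.sub h1) with h3 | h3
    · exact absurd h3 h2
    · exact h3
  · left
    exact ⟨h1, h⟩

theorem TG_tree (hE : Fam F E) (ω : Ω) : (TG hE).IsTree where
  connected :=
    { preconnected := by
        intro p q
        obtain ⟨p', hp', h1⟩ := exists_full hE p
        obtain ⟨q', hq', h2⟩ := exists_full hE q
        have h3 : (TG hE).Reachable p' q' :=
          TG_reach_full hE _ p' q' hp' hq' (diff_finite hE ω p' q' hq') rfl
        have h4 : (TG hE).Reachable p p' := by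
          rcases h1 with rfl | h1
          · exact Reachable.refl _
          · exact h1.reachable
        have h5 : (TG hE).Reachable q q' := by
          rcases h2 with rfl | h2
          · exact Reachable.refl _
          · exact h2.reachable
        exact h4.trans (h3.trans h5.symm)
      nonempty := ⟨⟨_, isNode_U hE ω⟩⟩ }
  isAcyclic := TG_acyclic hE

/-! ### the action -/

theorem smul_mem_E (hE : Fam F E) {A : Set Ω} {g : G} : g • A ∈ E ↔ A ∈ E := by
  constructor
  · intro h
    have := hE.smul _ h g⁻¹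
    rwa [inv_smul_smul] at this
  · intro h
    exact hE.smul _ h g

theorem isNode_smul (hE : Fam F E) {S : Set (Set Ω)} (hS : IsNode E S) (g : G) :
    IsNode E (g • S) where
  sub A hA := by
    rw [Set.mem_smul_set_iff_inv_smul_mem] at hA
    exact (smul_mem_E hE).1 (hS.sub hA)
  up A hA B hB hAB := by
    rw [Set.mem_smul_set_iff_inv_smul_mem] at *
    exact hS.up _ hA _ ((smul_mem_E hE).2 hB) (Set.smul_set_mono hAB)
  anti A hA h := by
    rw [Set.mem_smul_set_iff_inv_smul_mem] at *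
    rw [Set.smul_set_compl] at h
    exact hS.anti _ hA h
  miss A hA B hB h1 h2 h3 h4 := by
    rw [Set.mem_smul_set_iff_inv_smul_mem] at *
    rw [Set.smul_set_compl] at h2 h4
    rcases hS.miss _ ((smul_mem_E hE).2 hA) _ ((smul_mem_E hE).2 hB) h1 h2 h3 h4 with h5 | h5
    · left
      exact MulAction.injective g⁻¹ h5
    · right
      rw [← Set.smul_set_compl] at h5
      exact MulAction.injective g⁻¹ h5
  fin ω := by
    have : {A | A ∈ g • S ∧ ω ∉ A} = (fun A => g • A) '' {A | A ∈ S ∧ g⁻¹ • ω ∉ A} := by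
      ext A
      simp only [Set.mem_ofPred_eq, Set.mem_image]
      constructor
      · rintro ⟨h1, h2⟩
        rw [Set.mem_smul_set_iff_inv_smul_mem] at h1
        refine ⟨g⁻¹ • A, ⟨h1, fun h => h2 ?_⟩, by simp⟩
        rwa [Set.smul_mem_smul_set_iff] at h
      · rintro ⟨B, ⟨h1, h2⟩, rfl⟩
        refine ⟨Set.smul_mem_smul_set h1, fun h => h2 ?_⟩
        rwa [Set.mem_smul_set_iff_inv_smul_mem] at h
    rw [this]
    exact (hS.fin _).image _

instance nodeAct (hE : Fam F E) : MulAction G (Node hE) where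
  smul g p := ⟨g • p.1, isNode_smul hE p.2 g⟩
  one_smul p := Node.ext' (one_smul G p.1)
  mul_smul g h p := Node.ext' (mul_smul g h p.1)

theorem node_smul_val (hE : Fam F E) (g : G) (p : Node hE) : (g • p).1 = g • p.1 := rfl

theorem TG_inv (hE : Fam F E) (g : G) (p q : Node hE) (h : (TG hE).Adj p q) :
    (TG hE).Adj (g • p) (g • q) := by
  have half : ∀ p q : Node hE, (∃ A, A ∉ p.1 ∧ q.1 = insert A p.1) →
      ∃ A, A ∉ (g • p).1 ∧ (g • q).1 = insert A (g • p).1 := by
    rintro p q ⟨A, h1, h2⟩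
    refine ⟨g • A, ?_, ?_⟩
    · rw [node_smul_val, Set.smul_mem_smul_set_iff]
      exact h1
    · rw [node_smul_val, node_smul_val, h2, Set.smul_set_insert]
  rcases h with h | h
  · exact Or.inl (half p q h)
  · exact Or.inr (half q p h)

theorem full_smul (hE : Fam F E) (g : G) (p : Node hE) : Full E (g • p).1 ↔ Full E p.1 := by
  have half : ∀ (g : G) (p : Node hE), Full E p.1 → Full E (g • p).1 := by
    intro g p hp A hA
    rw [node_smul_val]
    simp only [Set.mem_smul_set_iff_inv_smul_mem, Set.smul_set_compl]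
    exact hp _ ((smul_mem_E hE).2 hA)
  refine ⟨fun h => ?_, half g p⟩
  have := half g⁻¹ _ h
  rwa [inv_smul_smul] at this

/-- one of two adjacent nodes is full, the other one is not -/
theorem full_adj (hE : Fam F E) {p q : Node hE} (h : (TG hE).Adj p q) :
    Full E p.1 ↔ ¬ Full E q.1 := by
  have half : ∀ p q : Node hE, (∃ A, A ∉ p.1 ∧ q.1 = insert A p.1) →
      (¬ Full E p.1 ∧ Full E q.1) := by
    rintro p q ⟨A, h1, h2⟩
    obtain ⟨h3, h4⟩ := node_insert_mem h1 h2
    refine ⟨fun h => ?_, ?_⟩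
    · rcases h A h3 with h5 | h5
      · exact h1 h5
      · exact h4 h5
    · rw [h2]
      exact full_insert p.2 h3 h1 h4
  rcases h with h | h
  · have := half p q h
    exact iff_of_false this.1 (not_not.2 this.2)
  · have := half q p h
    exact iff_of_true this.2 this.1

/-- stabilisers of edges meet `F` trivially -/
theorem edge_stab (hE : Fam F E) {p q : Node hE} (h : (TG hE).Adj p q) {f : G} (hf : f ∈ F)
    (hp : f • p = p) (hq : f • q = q) : f = 1 := by
  have half : ∀ p q : Node hE, (∃ A, A ∉ p.1 ∧ q.1 = insert A p.1) → f • p = p → f • q = q →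
      f = 1 := by
    rintro p q ⟨A, h1, h2⟩ hp hq
    obtain ⟨h3, h4⟩ := node_insert_mem h1 h2
    apply hE.stab A h3 f hf
    have h5 : f • A ∈ (f • q).1 := by
      rw [node_smul_val, Set.smul_mem_smul_set_iff, h2]
      exact Or.inl rfl
    rw [hq, h2] at h5
    rcases h5 with h5 | h5
    · exact h5
    · exfalso
      apply h1
      have h6 : f • A ∈ (f • p).1 := by
        rw [hp]
        exact h5
      rwa [node_smul_val, Set.smul_mem_smul_set_iff] at h6
  rcases h with h | h
  · exact half p q h hp hq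
  · exact half q p h hq hp

/-- an element of `F` that fixes a node is not split by the family -/
theorem fix_not_spl [Nonempty Ω] (hE : Fam F E) {p : Node hE} {m : G} (hm : m ∈ F)
    (hp : m • p = p) {A : Set Ω} (hA : A ∈ E) (hs : Spl m A) : False := by
  have h1 : m ≠ 1 := hs.ne_one
  obtain ⟨ω⟩ := ‹Nonempty Ω›
  have : Nonempty Ω := ⟨ω⟩
  have hstab : ∀ n : G, n • p = p → ∀ B, (n • B ∈ p.1 ↔ B ∈ p.1) := by
    intro n hn B
    constructor
    · intro h
      rw [← hn, node_smul_val, Set.smul_mem_smul_set_iff] at h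
      exact h
    · intro h
      rw [← hn, node_smul_val, Set.smul_mem_smul_set_iff]
      exact h
  have hpow : ∀ n : G, n • p = p → ∀ k : ℕ, n ^ k • p = p := by
    intro n hn k
    induction k with
    | zero => simp
    | succ k ih => rw [pow_succ, mul_smul, hn, ih]
  -- torsion
  have key : ∀ (n : G) (B : Set Ω), n ∈ F → n • p = p → B ∈ E → B ∈ p.1 → Pos n⁻¹ Bᶜ →
      ∃ k l : ℕ, k ≠ l ∧ n ^ k • B = n ^ l • B := by
    intro n B hn hnp hB hBp hpos
    by_contra hc
    push Not at hc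
    obtain ⟨k0, hk0⟩ := hpos ω
    have hinf : (Set.range (fun k : ℕ => n ^ (k + k0) • B)).Infinite := by
      apply Set.infinite_range_of_injective
      intro k l hkl
      by_contra hne
      exact hc (k + k0) (l + k0) (by omega) hkl
    apply hinf
    apply (p.2.fin ω).subset
    rintro _ ⟨k, rfl⟩
    refine ⟨(hstab _ (hpow n hnp _) B).2 hBp, fun h => ?_⟩
    rw [Set.mem_smul_set_iff_inv_smul_mem] at h
    have h5 := hk0 (k + k0) (by omega)
    rw [inv_pow] at h5
    exact h5 h
  have key2 : ∀ (n : G) (B : Set Ω), n ∈ F → n • p = p → B ∈ E → B ∈ p.1 → Pos n⁻¹ Bᶜ →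
      Pos n B → False := by
    intro n B hn hnp hB hBp hpos hpos2
    obtain ⟨k, l, hkl, heq⟩ := key n B hn hnp hB hBp hpos
    wlog hlt : k < l generalizing k l
    · exact this l k hkl.symm heq.symm (by omega)
    have h2 : n ^ (l - k) • B = B := by
      have : n ^ l = n ^ k * n ^ (l - k) := by rw [← pow_add]; congr 1; omega
      rw [this, mul_smul] at heq
      exact (MulAction.injective _ heq).symm
    have h3 := hE.stab B hB _ (F.pow_mem hn _) h2
    -- all powers return
    obtain ⟨k1, hk1⟩ := hpos ω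
    obtain ⟨k2, hk2⟩ := hpos2 ω
    have h4 := hk1 ((l - k) * (k1 + 1)) (by nlinarith [Nat.sub_pos_of_lt hlt])
    have h5 := hk2 ((l - k) * (k2 + 1)) (by nlinarith [Nat.sub_pos_of_lt hlt])
    rw [inv_pow, pow_mul, h3, one_pow, inv_one, one_smul] at h4
    rw [pow_mul, h3, one_pow, one_smul] at h5
    exact h4 h5
  -- WLOG the first alternative
  have main : ∀ A ∈ E, Pos m A → Pos m⁻¹ Aᶜ → False := by
    intro A hA hpos hneg
    by_cases hAp : A ∈ p.1
    · exact key2 m A hm hp hA hAp hneg hpos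
    by_cases hAp' : Aᶜ ∈ p.1
    · apply key2 m⁻¹ Aᶜ (F.inv_mem hm) (by rw [inv_smul_eq_iff, hp]) (hE.compl A hA) hAp'
      · rw [inv_inv, compl_compl]; exact hpos
      · exact hneg
    · have h2 : m • A ∉ p.1 := fun h => hAp ((hstab m hp A).1 h)
      have h3 : (m • A)ᶜ ∉ p.1 := by
        rw [← Set.smul_set_compl]
        exact fun h => hAp' ((hstab m hp _).1 h)
      rcases p.2.miss A hA (m • A) (hE.smul A hA m) hAp hAp' h2 h3 with h4 | h4
      · exact h1 (hE.stab A hA m hm h4)
      · have h5 := pos_conj (g := m) hpos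
        rw [mul_inv_cancel_right, h4] at h5
        exact not_pos_both hpos h5
  rcases hs with ⟨h2, h3⟩ | ⟨h2, h3⟩
  · exact main A hA h2 h3
  · exact main Aᶜ (hE.compl A hA) h2 (by rwa [compl_compl])

/-- the node of a point -/
def U (hE : Fam F E) (ω : Ω) : Node hE := ⟨_, isNode_U hE ω⟩

theorem smul_U (hE : Fam F E) (g : G) (ω : Ω) : g • U hE ω = U hE (g • ω) := by
  apply Node.ext'
  rw [node_smul_val]
  ext A
  rw [Set.mem_smul_set_iff_inv_smul_mem]
  simp only [U, Set.mem_ofPred_eq, smul_mem_E hE, Set.mem_inv_smul_set_iff]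

end Pool.Agent.U843.LR
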